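import Pool.Agent.Work.MP_3098b6_lc.Core

/-!
MODULE Alg (size S-M, about 120 lines): Boolean algebra (any preorder).

Let `RO.neg`, `RO.inf` be as in `Defs`.  The supremum of a set `s` is `(RO.inf {b.neg | b ∈ s}).neg`.
* `ro_ext`: two elements with the same carrier are equal.
* `neg_neg'`: `b.neg.neg = b` (by `reg`).
* `gen_isCSub`, `subset_gen`, `gen_le`.
* `ext_left`: if not, for every `p' ≤ p` in `E` there is `b ∈ D` with `p' ∈ b`, `q ∈ b.neg`.  Let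
  `s = {b.neg | b ∈ D, q ∈ b.neg} ⊆ D` and `e = (RO.inf s).neg ∈ D`.  `q ∈ RO.inf s ⊆ e.neg`.  `p ∈ e`: for
  `t ≤ p`, `t ∉ RO.inf s`: take `p' ≤ t` in `E` and its `b`: `p' ∈ b`, while `t ∈ RO.inf s` would give
  `p' ∈ b.neg`.  So `Sep D p q`.
* `ext_right`: by `sep_symm` from `ext_left`.
* `crit`: let `s` be the set of all `e ∈ D` with `b ≤ e` below `q0` (that is, all `p ≤ q0` in `b` are in `e`).
  `e0 = RO.inf s ∈ D`.  If `p ≤ q0`, `p ∈ b` then `p ∈ e0`.  Conversely let `p ≤ q0`, `p ∈ e0`, `p ∉ b`.  By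
  `b.reg` there is `q ≤ p` with `q ∈ b.neg`.  For each `p' ≤ q0` in `b` there is `b' ∈ D` with `p' ∈ b'`,
  `q ∈ b'.neg`; the supremum `e` of all `b' ∈ D` with `q ∈ b'.neg` is in `D`, contains all `p' ≤ q0` of `b`, and
  `q ∈ e.neg`; so `e ∈ s`, `q ∈ e0 ≤ e`: contradiction.
-/

open Set Filter

namespace MR3098

universe v

variable {P : Type v} [Preorder P]

theorem ro_ext {b e : RO P} (h : b.carrier = e.carrier) : b = e := by
  cases b
  cases e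
  cases h
  rfl

theorem mem_neg_iff {b : RO P} {p : P} : p ∈ b.neg.carrier ↔ ∀ q ≤ p, q ∉ b.carrier := Iff.rfl

theorem neg_neg' (b : RO P) : b.neg.neg = b := by
  apply ro_ext
  ext p
  constructor
  · intro h
    apply b.reg
    intro q hq
    by_contra hcon
    push Not at hcon
    exact h q hq hcon
  · intro h q hq hqn
    exact hqn q le_rfl (b.down p h q hq)

theorem not_mem_neg {b : RO P} {p : P} (h : p ∉ b.carrier) : ∃ q ≤ p, q ∈ b.neg.carrier := by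
  by_contra hcon
  push Not at hcon
  apply h
  apply b.reg
  intro q hq
  have := hcon q hq
  rw [mem_neg_iff] at this
  push Not at this
  exact this

theorem decide_dense (b : RO P) (p : P) : ∃ q ≤ p, q ∈ b.carrier ∨ q ∈ b.neg.carrier := by
  by_cases h : p ∈ b.carrier
  · exact ⟨p, le_rfl, Or.inl h⟩
  · obtain ⟨q, hq, h⟩ := not_mem_neg h
    exact ⟨q, hq, Or.inr h⟩

theorem gen_isCSub (A : Set (RO P)) : IsCSub (Gen A) := by
  constructor
  · intro b hb D hD hA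
    exact hD.1 b (hb D hD hA)
  · intro s hs D hD hA
    exact hD.2 s fun b hb => hs hb D hD hA

theorem subset_gen (A : Set (RO P)) : A ⊆ Gen A := fun _ hb _ _ hA => hA hb

theorem sep_symm {D : Set (RO P)} (hD : IsCSub D) {p q : P} (h : Sep D p q) : Sep D q p := by
  obtain ⟨b, hb, h1, h2⟩ := h
  refine ⟨b.neg, hD.1 b hb, h2, ?_⟩
  rw [neg_neg']
  exact h1

/-- The supremum of the elements of `D` which `q` refutes. -/
private theorem alg_sup {D : Set (RO P)} (hD : IsCSub D) (q : P) :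
    ∃ e ∈ D, q ∈ e.neg.carrier ∧ ∀ b ∈ D, q ∈ b.neg.carrier → b.carrier ⊆ e.carrier := by
  refine ⟨(RO.inf {e | ∃ b ∈ D, q ∈ b.neg.carrier ∧ e = b.neg}).neg, hD.1 _ (hD.2 _ ?_), ?_, ?_⟩
  · rintro e ⟨b, hb, _, rfl⟩
    exact hD.1 b hb
  · rw [neg_neg']
    rintro e ⟨b, _, hq, rfl⟩
    exact hq
  · intro b hb hq p hp t ht hcon
    exact hcon b.neg ⟨b, hb, hq, rfl⟩ t le_rfl (b.down p hp t ht)

theorem ext_left {D : Set (RO P)} (hD : IsCSub D) {p q : P} (h : ¬ Sep D p q) (E : Set P)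
    (hE : ∀ p' ≤ p, ∃ p'' ≤ p', p'' ∈ E) : ∃ p' ≤ p, p' ∈ E ∧ ¬ Sep D p' q := by
  by_contra hcon
  push Not at hcon
  obtain ⟨e, he, hq, hsup⟩ := alg_sup hD q
  refine h ⟨e, he, ?_, hq⟩
  apply e.reg
  intro t ht
  obtain ⟨p', hp', hE'⟩ := hE t ht
  obtain ⟨b, hb, h1, h2⟩ := hcon p' (hp'.trans ht) hE'
  exact ⟨p', hp', hsup b hb h2 h1⟩

theorem ext_right {D : Set (RO P)} (hD : IsCSub D) {p q : P} (h : ¬ Sep D p q) (E : Set P)
    (hE : ∀ q' ≤ q, ∃ q'' ≤ q', q'' ∈ E) : ∃ q' ≤ q, q' ∈ E ∧ ¬ Sep D p q' := by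
  have h' : ¬ Sep D q p := fun h'' => h (sep_symm hD h'')
  obtain ⟨q', hq', h1, h2⟩ := ext_left hD h' E hE
  exact ⟨q', hq', h1, fun h'' => h2 (sep_symm hD h'')⟩

theorem crit {D : Set (RO P)} (hD : IsCSub D) (b : RO P) (q0 : P)
    (h : ∀ p ≤ q0, ∀ q ≤ q0, p ∈ b.carrier → q ∈ b.neg.carrier → Sep D p q) :
    ∃ e ∈ D, ∀ p ≤ q0, (p ∈ b.carrier ↔ p ∈ e.carrier) := by
  refine ⟨RO.inf {e | e ∈ D ∧ ∀ p ≤ q0, p ∈ b.carrier → p ∈ e.carrier}, hD.2 _ fun e he => he.1,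
    fun p hp => ⟨fun hpb e he => he.2 p hp hpb, fun hpe => ?_⟩⟩
  by_contra hpb
  obtain ⟨q, hq, hqb⟩ := not_mem_neg hpb
  obtain ⟨e, he, hqe, hsup⟩ := alg_sup hD q
  have hmem : e ∈ {e | e ∈ D ∧ ∀ p ≤ q0, p ∈ b.carrier → p ∈ e.carrier} := by
    refine ⟨he, fun p' hp' hp'b => ?_⟩
    obtain ⟨b', hb', h1, h2⟩ := h p' hp' q (hq.trans hp) hp'b hqb
    exact hsup b' hb' h2 h1
  exact hqe q le_rfl (e.down p (hpe e hmem) q hq)

end MR3098
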