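import Pool.Agent.Work.MP_3098b6_lc.Core

/-!
MODULE Trim (size S, about 40 lines; this file: exists_trim; Basic is a separate module): trimming, base conditions, the next point.

* `exists_trim`: let `u` be the largest element of `x.stem` which is `≤ ρ` (the finset
  `x.stem.filter (· ≤ ρ)` is nonempty, use `Finset.max'`).  Take `restr x X` with
  `X = {ξ | ¬ (u < ξ ∧ ξ ≤ ρ)}`.  `Fmem S γ X` for a point `γ` of `x`: either `γ ≤ u` (then `Iio γ ⊆ X`,
  use `fmem_congr'` or `Fmem.mono (fmem_Iio _)`) or `ρ < γ` (since `γ ∈ x.stem` and `γ ≤ ρ` give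
  `γ ≤ u`; `γ = κ > ρ`), then `Ioi ρ ⊆ X` (`fmem_Ioi`).
* `exists_base`: if `p.stem` is nonempty let `m` be its least element; if `S.o m = 0` take `p0 = p`.
  Otherwise, and if the stem is empty (put `m = κ`), use `ktwo_zero` and `exists_add` (with
  `T = {β | S.o β = 0}`, `a = 0`: note `0 < m` as `S.o m ≠ 0`: use that `Iio m` is in a measure, so
  nonempty) to get `ξ < m` in `p.large` with `S.o ξ = 0`, and take `p0 = addPt p ξ`.
* `exists_gap`: `δ` is the least element of `p0.stem` above `w`, or `κ`.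
* `base_low`: there is no element of `p0.large` below `m` (`p0.zero`), so all `x ≤ p0` have the same lower
  part at `m`: every `γ ∈ x.stem` satisfies `m ≤ γ` and every `ξ ∈ x.large` satisfies `m < ξ`.
* `low_eq`: same lower parts.
-/

open Set Filter

namespace MR3098

universe u

variable {κ : Ordinal.{u}} {S : CoherentSeq κ}

theorem exists_trim (x : Cond S) {ρ : Ordinal.{u}} (hρ : ρ < κ) (hm : ∃ m ∈ x.stem, m ≤ ρ) :
    ∃ y ≤ x, ∃ a ∈ y.stem, a ≤ ρ ∧ NoPt y a ρ := by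
  classical
  obtain ⟨m, hm1, hm2⟩ := hm
  have hne : (x.stem.filter (fun γ => γ ≤ ρ)).Nonempty :=
    ⟨m, Finset.mem_filter.mpr ⟨hm1, hm2⟩⟩
  obtain ⟨a, ha1, ha2⟩ := Finset.exists_max_image _ (fun γ => γ) hne
  rw [Finset.mem_filter] at ha1
  have hmax : ∀ γ ∈ x.stem, γ ≤ ρ → γ ≤ a := fun γ h1 h2 =>
    ha2 γ (Finset.mem_filter.mpr ⟨h1, h2⟩)
  have hF : ∀ γ, Pt x γ → Fmem S γ {ξ | ¬ (a < ξ ∧ ξ ≤ ρ)} := by
    intro γ hγ
    rcases le_or_gt γ ρ with h1 | h1
    · have h2 : γ ≤ a := by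
        rcases hγ with h3 | h3
        · exact hmax γ h3 h1
        · exact absurd (h3 ▸ h1) (not_le.mpr hρ)
      exact (fmem_Iio (S := S) hγ.le).mono fun ξ hξ h3 =>
        absurd (h3.1.trans hξ) (not_lt.mpr h2)
    · exact (fmem_Ioi (S := S) hγ.le h1).mono fun ξ hξ h3 => absurd h3.2 (not_le.mpr hξ)
  refine ⟨restr x _ hF, restr_le, a, ha1.1, ha1.2, ?_⟩
  intro ξ h1 h2
  refine ⟨fun h3 => ?_, fun h3 => h3.2 ⟨h1, h2⟩⟩
  exact absurd (hmax ξ h3 h2) (not_le.mpr h1)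

end MR3098
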