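import Pool.Agent.Work.MP_3098b6_lc.KTwo
import Pool.Agent.Work.MP_3098b6_lc.Trim

/-!
MODULE Basic (size S-M, about 80 lines; this file: exists_base, exists_gap, base_le, base_low; Trim is a separate module): trimming, base conditions, the next point.

* `exists_trim`: let `u` be the largest element of `x.stem` which is `≤ ρ` (the finset
  `x.stem.filter (· ≤ ρ)` is nonempty, use `Finset.max'`).  Take `restr x X` with
  `X = {ξ | ¬ (u < ξ ∧ ξ ≤ ρ)}`.  `Fmem S γ X` for a point `γ` of `x`: either `γ ≤ u` (then `Iio γ ⊆ X`,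
  use `fmem_congr'` or `Fmem.mono (fmem_Iio _)`) or `ρ < γ` (since `γ ∈ x.stem` and `γ ≤ ρ` give
  `γ ≤ u`; `γ = κ > ρ`), then `Ioi ρ ⊆ X` (`fmem_Ioi`).
* `exists_base`: if `p.stem` is nonempty let `m` be its least element; if `S.o m = 0` take `p0 = p`.
  Otherwise, and if the stem is empty (put `m = κ`), use `ktwo_zero` and `exists_add` (with
  `T = {β | S.o β = 0}`, `a = 0`: note `0 < m` as `S.o m ≠ 0`: use that `Iio m` is in a measure, so
  nonempty) to get `ξ < m` in `p.large` with `S.o ξ = 0`, and take `p0 = addPt p ξ`.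
* `exists_gap`: `δ` is the least element of `p0.stem` above `w`, or `κ`.
* `base_low`: there is no element of `p0.large` below `m` (`p0.zero`), so all `x ≤ p0` have the same lower
  part at `m`: every `γ ∈ x.stem` satisfies `m ≤ γ` and every `ξ ∈ x.large` satisfies `m < ξ`.
* `low_eq`: same lower parts.
-/

open Set Filter

namespace MR3098

universe u

variable {κ : Ordinal.{u}} {S : CoherentSeq κ}

/-- Adding a point of order zero below all points of the stem gives a base condition. -/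
private theorem base_aux (p : Cond S) {m : Ordinal.{u}} (hm : Pt p m) (h0 : 0 < S.o m)
    (hmin : ∀ γ ∈ p.stem, m ≤ γ) : ∃ p0 ≤ p, ∃ m', IsBase p0 m' := by
  have hN := S.normal m hm.le 0 h0
  obtain ⟨η, hη⟩ := (S.U m 0).nonempty_of_mem hN.mem
  have hmpos : 0 < m := lt_of_le_of_lt zero_le hη
  obtain ⟨ξ, h1, _, h3, h4, h5⟩ := exists_add hm h0 (ktwo_zero hm.le h0) hmpos
  refine ⟨addPt p ξ h4 h5, addPt_le, ξ, addPt_mem, h1, fun γ hγ => ?_⟩
  rcases mem_addPt_stem.mp hγ with h6 | h6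
  · exact h6.ge
  · exact h3.le.trans (hmin γ h6)

theorem exists_base (h0 : 0 < S.o κ) (p : Cond S) : ∃ p0 ≤ p, ∃ m, IsBase p0 m := by
  rcases p.stem.eq_empty_or_nonempty with he | hne
  · refine base_aux p (pt_top p) h0 fun γ hγ => ?_
    rw [he] at hγ
    exact absurd hγ (Finset.notMem_empty γ)
  · obtain ⟨m, hm, hmin⟩ := Finset.exists_min_image p.stem (fun γ => γ) hne
    by_cases hz : S.o m = 0
    · exact ⟨p, le_rfl, m, hm, hz, hmin⟩
    · exact base_aux p (pt_of_mem hm) (pos_iff_ne_zero.mpr hz) hmin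

theorem exists_gap (p0 : Cond S) {w : Ordinal.{u}} (hw : w < κ) : ∃ δ, Gap p0 w δ := by
  classical
  rcases (p0.stem.filter (fun γ => w < γ)).eq_empty_or_nonempty with he | hne
  · refine ⟨κ, hw, pt_top p0, fun γ hγ h => ?_⟩
    have h1 : γ ∈ p0.stem.filter (fun γ => w < γ) := Finset.mem_filter.mpr ⟨hγ, h.1⟩
    rw [he] at h1
    exact absurd h1 (Finset.notMem_empty γ)
  · obtain ⟨δ, hδ, hmin⟩ := Finset.exists_min_image _ (fun γ => γ) hne
    rw [Finset.mem_filter] at hδ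
    refine ⟨δ, hδ.2, pt_of_mem hδ.1, fun γ hγ h => ?_⟩
    exact absurd h.2 (not_lt.mpr (hmin γ (Finset.mem_filter.mpr ⟨hγ, h.1⟩)))

theorem base_le {p0 x : Cond S} {m : Ordinal.{u}} (h : IsBase p0 m) (hx : x ≤ p0) :
    (∀ γ ∈ x.stem, m ≤ γ) ∧ ∀ ξ ∈ x.large, m < ξ := by
  have hl : ∀ ξ ∈ p0.large, m < ξ := by
    intro ξ hξ
    rcases lt_trichotomy ξ m with h1 | h1 | h1
    · obtain ⟨δ, h2, _, h4⟩ := p0.zero m (Or.inl h.mem) h.zero ξ hξ h1
      exact absurd h4 (not_lt.mpr (h.min δ h2))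
    · subst h1
      exact absurd h.mem (p0.disj ξ hξ)
    · exact h1
  refine ⟨fun γ hγ => ?_, fun ξ hξ => hl ξ (hx.2.1 hξ)⟩
  rcases hx.2.2 γ hγ with h1 | h1
  · exact h.min γ h1
  · exact (hl γ h1).le

theorem base_low {p0 x y : Cond S} {m : Ordinal.{u}} (h : IsBase p0 m) (hx : x ≤ p0)
    (hy : y ≤ p0) : Lle m x y := by
  obtain ⟨hx1, hx2⟩ := base_le h hx
  obtain ⟨hy1, hy2⟩ := base_le h hy
  refine ⟨Or.inl (hx.1 h.mem), Or.inl (hy.1 h.mem), fun γ hγ hz => ?_, fun γ hγ hz => ?_,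
    fun ξ hξ hz => ?_⟩
  · have h1 : γ = m := le_antisymm hz (hy1 γ hγ)
    subst h1
    exact hx.1 h.mem
  · have h1 : γ = m := le_antisymm hz (hx1 γ hγ)
    subst h1
    exact Or.inl (hy.1 h.mem)
  · exact absurd hz (not_lt.mpr (hx2 ξ hξ).le)

end MR3098
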