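import Pool.Agent.Work.MP_3098b6_lc.Defs

/-!
# Working definitions and basic facts (internal, not part of the statement)
-/

open Set Filter

namespace MR3098

universe u v w

variable {κ : Ordinal.{u}} {S : CoherentSeq κ}

theorem Cond.le_def {q p : Cond S} :
    q ≤ p ↔ p.stem ⊆ q.stem ∧ q.large ⊆ p.large ∧ ∀ ξ ∈ q.stem, ξ ∈ p.stem ∨ ξ ∈ p.large := Iff.rfl

/-- `z` is a point of `x`: it is in the stem, or equal to `κ`. -/
def Pt (x : Cond S) (z : Ordinal.{u}) : Prop := z ∈ x.stem ∨ z = κ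

/-- `X` belongs to all the measures on `γ`. -/
def Fmem (S : CoherentSeq κ) (γ : Ordinal.{u}) (X : Set Ordinal.{u}) : Prop :=
  ∀ β < S.o γ, X ∈ S.U γ β

/-- The lower part of `y` at `z` is stronger than the lower part of `x` at `z`. -/
structure Lle (z : Ordinal.{u}) (y x : Cond S) : Prop where
  pty : Pt y z
  ptx : Pt x z
  sub : ∀ γ ∈ x.stem, γ ≤ z → γ ∈ y.stem
  new : ∀ γ ∈ y.stem, γ ≤ z → γ ∈ x.stem ∨ γ ∈ x.large
  lar : ∀ ξ ∈ y.large, ξ < z → ξ ∈ x.large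

/-- Above `z` the condition `y` is stronger than `x`. -/
structure Ule (z : Ordinal.{u}) (y x : Cond S) : Prop where
  sub : ∀ γ ∈ x.stem, z < γ → γ ∈ y.stem
  new : ∀ γ ∈ y.stem, z < γ → γ ∈ x.stem ∨ γ ∈ x.large
  lar : ∀ ξ ∈ y.large, z < ξ → ξ ∈ x.large

/-- `x` has no points, in the stem or in the large set, in the interval `(u, ρ]`. -/
def NoPt (x : Cond S) (a ρ : Ordinal.{u}) : Prop :=
  ∀ ξ, a < ξ → ξ ≤ ρ → ξ ∉ x.stem ∧ ξ ∉ x.large

theorem Pt.le {x : Cond S} {z : Ordinal.{u}} (h : Pt x z) : z ≤ κ := by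
  rcases h with h | h
  · exact (x.stem_lt z h).le
  · exact h.le

theorem Pt.fmem {x : Cond S} {z : Ordinal.{u}} (h : Pt x z) : Fmem S z x.large := x.meas z h

theorem Pt.mem_of_lt {x : Cond S} {z : Ordinal.{u}} (h : Pt x z) (hz : z < κ) : z ∈ x.stem := by
  rcases h with h | h
  · exact h
  · exact absurd h hz.ne

theorem Pt.not_large {x : Cond S} {z : Ordinal.{u}} (h : Pt x z) : z ∉ x.large := by
  intro hz
  rcases h with h | h
  · exact x.disj z hz h
  · exact absurd h (x.large_lt z hz).ne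

theorem Pt.mono {x y : Cond S} {z : Ordinal.{u}} (h : y ≤ x) (hz : Pt x z) : Pt y z := by
  rcases hz with hz | hz
  · exact Or.inl (h.1 hz)
  · exact Or.inr hz

theorem pt_of_mem {x : Cond S} {z : Ordinal.{u}} (h : z ∈ x.stem) : Pt x z := Or.inl h

theorem pt_top (x : Cond S) : Pt x κ := Or.inr rfl

theorem Fmem.mono {γ : Ordinal.{u}} {X Y : Set Ordinal.{u}} (h : Fmem S γ X) (hXY : X ⊆ Y) :
    Fmem S γ Y := fun β hβ => mem_of_superset (h β hβ) hXY

theorem Fmem.inter {γ : Ordinal.{u}} {X Y : Set Ordinal.{u}} (h : Fmem S γ X) (h' : Fmem S γ Y) :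
    Fmem S γ (X ∩ Y) := fun β hβ => inter_mem (h β hβ) (h' β hβ)

theorem fmem_Iio {γ : Ordinal.{u}} (h : γ ≤ κ) : Fmem S γ (Iio γ) :=
  fun β hβ => (S.normal γ h β hβ).mem

theorem fmem_Ioi {γ a : Ordinal.{u}} (h : γ ≤ κ) (ha : a < γ) : Fmem S γ (Ioi a) :=
  fun β hβ => (S.normal γ h β hβ).tail a ha

/-- Two sets which agree on an interval `(a, γ)` belong to the same measures on `γ`. -/
theorem fmem_congr {γ a : Ordinal.{u}} {X Y : Set Ordinal.{u}} (h : γ ≤ κ) (ha : a < γ)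
    (hX : Fmem S γ X) (hXY : ∀ ξ, a < ξ → ξ < γ → ξ ∈ X → ξ ∈ Y) : Fmem S γ Y :=
  ((hX.inter (fmem_Iio h)).inter (fmem_Ioi h ha)).mono fun ξ hξ => hXY ξ hξ.2 hξ.1.2 hξ.1.1

/-- Two sets which agree below `γ` belong to the same measures on `γ`. -/
theorem fmem_congr' {γ : Ordinal.{u}} {X Y : Set Ordinal.{u}} (h : γ ≤ κ)
    (hX : Fmem S γ X) (hXY : ∀ ξ, ξ < γ → ξ ∈ X → ξ ∈ Y) : Fmem S γ Y :=
  (hX.inter (fmem_Iio h)).mono fun ξ hξ => hXY ξ hξ.2 hξ.1

theorem Lle.refl {x : Cond S} {z : Ordinal.{u}} (h : Pt x z) : Lle z x x :=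
  ⟨h, h, fun _ h _ => h, fun _ h _ => Or.inl h, fun _ h _ => h⟩

theorem Lle.trans {x y t : Cond S} {z : Ordinal.{u}} (h : Lle z t y) (h' : Lle z y x) :
    Lle z t x := by
  refine ⟨h.pty, h'.ptx, fun γ hγ hz => h.sub γ (h'.sub γ hγ hz) hz, fun γ hγ hz => ?_,
    fun ξ hξ hz => h'.lar ξ (h.lar ξ hξ hz) hz⟩
  rcases h.new γ hγ hz with hy | hy
  · exact h'.new γ hy hz
  · rcases hz.lt_or_eq with hz' | hz'
    · exact Or.inr (h'.lar γ hy hz')
    · subst hz'
      exact absurd hy h.ptx.not_large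

theorem Ule.refl {x : Cond S} {z : Ordinal.{u}} : Ule z x x :=
  ⟨fun _ h _ => h, fun _ h _ => Or.inl h, fun _ h _ => h⟩

theorem Ule.trans {x y t : Cond S} {z : Ordinal.{u}} (h : Ule z t y) (h' : Ule z y x) :
    Ule z t x := by
  refine ⟨fun γ hγ hz => h.sub γ (h'.sub γ hγ hz) hz, fun γ hγ hz => ?_,
    fun ξ hξ hz => h'.lar ξ (h.lar ξ hξ hz) hz⟩
  rcases h.new γ hγ hz with hy | hy
  · exact h'.new γ hy hz
  · exact Or.inr (h'.lar γ hy hz)

theorem lle_of_le {x y : Cond S} {z : Ordinal.{u}} (h : y ≤ x) (hz : Pt x z) : Lle z y x :=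
  ⟨hz.mono h, hz, fun _ hγ _ => h.1 hγ, fun γ hγ _ => h.2.2 γ hγ, fun _ hξ _ => h.2.1 hξ⟩

theorem ule_of_le {x y : Cond S} {z : Ordinal.{u}} (h : y ≤ x) : Ule z y x :=
  ⟨fun _ hγ _ => h.1 hγ, fun γ hγ _ => h.2.2 γ hγ, fun _ hξ _ => h.2.1 hξ⟩

theorem le_of_lle_ule {x y : Cond S} {z : Ordinal.{u}} (h : Lle z y x) (h' : Ule z y x) :
    y ≤ x := by
  refine ⟨fun γ hγ => ?_, fun ξ hξ => ?_, fun γ hγ => ?_⟩
  · rcases le_or_gt γ z with hz | hz
    · exact h.sub γ hγ hz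
    · exact h'.sub γ hγ hz
  · rcases lt_trichotomy ξ z with hz | hz | hz
    · exact h.lar ξ hξ hz
    · subst hz
      exact absurd hξ h.pty.not_large
    · exact h'.lar ξ hξ hz
  · rcases le_or_gt γ z with hz | hz
    · exact h.new γ hγ hz
    · exact h'.new γ hγ hz

theorem Lle.restrict {x y : Cond S} {z w : Ordinal.{u}} (h : Lle z y x) (hw : w ≤ z)
    (hx : Pt x w) : Lle w y x := by
  refine ⟨?_, hx, fun γ hγ hz => h.sub γ hγ (hz.trans hw), fun γ hγ hz => h.new γ hγ (hz.trans hw),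
    fun ξ hξ hz => h.lar ξ hξ (hz.trans_le hw)⟩
  rcases hx with hx | hx
  · exact Or.inl (h.sub w hx hw)
  · exact Or.inr hx

theorem Ule.mono {x y : Cond S} {z w : Ordinal.{u}} (h : Ule w y x) (hw : w ≤ z) : Ule z y x :=
  ⟨fun γ hγ hz => h.sub γ hγ (hw.trans_lt hz), fun γ hγ hz => h.new γ hγ (hw.trans_lt hz),
    fun ξ hξ hz => h.lar ξ hξ (hw.trans_lt hz)⟩

theorem NoPt.mono {x y : Cond S} {a ρ : Ordinal.{u}} (h : y ≤ x) (hx : NoPt x a ρ) :
    NoPt y a ρ := by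
  intro ξ h1 h2
  obtain ⟨h3, h4⟩ := hx ξ h1 h2
  exact ⟨fun h5 => (h.2.2 ξ h5).elim h3 h4, fun h5 => h4 (h.2.1 h5)⟩

theorem NoPt.le_of_mem {x : Cond S} {a ρ c : Ordinal.{u}} (hx : NoPt x a ρ) (hc : c ∈ x.stem)
    (h : c ≤ ρ) : c ≤ a := by
  by_contra hh
  exact (hx c (not_le.mp hh) h).1 hc

theorem NoPt.anti {x : Cond S} {a ρ ρ' : Ordinal.{u}} (hx : NoPt x a ρ) (h : ρ' ≤ ρ) :
    NoPt x a ρ' := fun ξ h1 h2 => hx ξ h1 (h2.trans h)

theorem noPt_self (x : Cond S) (a : Ordinal.{u}) : NoPt x a a :=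
  fun _ h1 h2 => absurd h1 (not_lt.mpr h2)

/-! ### Splicing two conditions -/

open Classical in
/-- The condition `x` up to `z`, and `q` above `z`. -/
noncomputable def splice (z : Ordinal.{u}) (x q : Cond S) (h : Pt x z) : Cond S where
  stem := x.stem.filter (fun γ => γ ≤ z) ∪ q.stem.filter (fun γ => z < γ)
  large := {ξ | (ξ ∈ x.large ∧ ξ < z) ∨ (ξ ∈ q.large ∧ z < ξ)}
  stem_lt := by
    intro γ hγ
    rw [Finset.mem_union, Finset.mem_filter, Finset.mem_filter] at hγ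
    rcases hγ with hγ | hγ
    · exact x.stem_lt γ hγ.1
    · exact q.stem_lt γ hγ.1
  large_lt := by
    rintro ξ (hξ | hξ)
    · exact x.large_lt ξ hξ.1
    · exact q.large_lt ξ hξ.1
  disj := by
    intro ξ hξ hγ
    rw [Finset.mem_union, Finset.mem_filter, Finset.mem_filter] at hγ
    rcases hγ with hγ | hγ
    · rcases hξ with hξ | hξ
      · exact x.disj ξ hξ.1 hγ.1
      · exact absurd hξ.2 (not_lt.mpr hγ.2)
    · rcases hξ with hξ | hξ
      · exact absurd hξ.2 (not_lt.mpr hγ.2.le)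
      · exact q.disj ξ hξ.1 hγ.1
  meas := by
    intro γ hγ
    rw [Finset.mem_union, Finset.mem_filter, Finset.mem_filter] at hγ
    have hκ : γ ≤ κ := by
      rcases hγ with (hγ | hγ) | hγ
      · exact (x.stem_lt γ hγ.1).le
      · exact (q.stem_lt γ hγ.1).le
      · exact hγ.le
    rcases le_or_gt γ z with hz | hz
    · have hx : Pt x γ := by
        rcases hγ with (hγ | hγ) | hγ
        · exact Or.inl hγ.1
        · exact absurd hγ.2 (not_lt.mpr hz)
        · exact Or.inr hγ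
      exact fmem_congr' hκ hx.fmem fun ξ h1 h2 => Or.inl ⟨h2, h1.trans_le hz⟩
    · have hx : Pt q γ := by
        rcases hγ with (hγ | hγ) | hγ
        · exact absurd hγ.2 (not_le.mpr hz)
        · exact Or.inl hγ.1
        · exact Or.inr hγ
      exact fmem_congr hκ hz hx.fmem fun ξ h1 h2 h3 => Or.inr ⟨h3, h1⟩
  zero := by
    intro γ hγ h0 ξ hξ hlt
    rw [Finset.mem_union, Finset.mem_filter, Finset.mem_filter] at hγ
    rcases le_or_gt γ z with hz | hz
    · have hx : Pt x γ := by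
        rcases hγ with (hγ | hγ) | hγ
        · exact Or.inl hγ.1
        · exact absurd hγ.2 (not_lt.mpr hz)
        · exact Or.inr hγ
      have hξ' : ξ ∈ x.large := by
        rcases hξ with hξ | hξ
        · exact hξ.1
        · exact absurd (hlt.trans_le hz) (not_lt.mpr hξ.2.le)
      obtain ⟨δ, h1, h2, h3⟩ := x.zero γ hx h0 ξ hξ' hlt
      refine ⟨δ, ?_, h2, h3⟩
      rw [Finset.mem_union, Finset.mem_filter]
      exact Or.inl ⟨h1, h3.le.trans hz⟩
    · have hx : Pt q γ := by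
        rcases hγ with (hγ | hγ) | hγ
        · exact absurd hγ.2 (not_le.mpr hz)
        · exact Or.inl hγ.1
        · exact Or.inr hγ
      have hzk : z ∈ x.stem := by
        rcases h with h | h
        · exact h
        · exact absurd (h ▸ hz) (not_lt.mpr (hx.le))
      rcases hξ with hξ | hξ
      · refine ⟨z, ?_, hξ.2, hz⟩
        rw [Finset.mem_union, Finset.mem_filter]
        exact Or.inl ⟨hzk, le_rfl⟩
      · obtain ⟨δ, h1, h2, h3⟩ := q.zero γ hx h0 ξ hξ.1 hlt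
        refine ⟨δ, ?_, h2, h3⟩
        rw [Finset.mem_union, Finset.mem_filter, Finset.mem_filter]
        exact Or.inr ⟨h1, hξ.2.trans h2⟩

theorem mem_splice_stem {z : Ordinal.{u}} {x q : Cond S} {h : Pt x z} {γ : Ordinal.{u}} :
    γ ∈ (splice z x q h).stem ↔ (γ ∈ x.stem ∧ γ ≤ z) ∨ (γ ∈ q.stem ∧ z < γ) := by
  unfold splice
  simp only [Finset.mem_union, Finset.mem_filter]

theorem mem_splice_large {z : Ordinal.{u}} {x q : Cond S} {h : Pt x z} {ξ : Ordinal.{u}} :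
    ξ ∈ (splice z x q h).large ↔ (ξ ∈ x.large ∧ ξ < z) ∨ (ξ ∈ q.large ∧ z < ξ) := Iff.rfl

theorem pt_splice {z : Ordinal.{u}} {x q : Cond S} {h : Pt x z} : Pt (splice z x q h) z := by
  rcases h with h' | h'
  · exact Or.inl (mem_splice_stem.mpr (Or.inl ⟨h', le_rfl⟩))
  · exact Or.inr h'

theorem splice_lle {z : Ordinal.{u}} {x q : Cond S} {h : Pt x z} : Lle z (splice z x q h) x := by
  refine ⟨pt_splice, h, fun γ hγ hz => mem_splice_stem.mpr (Or.inl ⟨hγ, hz⟩), fun γ hγ hz => ?_,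
    fun ξ hξ hz => ?_⟩
  · rcases mem_splice_stem.mp hγ with h1 | h1
    · exact Or.inl h1.1
    · exact absurd h1.2 (not_lt.mpr hz)
  · rcases hξ with h1 | h1
    · exact h1.1
    · exact absurd h1.2 (not_lt.mpr hz.le)

theorem lle_splice {z : Ordinal.{u}} {x q : Cond S} {h : Pt x z} : Lle z x (splice z x q h) := by
  refine ⟨h, pt_splice, fun γ hγ hz => ?_, fun γ hγ hz => Or.inl (mem_splice_stem.mpr
    (Or.inl ⟨hγ, hz⟩)), fun ξ hξ hz => Or.inl ⟨hξ, hz⟩⟩
  rcases mem_splice_stem.mp hγ with h1 | h1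
  · exact h1.1
  · exact absurd h1.2 (not_lt.mpr hz)

theorem splice_ule {z : Ordinal.{u}} {x q : Cond S} {h : Pt x z} : Ule z (splice z x q h) q := by
  refine ⟨fun γ hγ hz => mem_splice_stem.mpr (Or.inr ⟨hγ, hz⟩), fun γ hγ hz => ?_,
    fun ξ hξ hz => ?_⟩
  · rcases mem_splice_stem.mp hγ with h1 | h1
    · exact absurd h1.2 (not_le.mpr hz)
    · exact Or.inl h1.1
  · rcases hξ with h1 | h1
    · exact absurd h1.2 (not_lt.mpr hz.le)
    · exact h1.1

theorem ule_splice {z : Ordinal.{u}} {x q : Cond S} {h : Pt x z} : Ule z q (splice z x q h) := by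
  refine ⟨fun γ hγ hz => ?_, fun γ hγ hz => Or.inl (mem_splice_stem.mpr (Or.inr ⟨hγ, hz⟩)),
    fun ξ hξ hz => Or.inr ⟨hξ, hz⟩⟩
  rcases mem_splice_stem.mp hγ with h1 | h1
  · exact absurd h1.2 (not_le.mpr hz)
  · exact h1.1

theorem splice_le {z : Ordinal.{u}} {x q t : Cond S} {h : Pt x z} (h1 : Lle z x t)
    (h2 : Ule z q t) : splice z x q h ≤ t :=
  le_of_lle_ule (splice_lle.trans h1) (splice_ule.trans h2)

theorem splice_le_right {z : Ordinal.{u}} {x q : Cond S} {h : Pt x z} (h1 : Lle z x q) :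
    splice z x q h ≤ q := splice_le h1 Ule.refl

theorem le_splice {z : Ordinal.{u}} {x q t : Cond S} {h : Pt x z} (h1 : Lle z t x)
    (h2 : Ule z t q) : t ≤ splice z x q h :=
  le_of_lle_ule (h1.trans lle_splice) (h2.trans ule_splice)

/-! ### Shrinking the large set -/

/-- Shrink the large set of `x` to its intersection with `X`. -/
def restr (x : Cond S) (X : Set Ordinal.{u}) (h : ∀ γ, Pt x γ → Fmem S γ X) : Cond S where
  stem := x.stem
  large := x.large ∩ X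
  stem_lt := x.stem_lt
  large_lt := fun ξ hξ => x.large_lt ξ hξ.1
  disj := fun ξ hξ => x.disj ξ hξ.1
  meas := fun γ hγ β hβ => inter_mem (x.meas γ hγ β hβ) (h γ hγ β hβ)
  zero := fun γ hγ h0 ξ hξ hlt => x.zero γ hγ h0 ξ hξ.1 hlt

theorem restr_le {x : Cond S} {X : Set Ordinal.{u}} {h : ∀ γ, Pt x γ → Fmem S γ X} :
    restr x X h ≤ x := ⟨fun _ h => h, fun _ h => h.1, fun _ h => Or.inl h⟩

theorem restr_stem {x : Cond S} {X : Set Ordinal.{u}} {h : ∀ γ, Pt x γ → Fmem S γ X} :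
    (restr x X h).stem = x.stem := rfl

theorem restr_large {x : Cond S} {X : Set Ordinal.{u}} {h : ∀ γ, Pt x γ → Fmem S γ X} :
    (restr x X h).large = x.large ∩ X := rfl

/-! ### Adding a point to the stem -/

/-- Add a point `ξ` of the large set of `x` to the stem. -/
noncomputable def addPt (x : Cond S) (ξ : Ordinal.{u}) (h : ξ ∈ x.large)
    (hF : Fmem S ξ x.large) : Cond S where
  stem := insert ξ x.stem
  large := {η | η ∈ x.large ∧ η ≠ ξ ∧ (S.o ξ = 0 → η < ξ → ∃ δ ∈ x.stem, η < δ ∧ δ < ξ)}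
  stem_lt := by
    intro γ hγ
    rcases Finset.mem_insert.mp hγ with hγ | hγ
    · rw [hγ]; exact x.large_lt ξ h
    · exact x.stem_lt γ hγ
  large_lt := fun η hη => x.large_lt η hη.1
  disj := by
    intro η hη hγ
    rcases Finset.mem_insert.mp hγ with hγ | hγ
    · exact hη.2.1 hγ
    · exact x.disj η hη.1 hγ
  meas := by
    intro γ hγ
    have hξk : ξ < κ := x.large_lt ξ h
    rcases lt_trichotomy γ ξ with hlt | heq | hgt
    · have hx : Pt x γ := by
        rcases hγ with hγ | hγ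
        · rcases Finset.mem_insert.mp hγ with hγ | hγ
          · exact absurd hγ hlt.ne
          · exact Or.inl hγ
        · exact Or.inr hγ
      have hγs : γ ∈ x.stem := hx.mem_of_lt (hlt.trans hξk)
      exact fmem_congr' (hlt.trans hξk).le hx.fmem fun η h1 h2 =>
        ⟨h2, (h1.trans hlt).ne, fun _ _ => ⟨γ, hγs, h1, hlt⟩⟩
    · subst heq
      by_cases h0 : S.o γ = 0
      · intro β hβ
        rw [h0] at hβ
        exact absurd hβ (not_lt.mpr (zero_le))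
      · exact fmem_congr' hξk.le hF fun η h1 h2 => ⟨h2, h1.ne, fun h3 => absurd h3 h0⟩
    · have hx : Pt x γ := by
        rcases hγ with hγ | hγ
        · rcases Finset.mem_insert.mp hγ with hγ | hγ
          · exact absurd hγ hgt.ne'
          · exact Or.inl hγ
        · exact Or.inr hγ
      exact fmem_congr hx.le hgt hx.fmem fun η h1 _ h3 =>
        ⟨h3, h1.ne', fun _ h4 => absurd h4 (not_lt.mpr h1.le)⟩
  zero := by
    intro γ hγ h0 η hη hlt
    by_cases hξ : γ = ξ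
    · subst hξ
      obtain ⟨δ, h1, h2⟩ := hη.2.2 h0 hlt
      exact ⟨δ, Finset.mem_insert_of_mem h1, h2⟩
    · have hx : Pt x γ := by
        rcases hγ with hγ | hγ
        · rcases Finset.mem_insert.mp hγ with hγ | hγ
          · exact absurd hγ hξ
          · exact Or.inl hγ
        · exact Or.inr hγ
      obtain ⟨δ, h1, h2⟩ := x.zero γ hx h0 η hη.1 hlt
      exact ⟨δ, Finset.mem_insert_of_mem h1, h2⟩

theorem addPt_le {x : Cond S} {ξ : Ordinal.{u}} {h : ξ ∈ x.large} {hF : Fmem S ξ x.large} :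
    addPt x ξ h hF ≤ x := by
  refine ⟨Finset.subset_insert _ _, fun η hη => hη.1, fun γ hγ => ?_⟩
  rcases Finset.mem_insert.mp hγ with hγ | hγ
  · exact Or.inr (hγ ▸ h)
  · exact Or.inl hγ

theorem addPt_mem {x : Cond S} {ξ : Ordinal.{u}} {h : ξ ∈ x.large} {hF : Fmem S ξ x.large} :
    ξ ∈ (addPt x ξ h hF).stem := Finset.mem_insert_self _ _

theorem mem_addPt_stem {x : Cond S} {ξ γ : Ordinal.{u}} {h : ξ ∈ x.large}
    {hF : Fmem S ξ x.large} : γ ∈ (addPt x ξ h hF).stem ↔ γ = ξ ∨ γ ∈ x.stem :=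
  Finset.mem_insert

/-! ### Pure extensions of a fixed condition, and forcing by lower parts -/

/-- `q` is a pure (direct) extension of `p0`. -/
def IsPure (p0 q : Cond S) : Prop := q ≤ p0 ∧ q.stem = p0.stem

theorem isPure_refl (p0 : Cond S) : IsPure p0 p0 := ⟨le_rfl, rfl⟩

theorem IsPure.pt {p0 q : Cond S} (h : IsPure p0 q) {γ : Ordinal.{u}} : Pt q γ ↔ Pt p0 γ := by
  unfold Pt
  rw [h.2]

/-- Two pure extensions have a common pure extension. -/
theorem IsPure.inf {p0 q q' : Cond S} (h : IsPure p0 q) (h' : IsPure p0 q') :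
    ∃ t, IsPure p0 t ∧ t ≤ q ∧ t ≤ q' := by
  have hF : ∀ γ, Pt q γ → Fmem S γ q'.large := fun γ hγ => (h'.pt.mpr (h.pt.mp hγ)).fmem
  have hle : restr q q'.large hF ≤ q' := by
    rw [Cond.le_def]
    refine ⟨?_, fun ξ hξ => hξ.2, fun ξ hξ => ?_⟩
    · rw [restr_stem, h.2, h'.2]
    · rw [restr_stem, h.2, ← h'.2] at hξ
      exact Or.inl hξ
  exact ⟨restr q q'.large hF, ⟨restr_le.trans h.1, h.2⟩, restr_le, hle⟩

/-- Shrinking the large set of a pure extension. -/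
theorem IsPure.restr_ex {p0 q : Cond S} (h : IsPure p0 q) {X : Set Ordinal.{u}}
    (hX : ∀ γ, Pt p0 γ → Fmem S γ X) : ∃ t, IsPure p0 t ∧ t ≤ q ∧ t.large = q.large ∩ X :=
  ⟨restr q X fun γ hγ => hX γ (h.pt.mp hγ), ⟨restr_le.trans h.1, h.2⟩, restr_le, rfl⟩

/-- The lower part of `x` at `z`, together with the upper part of some pure extension of `p0`,
forces `b`. -/
def PF (p0 : Cond S) (z : Ordinal.{u}) (x : Cond S) (b : RO (Cond S)) : Prop :=
  ∃ q, IsPure p0 q ∧ ∀ t, Lle z t x → Ule z t q → t ∈ b.carrier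

theorem PF.mono {p0 x y : Cond S} {z : Ordinal.{u}} {b : RO (Cond S)} (h : PF p0 z x b)
    (hy : Lle z y x) : PF p0 z y b := by
  obtain ⟨q, hq, H⟩ := h
  exact ⟨q, hq, fun t ht hu => H t (ht.trans hy) hu⟩

theorem PF.le {p0 x y : Cond S} {z : Ordinal.{u}} {b : RO (Cond S)} (h : PF p0 z x b)
    (hx : Pt x z) (hy : y ≤ x) : PF p0 z y b := h.mono (lle_of_le hy hx)

theorem PF.carrier_mono {p0 x : Cond S} {z : Ordinal.{u}} {b b' : RO (Cond S)} (h : PF p0 z x b)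
    (hb : b.carrier ⊆ b'.carrier) : PF p0 z x b' := by
  obtain ⟨q, hq, H⟩ := h
  exact ⟨q, hq, fun t ht hu => hb (H t ht hu)⟩

theorem PF.not_both {p0 x : Cond S} {z : Ordinal.{u}} {b : RO (Cond S)} (hx : Pt x z)
    (h : PF p0 z x b) (h' : PF p0 z x b.neg) : False := by
  obtain ⟨q, hq, H⟩ := h
  obtain ⟨q', hq', H'⟩ := h'
  obtain ⟨t, _, h1, h2⟩ := hq.inf hq'
  have hs : Lle z (splice z x t hx) x := splice_lle
  have hb := H _ hs (splice_ule.trans (ule_of_le h1))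
  have hb' := H' _ hs (splice_ule.trans (ule_of_le h2))
  exact hb' _ le_rfl hb

/-- `δ` is the next point of `p0` above `w`. -/
structure Gap (p0 : Cond S) (w δ : Ordinal.{u}) : Prop where
  lt : w < δ
  pt : Pt p0 δ
  none : ∀ γ ∈ p0.stem, ¬ (w < γ ∧ γ < δ)

/-- The base conditions: nonempty stem, and the least element of the stem has order zero. -/
structure IsBase (p0 : Cond S) (m : Ordinal.{u}) : Prop where
  mem : m ∈ p0.stem
  zero : S.o m = 0
  min : ∀ γ ∈ p0.stem, m ≤ γ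

/-- The set of the points `ξ` such that some one-point extension at `ξ` of the lower part of `y` at
`w` forces `b`. -/
def TSet (p0 y : Cond S) (w : Ordinal.{u}) (b : RO (Cond S)) : Set Ordinal.{u} :=
  {ξ | w < ξ ∧ ∃ y' ≤ p0, Lle w y y' ∧ ξ ∈ y'.stem ∧ (∀ γ ∈ y'.stem, ¬ (w < γ ∧ γ < ξ)) ∧
    PF p0 ξ y' b}

/-- `D` separates `p` and `q`. -/
def Sep {P : Type v} [Preorder P] (D : Set (RO P)) (p q : P) : Prop :=
  ∃ b ∈ D, p ∈ b.carrier ∧ q ∈ b.neg.carrier

/-- `D` separates the lower part of `x` at `z` from the lower part of `y` at `z'`. -/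
def SS (D : Set (RO (Cond S))) (p0 : Cond S) (z z' : Ordinal.{u}) (x y : Cond S) : Prop :=
  ∃ b ∈ D, PF p0 z x b ∧ PF p0 z' y b.neg

/-- The points `z < γ` of `x` have the same `D`-information, in all extensions of `x`. -/
structure Stat (D : Set (RO (Cond S))) (p0 x : Cond S) (γ z : Ordinal.{u}) : Prop where
  memγ : γ ∈ x.stem
  memz : z ∈ x.stem
  lt : z < γ
  none : ∀ δ ∈ p0.stem, ¬ (z < δ ∧ δ ≤ γ)
  ns : ∀ x' ≤ x, ¬ SS D p0 γ z x' x'

/-- `γ` is a visible point of `x`. -/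
structure New (D : Set (RO (Cond S))) (p0 x : Cond S) (γ : Ordinal.{u}) : Prop where
  mem : γ ∈ x.stem
  notMem : γ ∉ p0.stem
  ns : ∀ x' ≤ x, ∀ z, ¬ Stat D p0 x' γ z

/-- The Boolean value of: `γ` is visible. -/
def jv (D : Set (RO (Cond S))) (p0 : Cond S) (γ : Ordinal.{u}) : RO (Cond S) where
  carrier := {p | ∀ q ≤ p, ∃ t ≤ q, New D p0 t γ}
  down := fun p hp q hq t ht => hp t (le_trans ht hq)
  reg := fun p hp q hq => by
    obtain ⟨t, ht, htb⟩ := hp q hq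
    obtain ⟨s, hs, hsb⟩ := htb t le_rfl
    exact ⟨s, le_trans hs ht, hsb⟩

/-- The set of the points `γ` at which some one-point extensions of the lower parts of `x` at `z`
and of `y` at `z'` are visible and separated. -/
def YSet (D : Set (RO (Cond S))) (p0 q1 x y : Cond S) (z z' : Ordinal.{u}) : Set Ordinal.{u} :=
  {γ | z < γ ∧ z' < γ ∧ ∃ x' ≤ q1, ∃ y' ≤ q1, Lle z x x' ∧ Lle z' y y' ∧
    γ ∈ x'.stem ∧ γ ∈ y'.stem ∧ (∀ δ ∈ x'.stem, ¬ (z < δ ∧ δ < γ)) ∧
    (∀ δ ∈ y'.stem, ¬ (z' < δ ∧ δ < γ)) ∧ New D p0 x' γ ∧ New D p0 y' γ ∧ SS D p0 γ γ x' y'}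

end MR3098
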