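import Mathlib

/-!
# Magidor-Radin forcing over a coherent sequence of normal measures (statement file)

Everything takes place in a fixed universe, which plays the role of the ground model `V`.
-/

open Set Filter

namespace MR3098

universe u v w

/-- `W` is a normal measure on the ordinal `α`: an ultrafilter on the ordinals which concentrates on
`α`, contains every final segment of `α`, is `α`-complete and is closed under diagonal
intersections of length `α`. -/
structure IsNormalMeasure (α : Ordinal.{u}) (W : Ultrafilter Ordinal.{u}) : Prop where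
  mem : Iio α ∈ W
  tail : ∀ β < α, Ioi β ∈ W
  complete : ∀ β < α, ∀ X : Ordinal.{u} → Set Ordinal.{u}, (∀ ξ < β, X ξ ∈ W) →
    {η | ∀ ξ < β, η ∈ X ξ} ∈ W
  diag : ∀ X : Ordinal.{u} → Set Ordinal.{u}, (∀ ξ < α, X ξ ∈ W) →
    {η | ∀ ξ < η, η ∈ X ξ} ∈ W

/-- `f` represents an element of `j(o)(α)` in the ultrapower by `W`: `f ξ < o ξ` for almost all
`ξ`. -/
def Below (W : Ultrafilter Ordinal.{u}) (o f : Ordinal.{u} → Ordinal.{u}) : Prop :=
  ∀ᶠ ξ in (W : Filter Ordinal.{u}), f ξ < o ξ

/-- A coherent sequence `⟨U(α,β) : α ≤ κ, β < o(α)⟩` of normal measures.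

Coherence: let `j` be the ultrapower embedding by the normal measure `W = U(α,β)`.  The function
`ξ ↦ U(ξ,·)` represents the sequence of measures on `α` in `j(U)`, and `ξ ↦ o(ξ)` represents its
length.  The map `r` is the transitive collapse of the ordinals below `[o]` of the ultrapower; the
conditions say that this length is `β` and that, for `f` with `r f = δ < β`, the measure
`j(U)(α,δ)`, represented by `ξ ↦ U(ξ, f ξ)`, is `U(α,δ)`. -/
structure CoherentSeq (κ : Ordinal.{u}) where
  o : Ordinal.{u} → Ordinal.{u}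
  U : Ordinal.{u} → Ordinal.{u} → Ultrafilter Ordinal.{u}
  normal : ∀ α ≤ κ, ∀ β < o α, IsNormalMeasure α (U α β)
  coherent : ∀ α ≤ κ, ∀ β < o α, ∃ r : (Ordinal.{u} → Ordinal.{u}) → Ordinal.{u},
    (∀ f g, Below (U α β) o f → Below (U α β) o g →
      (r f < r g ↔ ∀ᶠ ξ in (U α β : Filter Ordinal.{u}), f ξ < g ξ)) ∧
    (∀ f, Below (U α β) o f → r f < β) ∧
    (∀ δ < β, ∃ f, Below (U α β) o f ∧ r f = δ) ∧
    (∀ f, Below (U α β) o f → ∀ X : Set Ordinal.{u},
      X ∈ U α (r f) ↔ ∀ᶠ ξ in (U α β : Filter Ordinal.{u}), X ∩ Iio ξ ∈ U ξ (f ξ))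

/-- Conditions of the Magidor-Radin forcing.  The usual condition
`⟨t_1, …, t_n, ⟨κ, B⟩⟩`, with `t_i = κ_i` if `o(κ_i) = 0` and `t_i = ⟨κ_i, B_i⟩` otherwise,
`κ_1 < … < κ_n < κ`, `B_i ∈ ⋂_{β < o(κ_i)} U(κ_i,β)`, `min B_i > κ_{i-1}`, is stored as the finite
set `stem = {κ_1, …, κ_n}` and the set `large = B_1 ∪ … ∪ B_n ∪ B`; so `B_i` is the part of
`large` between `κ_{i-1}` and `κ_i` (the measures contain all final segments). -/
structure Cond {κ : Ordinal.{u}} (S : CoherentSeq κ) where
  stem : Finset Ordinal.{u}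
  large : Set Ordinal.{u}
  stem_lt : ∀ γ ∈ stem, γ < κ
  large_lt : ∀ ξ ∈ large, ξ < κ
  disj : ∀ ξ ∈ large, ξ ∉ stem
  meas : ∀ γ, (γ ∈ stem ∨ γ = κ) → ∀ β < S.o γ, large ∈ S.U γ β
  zero : ∀ γ, (γ ∈ stem ∨ γ = κ) → S.o γ = 0 → ∀ ξ ∈ large, ξ < γ → ∃ δ ∈ stem, ξ < δ ∧ δ < γ

/-- `q ≤ p`: the condition `q` is stronger than `p`.  The new points of the stem come from the large
sets of `p`, and the large sets shrink. -/
instance {κ : Ordinal.{u}} (S : CoherentSeq κ) : Preorder (Cond S) where
  le q p := p.stem ⊆ q.stem ∧ q.large ⊆ p.large ∧ ∀ ξ ∈ q.stem, ξ ∈ p.stem ∨ ξ ∈ p.large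
  le_refl p := ⟨fun _ h => h, fun _ h => h, fun _ h => Or.inl h⟩
  le_trans p q r h1 h2 := ⟨fun _ h => h1.1 (h2.1 h), fun _ h => h2.2.1 (h1.2.1 h), fun ξ hξ => by
    rcases h1.2.2 ξ hξ with h | h
    · exact h2.2.2 ξ h
    · exact Or.inr (h2.2.1 h)⟩

/-- The elements of the Boolean completion of a forcing notion: its regular open subsets. -/
structure RO (P : Type v) [Preorder P] where
  carrier : Set P
  down : ∀ p ∈ carrier, ∀ q ≤ p, q ∈ carrier
  reg : ∀ p, (∀ q ≤ p, ∃ r ≤ q, r ∈ carrier) → p ∈ carrier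

/-- The complement in the Boolean completion. -/
def RO.neg {P : Type v} [Preorder P] (b : RO P) : RO P where
  carrier := {p | ∀ q ≤ p, q ∉ b.carrier}
  down := fun p hp q hq r hr => hp r (le_trans hr hq)
  reg := fun p hp q hq hqb => by
    obtain ⟨r, hr, hrb⟩ := hp q hq
    exact hrb r le_rfl (b.down q hqb r hr)

/-- The infimum of an arbitrary set in the Boolean completion. -/
def RO.inf {P : Type v} [Preorder P] (s : Set (RO P)) : RO P where
  carrier := {p | ∀ b ∈ s, p ∈ b.carrier}
  down := fun p hp q hq b hb => b.down p (hp b hb) q hq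
  reg := fun p hp b hb => b.reg p fun q hq => by
    obtain ⟨r, hr, hrb⟩ := hp q hq
    exact ⟨r, hr, hrb b hb⟩

/-- A set of regular open sets is a complete subalgebra of the Boolean completion: closed under
complements and arbitrary infima (hence suprema). -/
def IsCSub {P : Type v} [Preorder P] (D : Set (RO P)) : Prop :=
  (∀ b ∈ D, b.neg ∈ D) ∧ ∀ s ⊆ D, RO.inf s ∈ D

/-- The complete subalgebra generated by a set. -/
def Gen {P : Type v} [Preorder P] (A : Set (RO P)) : Set (RO P) :=
  {b | ∀ D, IsCSub D → A ⊆ D → b ∈ D}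

/-- A name for a subset of a set `I` (for instance of an ordinal) is a function `a : I → RO P`; it
denotes the set `A` of all `i` such that `a i` meets the generic filter.  `Computes q c a` says
that the condition `q` forces `A ∈ V[C']`, where `c` is a name for `C'`: below `q`, every Boolean
value of `A` lies in the complete subalgebra generated by the Boolean values of `C'`. -/
def Computes {P : Type v} [Preorder P] {I J : Type*} (q : P) (c : J → RO P) (a : I → RO P) :
    Prop :=
  ∀ i, ∃ e ∈ Gen (range c), ∀ p ≤ q, (p ∈ (a i).carrier ↔ p ∈ e.carrier)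

/-- The Boolean value of `γ ∈ C_G`, where `C_G` is the Magidor-Radin club, that is, the union of
the stems of the conditions in the generic filter `G`. -/
def inClub {κ : Ordinal.{u}} (S : CoherentSeq κ) (γ : Ordinal.{u}) : RO (Cond S) where
  carrier := {p | ∀ q ≤ p, ∃ r ≤ q, γ ∈ r.stem}
  down := fun p hp q hq r hr => hp r (le_trans hr hq)
  reg := fun p hp q hq => by
    obtain ⟨r, hr, hrb⟩ := hp q hq
    obtain ⟨s, hs, hsb⟩ := hrb r le_rfl
    exact ⟨s, le_trans hs hr, hsb⟩

end MR3098
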