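import Pool.Agent.Work.MP_3098b6_lc.DescLt

/-!
MODULE Desc (size M, about 80 lines; this file: desc; DescLt is a separate module): descent to the last visible point.

* Extend `p` (`ext_left` for `J`, `last_visible`): `p' ≤ p` and `γ ∈ p'.stem`, `γ ≤ a`, no point of `p0.stem` in
  `(γ, a]`, (`γ ∈ p0.stem` or `New D p0 p' γ`), (`γ = a` or `Stat D p0 p' a γ`).  Similarly `q'`, `γ'` for `q`, `a'`
  (`ext_right`).  Let `b` be the witness of `SS D p0 a a' p q`.  Extend `p'` so that `b` is decided at `γ` (`pp`):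
  `PF p0 γ p' b.neg` is impossible (if `γ = a` by `PF.not_both`, otherwise it gives `SS D p0 a γ p' p'`), so
  `PF p0 γ p' b`.  Similarly `PF p0 γ' q' b.neg`.  So `SS D p0 γ γ' p' q'`.
* `desc_lt`: `γ < γ'` is impossible.  If `γ' ∈ p0.stem` then `γ' ∈ p'.stem`, `γ' ≤ ρ`, so `γ' ≤ a` (`NoPt p' a ρ`),
  against the absence of points of `p0.stem` in `(γ, a]`.  Otherwise `New D p0 q' γ'`, so `q' ∈ jv D p0 γ' ∈ J`.
  As `Sep J p' q'` fails, `p' ∉ (jv D p0 γ').neg` (else `(jv D p0 γ').neg ∈ J` separates, use `neg_neg'`), so some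
  `t ≤ p'` has `New D p0 t γ'`.  `NoPt t a ρ` gives `γ' ≤ a`.  So `γ < a` and `Stat D p0 t a γ`; if `γ' = a` this is
  `Stat D p0 t γ' γ`, otherwise `conv` gives `Stat D p0 t γ' γ`: against `New D p0 t γ'`.
* By symmetry `γ' < γ` is impossible (apply `desc_lt` with `p', q'` exchanged, `sep_symm`), so `γ = γ'`.
-/

open Set Filter

namespace MR3098

universe u

variable {κ : Ordinal.{u}} {S : CoherentSeq κ} {D J : Set (RO (Cond S))} {p0 q1 : Cond S}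

/-- Extension to the last visible point, on the left. -/
private theorem desc_left (hJ : IsCSub J) {p q : Cond S} {a : Ordinal.{u}} (hp : p ≤ p0)
    (hns : ¬ Sep J p q) (ha : a ∈ p.stem) (b : RO (Cond S)) (hbD : b ∈ D)
    (hb : PF p0 a p b) :
    ∃ p' ≤ p, ∃ γ ∈ p'.stem, γ ≤ a ∧ (∀ δ ∈ p0.stem, ¬ (γ < δ ∧ δ ≤ a)) ∧
      (γ ∈ p0.stem ∨ New D p0 p' γ) ∧ (γ = a ∨ Stat D p0 p' a γ) ∧ ¬ Sep J p' q ∧
      PF p0 γ p' b := by
  obtain ⟨p1, hp1, ⟨γ, hγ, h1, h2, h3, h4⟩, hns1⟩ := ext_left hJ hns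
    {p' | ∃ γ ∈ p'.stem, γ ≤ a ∧ (∀ δ ∈ p0.stem, ¬ (γ < δ ∧ δ ≤ a)) ∧
      (γ ∈ p0.stem ∨ New D p0 p' γ) ∧ (γ = a ∨ Stat D p0 p' a γ)} (by
      intro p' hp'
      obtain ⟨x', hx', γ, hγ, h1, h2, h3, h4⟩ := last_visible (D := D) (hp'.trans hp) (hp'.1 ha)
      exact ⟨x', hx', γ, hγ, h1, h2, h3, h4⟩)
  obtain ⟨p2, hp2, hdec, hns2⟩ := ext_left hJ hns1
    {p' | PF p0 γ p' b ∨ PF p0 γ p' b.neg} (by
      intro p' hp'
      exact pp b ((hp'.trans hp1).trans hp) (Or.inl (hp'.1 hγ)))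
  have hst : γ = a ∨ Stat D p0 p2 a γ := h4.imp id fun h => stat_mono h hp2
  have hpa : PF p0 a p2 b := hb.le (Or.inl ha) (hp2.trans hp1)
  refine ⟨p2, hp2.trans hp1, γ, hp2.1 hγ, h1, h2, h3.imp id fun h => new_mono h hp2, hst,
    hns2, ?_⟩
  rcases hdec with h | h
  · exact h
  · exfalso
    rcases hst with h5 | h5
    · subst h5
      exact PF.not_both (Or.inl (hp2.1 hγ)) hpa h
    · exact h5.ns p2 le_rfl ⟨b, hbD, hpa, h⟩

theorem desc (hD : IsCSub D) (hJ : IsCSub J) (hjJ : ∀ γ, jv D p0 γ ∈ J) (h1 : GoodOne D p0 q1)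
    {p q : Cond S} {a a' ρ : Ordinal.{u}} (hp : p ≤ q1) (hq : q ≤ q1) (hns : ¬ Sep J p q)
    (ha : a ∈ p.stem) (ha' : a' ∈ q.stem) (haρ : a ≤ ρ) (ha'ρ : a' ≤ ρ)
    (hnp : NoPt p a ρ) (hnq : NoPt q a' ρ) (h : SS D p0 a a' p q) :
    ∃ p' ≤ p, ∃ q' ≤ q, ∃ γ ≤ ρ, ¬ Sep J p' q' ∧ γ ∈ p'.stem ∧ γ ∈ q'.stem ∧
      (γ ∈ p0.stem ∨ (New D p0 p' γ ∧ New D p0 q' γ)) ∧ SS D p0 γ γ p' q' := by
  obtain ⟨b, hbD, hb1, hb2⟩ := h
  obtain ⟨p', hp', γ, hγ, h2, h3, h4, h5, hns1, h6⟩ :=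
    desc_left hJ (hp.trans h1.1.1) hns ha b hbD hb1
  have hns1' : ¬ Sep J q p' := fun h => hns1 (sep_symm hJ h)
  obtain ⟨q', hq', γ', hγ', h2', h3', h4', h5', hns2, h6'⟩ :=
    desc_left hJ (hq.trans h1.1.1) hns1' ha' b.neg (hD.1 _ hbD) hb2
  have hns2' : ¬ Sep J p' q' := fun h => hns2 (sep_symm hJ h)
  have heq : γ = γ' := by
    rcases lt_trichotomy γ γ' with hlt | heq | hlt
    · exact (desc_lt hJ hjJ h1 (hp'.trans hp) (hq'.trans hq) hns2' (hnp.mono hp') h3 h5 h4'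
        (h2'.trans ha'ρ) hlt).elim
    · exact heq
    · exact (desc_lt hJ hjJ h1 (hq'.trans hq) (hp'.trans hp) hns2 (hnq.mono hq') h3' h5' h4
        (h2.trans haρ) hlt).elim
  subst heq
  refine ⟨p', hp', q', hq', γ, h2.trans haρ, hns2', hγ, hγ', ?_, b, hbD, h6, h6'⟩
  rcases h4 with h4 | h4
  · exact Or.inl h4
  · rcases h4' with h4' | h4'
    · exact Or.inl h4'
    · exact Or.inr ⟨h4, h4'⟩

end MR3098
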