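import Pool.Agent.Work.MP_3098b6_lc.GoodC

/-!
MODULE DescLt (size S, about 40 lines; this file: desc_lt; Desc is a separate module): descent to the last visible point.

* Extend `p` (`ext_left` for `J`, `last_visible`): `p' ≤ p` and `γ ∈ p'.stem`, `γ ≤ a`, no point of `p0.stem` in
  `(γ, a]`, (`γ ∈ p0.stem` or `New D p0 p' γ`), (`γ = a` or `Stat D p0 p' a γ`).  Similarly `q'`, `γ'` for `q`, `a'`
  (`ext_right`).  Let `b` be the witness of `SS D p0 a a' p q`.  Extend `p'` so that `b` is decided at `γ` (`pp`):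
  `PF p0 γ p' b.neg` is impossible (if `γ = a` by `PF.not_both`, otherwise it gives `SS D p0 a γ p' p'`), so
  `PF p0 γ p' b`.  Similarly `PF p0 γ' q' b.neg`.  So `SS D p0 γ γ' p' q'`.
* `desc_lt`: `γ < γ'` is impossible.  If `γ' ∈ p0.stem` then `γ' ∈ p'.stem`, `γ' ≤ ρ`, so `γ' ≤ a` (`NoPt p' a ρ`),
  against the absence of points of `p0.stem` in `(γ, a]`.  Otherwise `New D p0 q' γ'`, so `q' ∈ jv D p0 γ' ∈ J`.
  As `Sep J p' q'` fails, `p' ∉ (jv D p0 γ').neg` (else `(jv D p0 γ').neg ∈ J` separates, use `neg_neg'`), so some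
  `t ≤ p'` has `New D p0 t γ'`.  `NoPt t a ρ` gives `γ' ≤ a`.  So `γ < a` and `Stat D p0 t a γ`; if `γ' = a` this is
  `Stat D p0 t γ' γ`, otherwise `conv` gives `Stat D p0 t γ' γ`: against `New D p0 t γ'`.
* By symmetry `γ' < γ` is impossible (apply `desc_lt` with `p', q'` exchanged, `sep_symm`), so `γ = γ'`.
-/

open Set Filter

namespace MR3098

universe u

variable {κ : Ordinal.{u}} {S : CoherentSeq κ} {D J : Set (RO (Cond S))} {p0 q1 : Cond S}

theorem desc_lt (hJ : IsCSub J) (hjJ : ∀ γ, jv D p0 γ ∈ J) (h1 : GoodOne D p0 q1)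
    {p q : Cond S} {a γ γ' ρ : Ordinal.{u}} (hp : p ≤ q1) (hq : q ≤ q1) (hns : ¬ Sep J p q)
    (hnp : NoPt p a ρ) (hno : ∀ δ ∈ p0.stem, ¬ (γ < δ ∧ δ ≤ a))
    (hst : γ = a ∨ Stat D p0 p a γ) (hv : γ' ∈ p0.stem ∨ New D p0 q γ') (hρ : γ' ≤ ρ)
    (hlt : γ < γ') : False := by
  rcases hv with hv | hv
  · have hmem : γ' ∈ p.stem := (hp.trans h1.1.1).1 hv
    exact hno γ' hv ⟨hlt, hnp.le_of_mem hmem hρ⟩
  · have hqj : q ∈ (jv D p0 γ').carrier := fun s hs => ⟨s, le_rfl, new_mono hv hs⟩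
    have hpn : p ∉ (jv D p0 γ').neg.carrier := by
      intro hpn
      refine hns ⟨(jv D p0 γ').neg, hJ.1 _ (hjJ γ'), hpn, ?_⟩
      rw [neg_neg']
      exact hqj
    have hex : ∃ t ≤ p, New D p0 t γ' := by
      by_contra hcon
      apply hpn
      rw [mem_neg_iff]
      intro s hs hsj
      obtain ⟨t, ht, hn⟩ := hsj s le_rfl
      exact hcon ⟨t, ht.trans hs, hn⟩
    obtain ⟨t, ht, hn⟩ := hex
    have ha : γ' ≤ a := (hnp.mono ht).le_of_mem hn.mem hρ
    have hst' : Stat D p0 t a γ := by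
      rcases hst with h | h
      · exact absurd (h ▸ hlt) (not_lt.mpr ha)
      · exact stat_mono h ht
    rcases ha.eq_or_lt with h | h
    · subst h
      exact hn.ns t le_rfl γ hst'
    · exact hn.ns t le_rfl γ (conv h1 (ht.trans hp) hst' hn.mem hlt h)

end MR3098
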