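import Pool.Agent.Work.MP_3098b6_lc.Core

/-!
MODULE Down (size S, about 50 lines).

Let `q` be the pure condition which witnesses `PF p0 γ x b`.  Let `q'` be the pure condition with large
set `q.large ∩ X`, `X = {ξ | a < ξ → ξ < γ → ξ ∈ x.large}` (`IsPure.restr_ex`).  `Fmem S δ X` for a point
`δ` of `p0`: if `δ ≤ a`: `Iio δ ⊆ X`; if `δ > γ`: `Ioi γ ⊆ X`; if `δ = γ`: `γ` is a point of `x`,
so `Fmem S γ x.large` and `x.large ⊆ X`; `a < δ < γ` is impossible (`δ ∈ p0.stem ⊆ x.stem`).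
If `Lle a t x` and `Ule a t q'`, then `Lle γ t x`: points of `t.stem` in `(a, γ)` are in `q'.stem` or
`q'.large`; they are not in `q'.stem = p0.stem ⊆ x.stem`, so in `q'.large`, so in `x.large`; `γ` itself is
a point of `t` (as `γ ∈ p0.stem = q'.stem`, or `γ = κ`) and of `x`.  And `Ule γ t q` is clear.
-/

open Set Filter

namespace MR3098

universe u

variable {κ : Ordinal.{u}} {S : CoherentSeq κ}

theorem down {p0 x : Cond S} {γ a : Ordinal.{u}} {b : RO (Cond S)} (hx : x ≤ p0) (hγ : Pt p0 γ)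
    (ha : a < γ) (hax : a ∈ x.stem) (hno : ∀ δ ∈ x.stem, ¬ (a < δ ∧ δ < γ))
    (h : PF p0 γ x b) : PF p0 a x b := by
  obtain ⟨q, hq, H⟩ := h
  have hF : ∀ δ, Pt p0 δ → Fmem S δ {ξ | a < ξ → ξ < γ → ξ ∈ x.large} := by
    intro δ hδ
    rcases le_or_gt δ a with h | h
    · exact (fmem_Iio hδ.le).mono fun ξ hξ h' _ => absurd (h'.trans hξ) (not_lt.mpr h)
    · rcases lt_trichotomy δ γ with h2 | h2 | h2
      · have hδ' : δ ∈ p0.stem := hδ.mem_of_lt (h2.trans_le hγ.le)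
        exact absurd ⟨h, h2⟩ (hno δ (hx.1 hδ'))
      · subst h2
        exact (hδ.mono hx).fmem.mono fun ξ hξ _ _ => hξ
      · exact (fmem_Ioi hδ.le h2).mono fun ξ hξ _ h' => absurd h' (not_lt.mpr (le_of_lt hξ))
  obtain ⟨q', hq', hle, hlar⟩ := hq.restr_ex hF
  refine ⟨q', hq', fun t ht hu => ?_⟩
  have hqγ : Pt q' γ := hq'.pt.mpr hγ
  have htγ : Pt t γ := by
    rcases hqγ with h | h
    · exact Or.inl (hu.sub γ h ha)
    · exact Or.inr h
  have hmid : ∀ ξ, a < ξ → ξ < γ → (ξ ∈ t.stem ∨ ξ ∈ t.large) → ξ ∈ x.large := by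
    intro ξ h1 h2 h3
    have h4 : ξ ∈ q'.stem ∨ ξ ∈ q'.large := by
      rcases h3 with h3 | h3
      · exact hu.new ξ h3 h1
      · exact Or.inr (hu.lar ξ h3 h1)
    rcases h4 with h4 | h4
    · rw [hq'.2] at h4
      exact absurd ⟨h1, h2⟩ (hno ξ (hx.1 h4))
    · rw [hlar] at h4
      exact h4.2 h1 h2
  refine H t ⟨htγ, hγ.mono hx, ?_, ?_, ?_⟩ ((hu.mono ha.le).trans (ule_of_le hle))
  · intro δ hδ hδγ
    rcases le_or_gt δ a with h | h
    · exact ht.sub δ hδ h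
    · rcases hδγ.lt_or_eq with h2 | h2
      · exact absurd ⟨h, h2⟩ (hno δ hδ)
      · subst h2
        exact htγ.mem_of_lt (x.stem_lt δ hδ)
  · intro δ hδ hδγ
    rcases le_or_gt δ a with h | h
    · exact ht.new δ hδ h
    · rcases hδγ.lt_or_eq with h2 | h2
      · exact Or.inr (hmid δ h h2 (Or.inl hδ))
      · subst h2
        exact Or.inl ((hγ.mono hx).mem_of_lt (t.stem_lt δ hδ))
  · intro ξ hξ hξγ
    rcases lt_trichotomy ξ a with h | h | h
    · exact ht.lar ξ hξ h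
    · subst h
      exact absurd hξ ht.pty.not_large
    · exact hmid ξ h hξγ (Or.inr hξ)

end MR3098
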