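import Pool.Agent.Work.MP_3098b6_lc.SSym

/-!
MODULE GoodA (size M, about 80 lines; this file: le_of_low, exists_goodOne; GoodC = comp, conv is a separate module): the first pure condition `q1`, comparison and convexity.

* `exists_goodOne`: `uniform` with `R x a y a' X := SS D p0 a a' x y → ∃ b ∈ D, ∃ q, IsPure p0 q ∧
  X ⊆ q.large ∧ (∀ t, Lle a t x → Ule a t q → t ∈ b.carrier) ∧ (∀ t, Lle a' t y → Ule a' t q → t ∈ b.neg.carrier)`.
  `hR`: if `SS` holds, the two pure witnesses have a common pure extension `t` (`IsPure.inf`, `Ule.trans`),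
  `X = t.large`; otherwise `X = univ`.  `hcongr`: `Lle.trans`, `ss_mono`.  `q1` = pure condition with large set
  `p0.large ∩ E`.  For `p ≤ q1` with `Lle a p x`, `NoPt p a (max a a')`: a point of `p.stem` or `p.large` above
  `a` is above `max a a'`; it is in `p0.stem = q.stem` or in `q1.large`, so in `E`, so in `X ⊆ q.large`; so
  `Ule a p q`, so `p ∈ b`.  Same for `q`.
* `comp`: apply the property to `x = p`, `y = q` (`Lle.refl`), `NoPt.anti` for `max a a' ≤ ρ`.
* `conv`: if `Stat D p0 x w z` fails, its first four clauses hold (no point of `p0.stem` in `(z, w]` since none in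
  `(z, γ]`), so there is `x' ≤ x` with `SS D p0 w z x' x'`.  The property of `q1` for `(x', w)`, `(x', z)`,
  `max w z = w`, gives `b ∈ D`.  Then `PF p0 γ x' b` with the pure condition `q1` (if `Lle γ t x'`, `Ule γ t q1`
  then `t ≤ q1`: `le_of_lle_ule`, `Lle γ x' q1`? use `Lle γ t x'` and `x' ≤ q1` to see `t ≤ q1` directly: `γ` is in
  `t.stem` but possibly not in `q1.stem`; write `t ≤ splice γ x' q1 ≤ q1`; `Lle w t x'` by `Lle.restrict`; `NoPt t w w`).
  And `PF p0 z x' b.neg` with the pure condition whose large set is `q1.large` minus `(z, w]` (`IsPure.restr_ex`,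
  no point of `p0` in `(z, w]`).  So `SS D p0 γ z x' x'`: against `Stat D p0 x γ z`.
* `le_of_low`: if `y ≤ q1`, `Lle z t y`, `Ule z t q1` then `t ≤ q1`.
-/

open Set Filter

namespace MR3098

universe u

variable {κ : Ordinal.{u}} {S : CoherentSeq κ} {D : Set (RO (Cond S))} {p0 q1 : Cond S}

/-- The property of the first pure condition. -/
def GoodOne (D : Set (RO (Cond S))) (p0 q1 : Cond S) : Prop :=
  IsPure p0 q1 ∧ ∀ x ≤ p0, ∀ y ≤ p0, ∀ a ∈ x.stem, ∀ a' ∈ y.stem, SS D p0 a a' x y →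
    ∃ b ∈ D, (∀ p ≤ q1, Lle a p x → NoPt p a (max a a') → p ∈ b.carrier) ∧
      (∀ q ≤ q1, Lle a' q y → NoPt q a' (max a a') → q ∈ b.neg.carrier)

theorem le_of_low {y t q : Cond S} {z : Ordinal.{u}} (hy : y ≤ q) (h : Lle z t y)
    (h' : Ule z t q) : t ≤ q := by
  rw [Cond.le_def]
  refine ⟨fun γ hγ => ?_, fun ξ hξ => ?_, fun γ hγ => ?_⟩
  · rcases le_or_gt γ z with hz | hz
    · exact h.sub γ (hy.1 hγ) hz
    · exact h'.sub γ hγ hz
  · rcases lt_trichotomy ξ z with hz | hz | hz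
    · exact hy.2.1 (h.lar ξ hξ hz)
    · subst hz
      exact absurd hξ h.pty.not_large
    · exact h'.lar ξ hξ hz
  · rcases le_or_gt γ z with hz | hz
    · rcases h.new γ hγ hz with h1 | h1
      · exact hy.2.2 γ h1
      · exact Or.inr (hy.2.1 h1)
    · exact h'.new γ hγ hz

theorem exists_goodOne (D : Set (RO (Cond S))) (p0 : Cond S) : ∃ q1, GoodOne D p0 q1 := by
  obtain ⟨E, hE, H⟩ := uniform p0 (fun x a y a' X => SS D p0 a a' x y → ∃ b ∈ D, ∃ q,
      IsPure p0 q ∧ X ⊆ q.large ∧ (∀ t, Lle a t x → Ule a t q → t ∈ b.carrier) ∧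
        (∀ t, Lle a' t y → Ule a' t q → t ∈ b.neg.carrier)) (by
    intro x x' a y y' a' X h1 h2 h3 h4 hR hss
    obtain ⟨b, hb, q, hq, hX, h5, h6⟩ := hR (ss_mono hss h1 h3)
    exact ⟨b, hb, q, hq, hX, fun t ht hu => h5 t (ht.trans h2) hu,
      fun t ht hu => h6 t (ht.trans h4) hu⟩) (by
    intro x _ y _ a _ a' _
    by_cases hss : SS D p0 a a' x y
    · obtain ⟨b, hb, ⟨q, hq, h1⟩, ⟨q', hq', h2⟩⟩ := hss
      obtain ⟨t, ht, h3, h4⟩ := hq.inf hq'
      refine ⟨t.large, fun _ => ⟨b, hb, t, ht, subset_rfl, fun s hs hu => h1 s hs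
        (hu.trans (ule_of_le h3)), fun s hs hu => h2 s hs (hu.trans (ule_of_le h4))⟩, ?_⟩
      intro γ hγ _ _
      exact (ht.pt.mpr hγ).fmem
    · exact ⟨univ, fun h => absurd h hss, fun γ _ _ _ β _ => univ_mem⟩)
  obtain ⟨q1, hq1, _, hlar⟩ := (isPure_refl p0).restr_ex hE
  refine ⟨q1, hq1, ?_⟩
  intro x hx y hy a ha a' ha' hss
  obtain ⟨X, hX, hXE⟩ := H x hx y hy a ha a' ha'
  obtain ⟨b, hb, q, hq, hXq, h1, h2⟩ := hX hss
  -- the upper part of a condition without points up to `max a a'` is stronger than `q`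
  have key : ∀ p ≤ q1, ∀ c, NoPt p c (max a a') → Ule c p q := by
    intro p hp c hn
    have hbig : ∀ ξ, c < ξ → (ξ ∈ p.stem ∨ ξ ∈ p.large) → max a a' < ξ := by
      intro ξ h3 h4
      by_contra hcon
      obtain ⟨h5, h6⟩ := hn ξ h3 (not_lt.mp hcon)
      exact h4.elim h5 h6
    have hqE : ∀ ξ ∈ q1.large, max a a' < ξ → ξ ∈ q.large := by
      intro ξ h3 h4
      rw [hlar] at h3
      exact hXq (hXE ξ h3.2 ((le_max_left _ _).trans_lt h4) ((le_max_right _ _).trans_lt h4))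
    refine ⟨fun γ hγ _ => ?_, fun γ hγ h3 => ?_, fun ξ hξ h3 => ?_⟩
    · rw [hq.2] at hγ
      exact (hp.trans hq1.1).1 hγ
    · rcases hp.2.2 γ hγ with h4 | h4
      · rw [hq1.2] at h4
        rw [hq.2]
        exact Or.inl h4
      · exact Or.inr (hqE γ h4 (hbig γ h3 (Or.inl hγ)))
    · exact hqE ξ (hp.2.1 hξ) (hbig ξ h3 (Or.inr hξ))
  exact ⟨b, hb, fun p hp hl hn => h1 p hl (key p hp a hn),
    fun p hp hl hn => h2 p hl (key p hp a' hn)⟩

end MR3098
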