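import Pool.Agent.Work.MP_3098b6_lc.LFive

/-!
MODULE GoodB (size S-M, about 90 lines): the second pure condition `q2`.

* `yset_compl`: let `γ` be a point of `p0` above `a` and `a'`.  If there is `m ∈ p0.stem` with `a < m < γ` or
  `a' < m < γ` then `Ioi m ⊆ (YSet ...)ᶜ` (because `m ∈ x'.stem`, `m ∈ y'.stem` for all `x', y' ≤ q1 ≤ p0`); use
  `fmem_Ioi`.  Otherwise `Gap p0 a γ`, `Gap p0 a' γ` and `lfive` shows `YSet ... ∉ S.U γ j` for `j < S.o γ`.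
* `exists_goodTwo`: `uniform` with `R x a y a' X := ¬ SS D p0 a a' x y → ∀ ξ ∈ X, ξ ∉ YSet D p0 q1 x y a a'`
  (`hcongr`: `ss_mono`, `Lle.trans`); `X = (YSet ...)ᶜ` or `univ`.  `q2` = pure condition below `q1` with large set
  `q1.large ∩ E` (`IsPure.restr_ex`).  Given `p, q, γ, z, z'`: `γ ∉ p0.stem`, so `γ ∈ q2.large ⊆ E`; if
  `SS D p0 z z' p q` fails then `γ ∉ YSet D p0 q1 p q z z'`; but `x' = p`, `y' = q` show `γ ∈ YSet`.
-/

open Set Filter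

namespace MR3098

universe u

variable {κ : Ordinal.{u}} {S : CoherentSeq κ} {D : Set (RO (Cond S))} {p0 q1 : Cond S}

/-- The property of the second pure condition. -/
def GoodTwo (D : Set (RO (Cond S))) (p0 q2 : Cond S) : Prop :=
  IsPure p0 q2 ∧ ∀ p ≤ q2, ∀ q ≤ q2, ∀ γ z z', New D p0 p γ → New D p0 q γ →
    SS D p0 γ γ p q → z ∈ p.stem → z' ∈ q.stem → z < γ → z' < γ →
    (∀ δ ∈ p.stem, ¬ (z < δ ∧ δ < γ)) → (∀ δ ∈ q.stem, ¬ (z' < δ ∧ δ < γ)) →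
    SS D p0 z z' p q

/-- A point of `p0` between `a` and `γ`. -/
private theorem goodB_aux {p0 : Cond S} {a γ : Ordinal.{u}} (hγ : Pt p0 γ) (ha : a < γ)
    (h : ¬ Gap p0 a γ) : ∃ m ∈ p0.stem, a < m ∧ m < γ := by
  by_contra hcon
  push Not at hcon
  exact h ⟨ha, hγ, fun δ hδ h => absurd (hcon δ hδ h.1) (not_le.mpr h.2)⟩

theorem yset_compl (hD : IsCSub D) {m : Ordinal.{u}} (hb : IsBase p0 m)
    (h1 : GoodOne D p0 q1) {x y : Cond S} {a a' : Ordinal.{u}} (hx : x ≤ p0) (hy : y ≤ p0)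
    (ha : a ∈ x.stem) (ha' : a' ∈ y.stem) (h : ¬ SS D p0 a a' x y) :
    ∀ γ, Pt p0 γ → a < γ → a' < γ → Fmem S γ (YSet D p0 q1 x y a a')ᶜ := by
  intro γ hγ haγ ha'γ
  by_cases hg : Gap p0 a γ
  · by_cases hg' : Gap p0 a' γ
    · intro β hβ
      rw [← Ultrafilter.mem_coe, Ultrafilter.mem_coe, Ultrafilter.compl_mem_iff_notMem]
      intro hY
      exact h (lfive hD hb h1 hx hy ha ha' hg hg' hβ hY)
    · obtain ⟨n, hn, h2, h3⟩ := goodB_aux hγ ha'γ hg'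
      refine (fmem_Ioi hγ.le h3).mono fun ξ hξ hY => ?_
      obtain ⟨_, _, x', hx', y', hy', _, _, _, _, _, hno, _⟩ := hY
      exact hno n ((hy'.trans h1.1.1).1 hn) ⟨h2, hξ⟩
  · obtain ⟨n, hn, h2, h3⟩ := goodB_aux hγ haγ hg
    refine (fmem_Ioi hγ.le h3).mono fun ξ hξ hY => ?_
    obtain ⟨_, _, x', hx', y', hy', _, _, _, _, hno, _, _⟩ := hY
    exact hno n ((hx'.trans h1.1.1).1 hn) ⟨h2, hξ⟩

theorem exists_goodTwo (hD : IsCSub D) {m : Ordinal.{u}} (hb : IsBase p0 m)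
    (h1 : GoodOne D p0 q1) : ∃ q2 ≤ q1, GoodTwo D p0 q2 := by
  obtain ⟨E, hE, H⟩ := uniform p0 (fun x a y a' X => ¬ SS D p0 a a' x y →
      ∀ ξ ∈ X, ξ ∉ YSet D p0 q1 x y a a') (by
    intro x x' a y y' a' X h2 h3 h4 h5 hR hss ξ hξ hY
    refine hR (fun h => hss (ss_mono h h3 h5)) ξ hξ ?_
    obtain ⟨h6, h7, s, hs, t, ht, h8, h9, h10⟩ := hY
    exact ⟨h6, h7, s, hs, t, ht, h2.trans h8, h4.trans h9, h10⟩) (by
    intro x hx y hy a ha a' ha'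
    by_cases hss : SS D p0 a a' x y
    · exact ⟨univ, fun h => absurd hss h, fun γ _ _ _ β _ => univ_mem⟩
    · exact ⟨(YSet D p0 q1 x y a a')ᶜ, fun _ ξ hξ => hξ, yset_compl hD hb h1 hx hy ha ha' hss⟩)
  obtain ⟨q2, hq2, hle, hlar⟩ := h1.1.restr_ex hE
  refine ⟨q2, hle, hq2, ?_⟩
  intro p hp q hq γ z z' hn hn' hss hz hz' hzγ hz'γ hno hno'
  obtain ⟨X, hX, hXE⟩ := H p (hp.trans hq2.1) q (hq.trans hq2.1) z hz z' hz'
  by_contra hcon
  have hγ : γ ∈ q2.large := by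
    rcases hp.2.2 γ hn.mem with h | h
    · rw [hq2.2] at h
      exact absurd h hn.notMem
    · exact h
  rw [hlar] at hγ
  exact hX hcon γ (hXE γ hγ.2 hzγ hz'γ) ⟨hzγ, hz'γ, p, hp.trans hle, q, hq.trans hle,
    Lle.refl (Or.inl hz), Lle.refl (Or.inl hz'), hn.mem, hn'.mem, hno, hno', hn, hn', hss⟩

end MR3098
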