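import Pool.Agent.Work.MP_3098b6_lc.GoodA

/-!
MODULE GoodC (size S-M, about 80 lines; this file: comp, conv; GoodA is a separate module): the first pure condition `q1`, comparison and convexity.

* `exists_goodOne`: `uniform` with `R x a y a' X := SS D p0 a a' x y → ∃ b ∈ D, ∃ q, IsPure p0 q ∧
  X ⊆ q.large ∧ (∀ t, Lle a t x → Ule a t q → t ∈ b.carrier) ∧ (∀ t, Lle a' t y → Ule a' t q → t ∈ b.neg.carrier)`.
  `hR`: if `SS` holds, the two pure witnesses have a common pure extension `t` (`IsPure.inf`, `Ule.trans`),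
  `X = t.large`; otherwise `X = univ`.  `hcongr`: `Lle.trans`, `ss_mono`.  `q1` = pure condition with large set
  `p0.large ∩ E`.  For `p ≤ q1` with `Lle a p x`, `NoPt p a (max a a')`: a point of `p.stem` or `p.large` above
  `a` is above `max a a'`; it is in `p0.stem = q.stem` or in `q1.large`, so in `E`, so in `X ⊆ q.large`; so
  `Ule a p q`, so `p ∈ b`.  Same for `q`.
* `comp`: apply the property to `x = p`, `y = q` (`Lle.refl`), `NoPt.anti` for `max a a' ≤ ρ`.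
* `conv`: if `Stat D p0 x w z` fails, its first four clauses hold (no point of `p0.stem` in `(z, w]` since none in
  `(z, γ]`), so there is `x' ≤ x` with `SS D p0 w z x' x'`.  The property of `q1` for `(x', w)`, `(x', z)`,
  `max w z = w`, gives `b ∈ D`.  Then `PF p0 γ x' b` with the pure condition `q1` (if `Lle γ t x'`, `Ule γ t q1`
  then `t ≤ q1`: `le_of_lle_ule`, `Lle γ x' q1`? use `Lle γ t x'` and `x' ≤ q1` to see `t ≤ q1` directly: `γ` is in
  `t.stem` but possibly not in `q1.stem`; write `t ≤ splice γ x' q1 ≤ q1`; `Lle w t x'` by `Lle.restrict`; `NoPt t w w`).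
  And `PF p0 z x' b.neg` with the pure condition whose large set is `q1.large` minus `(z, w]` (`IsPure.restr_ex`,
  no point of `p0` in `(z, w]`).  So `SS D p0 γ z x' x'`: against `Stat D p0 x γ z`.
* `le_of_low`: if `y ≤ q1`, `Lle z t y`, `Ule z t q1` then `t ≤ q1`.
-/

open Set Filter

namespace MR3098

universe u

variable {κ : Ordinal.{u}} {S : CoherentSeq κ} {D : Set (RO (Cond S))} {p0 q1 : Cond S}

theorem comp (h1 : GoodOne D p0 q1) {p q : Cond S} {a a' ρ : Ordinal.{u}} (hp : p ≤ q1)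
    (hq : q ≤ q1) (ha : a ∈ p.stem) (ha' : a' ∈ q.stem) (haρ : a ≤ ρ) (ha'ρ : a' ≤ ρ)
    (hnp : NoPt p a ρ) (hnq : NoPt q a' ρ) (h : SS D p0 a a' p q) : Sep D p q := by
  obtain ⟨b, hb, h2, h3⟩ := h1.2 p (hp.trans h1.1.1) q (hq.trans h1.1.1) a ha a' ha' h
  have hρ : max a a' ≤ ρ := max_le haρ ha'ρ
  exact ⟨b, hb, h2 p hp (Lle.refl (Or.inl ha)) (hnp.anti hρ),
    h3 q hq (Lle.refl (Or.inl ha')) (hnq.anti hρ)⟩

theorem conv (h1 : GoodOne D p0 q1) {x : Cond S} {γ z w : Ordinal.{u}} (hx : x ≤ q1)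
    (hs : Stat D p0 x γ z) (hw : w ∈ x.stem) (hzw : z < w) (hwγ : w < γ) :
    Stat D p0 x w z := by
  refine ⟨hw, hs.memz, hzw, fun δ hδ h => hs.none δ hδ ⟨h.1, h.2.trans hwγ.le⟩, ?_⟩
  intro x' hx' hss
  have hx'q : x' ≤ q1 := hx'.trans hx
  have hx'0 : x' ≤ p0 := hx'q.trans h1.1.1
  have hw' : w ∈ x'.stem := hx'.1 hw
  have hz' : z ∈ x'.stem := hx'.1 hs.memz
  have hγ' : γ ∈ x'.stem := hx'.1 hs.memγ
  obtain ⟨b, hb, h2, h3⟩ := h1.2 x' hx'0 x' hx'0 w hw' z hz' hss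
  have hmax : max w z = w := max_eq_left hzw.le
  rw [hmax] at h2 h3
  refine hs.ns x' hx' ⟨b, hb, ⟨q1, h1.1, fun t ht hu => ?_⟩, ?_⟩
  · exact h2 t (le_of_low hx'q ht hu) (ht.restrict hwγ.le (Or.inl hw')) (noPt_self t w)
  · have hF : ∀ δ, Pt p0 δ → Fmem S δ {ξ | ¬ (z < ξ ∧ ξ ≤ w)} := by
      intro δ hδ
      rcases le_or_gt δ z with h | h
      · exact (fmem_Iio hδ.le).mono fun ξ hξ h' => absurd (h'.1.trans hξ) (not_lt.mpr h)
      · have hwδ : w < δ := by
          by_contra hcon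
          have hδ' : δ ∈ p0.stem := hδ.mem_of_lt ((not_lt.mp hcon).trans_lt (x.stem_lt w hw))
          exact hs.none δ hδ' ⟨h, (not_lt.mp hcon).trans hwγ.le⟩
        exact (fmem_Ioi hδ.le hwδ).mono fun ξ hξ h' => absurd hξ (not_lt.mpr h'.2)
    obtain ⟨q', hq', hle, hlar⟩ := h1.1.restr_ex hF
    refine ⟨q', hq', fun t ht hu => ?_⟩
    have htq : t ≤ q1 := le_of_low hx'q ht (hu.trans (ule_of_le hle))
    refine h3 t htq ht ?_
    intro ξ h4 h5
    refine ⟨fun h6 => ?_, fun h6 => ?_⟩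
    · rcases hu.new ξ h6 h4 with h7 | h7
      · rw [hq'.2] at h7
        exact hs.none ξ h7 ⟨h4, h5.trans hwγ.le⟩
      · rw [hlar] at h7
        exact h7.2 ⟨h4, h5⟩
    · have h7 := hu.lar ξ h6 h4
      rw [hlar] at h7
      exact h7.2 ⟨h4, h5⟩

end MR3098
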