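import Pool.Agent.Work.MP_3098b6_lc.Core

/-!
MODULE KTwo (size S, about 60 lines): consequences of coherence.

* `ktwo`: forward direction: suppose `X ∈ S.U δ j` for all `j < i` but not almost all `β` (for
  `S.U δ i`) satisfy `Fmem S β X`.  As `S.U δ i` is an ultrafilter, for almost all `β` there is
  `j < S.o β` with `X ∉ S.U β j`; let `f β` be such a `j` (0 otherwise), so `Below (S.U δ i) S.o f`.
  With the `r` of `S.coherent δ hδ i hi`: `r f < i`, so `X ∈ S.U δ (r f)`, so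
  `X ∩ Iio ξ ∈ S.U ξ (f ξ)` for almost all `ξ`, hence `X ∈ S.U ξ (f ξ)`: contradiction (an
  eventually false statement, `Filter.NeBot`).
  Backward: for `j < i` take `f` with `Below`, `r f = j`.  For almost all `ξ`: `f ξ < S.o ξ`, `ξ < δ ≤ κ`,
  `Fmem S ξ X`, so `X ∈ S.U ξ (f ξ)` and `Iio ξ ∈ S.U ξ (f ξ)` (`fmem_Iio`); so `X ∈ S.U δ j`.
* `ktwo_zero`: apply `ktwo` with `X = ∅`, `i = 0`: `Fmem S β ∅` forces `S.o β = 0`.
* `exists_add`: by `ktwo` at `γ` (for `x.large`, which is in all measures of `γ`), almost all `ξ`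
  for `S.U γ j` have `Fmem S ξ x.large`; also `T`, `x.large`, `Ioi a`, `Iio γ` are in `S.U γ j`; an
  ultrafilter set is nonempty.
-/

open Set Filter

namespace MR3098

universe u

variable {κ : Ordinal.{u}} {S : CoherentSeq κ}

theorem ktwo {δ i : Ordinal.{u}} (hδ : δ ≤ κ) (hi : i < S.o δ) (X : Set Ordinal.{u}) :
    (∀ j < i, X ∈ S.U δ j) ↔ ∀ᶠ β in (S.U δ i : Filter Ordinal.{u}), Fmem S β X := by
  obtain ⟨r, _, hr2, hr3, hr4⟩ := S.coherent δ hδ i hi
  have hN := S.normal δ hδ i hi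
  constructor
  · intro hX
    by_contra hcon
    have h1 : {β | ¬ Fmem S β X} ∈ S.U δ i := by
      have h2 : {β | Fmem S β X} ∉ S.U δ i := hcon
      exact Ultrafilter.compl_mem_iff_notMem.mpr h2
    have h2 : ∀ β : Ordinal.{u}, ∃ j : Ordinal.{u}, ¬ Fmem S β X → (j < S.o β ∧ X ∉ S.U β j) := by
      intro β
      by_cases h3 : Fmem S β X
      · exact ⟨0, fun h4 => absurd h3 h4⟩
      · have h4 : ∃ j, j < S.o β ∧ X ∉ S.U β j := by
          by_contra h5
          apply h3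
          intro j hj
          by_contra h6
          exact h5 ⟨j, hj, h6⟩
        obtain ⟨j, hj⟩ := h4
        exact ⟨j, fun _ => hj⟩
    choose f hf using h2
    have hB : Below (S.U δ i) S.o f := mem_of_superset h1 fun β hβ => (hf β hβ).1
    have h3 := (hr4 f hB X).mp (hX (r f) (hr2 f hB))
    have h4 : ∀ᶠ ξ in (S.U δ i : Filter Ordinal.{u}), False := by
      filter_upwards [h1, h3] with ξ g1 g3
      exact (hf ξ g1).2 (mem_of_superset g3 fun η hη => hη.1)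
    obtain ⟨ξ, hξ⟩ := h4.exists
    exact hξ
  · intro hX j hj
    obtain ⟨f, hf, rfl⟩ := hr3 j hj
    rw [hr4 f hf X]
    filter_upwards [hX, hf, hN.mem] with ξ g1 g2 g3
    exact inter_mem (g1 _ g2) (fmem_Iio ((le_of_lt g3).trans hδ) _ g2)

theorem ktwo_zero {δ : Ordinal.{u}} (hδ : δ ≤ κ) (h0 : 0 < S.o δ) :
    ∀ᶠ β in (S.U δ 0 : Filter Ordinal.{u}), S.o β = 0 := by
  have h1 := (ktwo (S := S) hδ h0 (∅ : Set Ordinal.{u})).mp
    (fun j hj => absurd hj (not_lt.mpr zero_le))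
  filter_upwards [h1] with β hβ
  by_contra h2
  have h3 := hβ 0 (pos_iff_ne_zero.mpr h2)
  exact (S.U β 0).empty_notMem h3

theorem exists_add {x : Cond S} {γ j a : Ordinal.{u}} (hγ : Pt x γ) (hj : j < S.o γ)
    {T : Set Ordinal.{u}} (hT : T ∈ S.U γ j) (ha : a < γ) :
    ∃ ξ ∈ T, a < ξ ∧ ξ < γ ∧ ξ ∈ x.large ∧ Fmem S ξ x.large := by
  have h1 := (ktwo (S := S) hγ.le hj x.large).mp (fun i hi => hγ.fmem i (hi.trans hj))
  have hN := S.normal γ hγ.le j hj
  have h2 : ∀ᶠ ξ in (S.U γ j : Filter Ordinal.{u}),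
      ξ ∈ T ∧ a < ξ ∧ ξ < γ ∧ ξ ∈ x.large ∧ Fmem S ξ x.large := by
    filter_upwards [h1, hT, hN.mem, hN.tail a ha, hγ.fmem j hj] with ξ g1 g2 g3 g4 g5
    exact ⟨g2, g4, g3, g5, g1⟩
  obtain ⟨ξ, hξ⟩ := h2.exists
  exact ⟨ξ, hξ.1, hξ.2⟩

end MR3098
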