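import Pool.Agent.Work.MP_3098b6_lc.KeyC

/-!
MODULE Key (size M, about 120 lines; this file: key; KeyD = key_compl is a separate module): the key claim.

Take `KeyData` from `exists_keyData`.  Let `q` be the pure condition with large set
`p0.large ∩ (KeySet S w δ T A ∩ {η | ∀ ξ ∈ T, ξ < η → η ∈ (qs ξ).large})` (`IsPure.restr_ex`, `keyB_keySet`,
`keyB_diag`).  It witnesses `PF p0 w y b`: let `Lle w t y`, `Ule w t q`.  By `b.reg` it is enough to find, for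
each `t' ≤ t`, some `c ≤ t'` with `c ∈ b`; again `Lle w t' y`, `Ule w t' q`; so write `t` for `t'`.
Fact (F): if `ξ ∈ T`, `Lle w t y`, `Ule w t q` then `Ule ξ t (qs ξ)`: points of `p0.stem` above `ξ` are in
`t.stem`; a point of `t.stem` or `t.large` above `ξ` is in `p0.stem` or in `q.large`, so in `(qs ξ).large`.
Consider the finset of the `γ ∈ t.stem` with `w < γ < δ` and not (`γ ∈ A` and `Fmem S γ A`).
(1) If it is empty: let `a` be the largest point of `t.stem` below `δ` (`w` is one); `exists_add` for `t` at `δ`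
(`δ` is a point of `t`), `T`, `a` gives `ξ ∈ T`, `a < ξ < δ`, `ξ ∈ t.large`; `c0 = addPt t ξ`; apply `keyC_step`
to `c0` (its stem points in `(w, ξ)` are those of `t`).
(2) Otherwise let `μ` be its minimum.  `μ ∈ q.large` (`μ ∉ p0.stem` by the gap), so `μ ∈ KeySet`, so `μ ∈ T`
or `T ∈ S.U μ j` for some `j < S.o μ`.  If `μ ∈ T` apply `keyC_step` to `t`, `ξ = μ`.  If
`T ∈ S.U μ j`: let `a` be the largest point of `t.stem` below `μ`; `exists_add` for `t` at `μ` gives `ξ ∈ T`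
with `a < ξ < μ`; `c0 = addPt t ξ`, `keyC_step` for `c0`.
(To treat (1) and (2) together: a lemma for a point `ν` of `t` with `w < ν ≤ δ`, `T ∈ S.U ν j`, `j < S.o ν` and
all `γ ∈ t.stem`, `w < γ < ν`, satisfying `γ ∈ A`, `Fmem S γ A`.)

`key_compl`: let `γ` be a point of `p0`, `w < γ`.  If `Gap p0 w γ`: for `β < S.o γ`, `TSet` is not in `S.U γ β`
by `key`, so its complement is.  Otherwise there is `m ∈ p0.stem`, `w < m < γ`; then
`Ioi m ⊆ (TSet p0 y w b)ᶜ` because `m ∈ y'.stem` for all `y' ≤ p0`; use `fmem_Ioi`.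
-/

open Set Filter

namespace MR3098

universe u

variable {κ : Ordinal.{u}} {S : CoherentSeq κ}

private theorem key_add {p0 y : Cond S} {w δ i : Ordinal.{u}} {b : RO (Cond S)}
    {T A : Set Ordinal.{u}} {ys qs : Ordinal.{u} → Cond S} (hδ : δ ≤ κ) (hw : w ∈ y.stem)
    (h : KeyData p0 y w δ i b T A ys qs) {t : Cond S} {ν j : Ordinal.{u}} (hν : Pt t ν)
    (hwν : w < ν) (hj : j < S.o ν) (hTν : T ∈ S.U ν j) (hty : Lle w t y)
    (htq : ∀ ξ ∈ T, Ule ξ t (qs ξ))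
    (hA : ∀ γ ∈ t.stem, w < γ → γ < ν → γ ∈ A ∧ Fmem S γ A) : ∃ c ≤ t, c ∈ b.carrier := by
  classical
  have hwt : w ∈ t.stem := hty.sub w hw le_rfl
  have hne : (t.stem.filter (fun γ => γ < ν)).Nonempty :=
    ⟨w, Finset.mem_filter.mpr ⟨hwt, hwν⟩⟩
  obtain ⟨a, ha, hmax⟩ : ∃ a ∈ t.stem.filter (fun γ => γ < ν),
      ∀ γ ∈ t.stem.filter (fun γ => γ < ν), γ ≤ a :=
    ⟨_, Finset.max'_mem _ hne, fun γ hγ => Finset.le_max' _ γ hγ⟩
  rw [Finset.mem_filter] at ha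
  obtain ⟨ξ, hξT, haξ, hξν, hξl, hξF⟩ := exists_add hν hj hTν ha.2
  have hle : addPt t ξ hξl hξF ≤ t := addPt_le
  have hwξ : w < ξ := (hmax w (Finset.mem_filter.mpr ⟨hwt, hwν⟩)).trans_lt haξ
  obtain ⟨c, hc, hcb⟩ := keyC_step hδ hw h hξT ((lle_of_le hle (pt_of_mem hwt)).trans hty)
    ((ule_of_le hle).trans (htq ξ hξT)) addPt_mem (fun γ hγ h1 h2 => by
      rcases mem_addPt_stem.mp hγ with h3 | h3
      · exact absurd h2 (by rw [h3]; exact lt_irrefl _)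
      · exact hA γ h3 h1 (h2.trans hξν))
  exact ⟨c, hc.trans hle, hcb⟩

theorem key {p0 y : Cond S} {w δ i : Ordinal.{u}} {b : RO (Cond S)} (hy : y ≤ p0)
    (hw : w ∈ y.stem) (hg : Gap p0 w δ) (hi : i < S.o δ) (hT : TSet p0 y w b ∈ S.U δ i) :
    PF p0 w y b := by
  classical
  have hδ : δ ≤ κ := hg.pt.le
  obtain ⟨T, A, ys, qs, h⟩ := exists_keyData hδ hi hT
  obtain ⟨q, hq, -, hql⟩ := (isPure_refl p0).restr_ex
    (X := KeySet S w δ T A ∩ {η | ∀ ξ ∈ T, ξ < η → η ∈ (qs ξ).large})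
    (fun γ hγ => (keyB_keySet hg hi h γ hγ).inter (keyB_diag h γ hγ))
  refine ⟨q, hq, fun t₀ hty₀ htq₀ => b.reg t₀ fun t ht => ?_⟩
  have hwt₀ : w ∈ t₀.stem := hty₀.sub w hw le_rfl
  have hty : Lle w t y := (lle_of_le ht (pt_of_mem hwt₀)).trans hty₀
  have htq : Ule w t q := (ule_of_le ht).trans htq₀
  have hwt : w ∈ t.stem := hty.sub w hw le_rfl
  have hF : ∀ ξ ∈ T, Ule ξ t (qs ξ) := by
    intro ξ hξ
    have hwξ := h.lt ξ hξ
    have hlar : ∀ η ∈ q.large, ξ < η → η ∈ (qs ξ).large := by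
      intro η hη hlt
      rw [hql] at hη
      exact hη.2.2 ξ hξ hlt
    refine ⟨fun γ hγ hlt => htq.sub γ ?_ (hwξ.trans hlt), fun γ hγ hlt => ?_,
      fun η hη hlt => hlar η (htq.lar η hη (hwξ.trans hlt)) hlt⟩
    · rw [hq.2, ← (h.pure ξ hξ).2]
      exact hγ
    · rcases htq.new γ hγ (hwξ.trans hlt) with h1 | h1
      · left
        rw [(h.pure ξ hξ).2, ← hq.2]
        exact h1
      · exact Or.inr (hlar γ h1 hlt)
  have hδt : Pt t δ := by
    rcases hg.pt with h1 | h1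
    · left
      exact htq.sub δ (by rw [hq.2]; exact h1) hg.lt
    · exact Or.inr h1
  by_cases hE : (t.stem.filter (fun γ => (w < γ ∧ γ < δ) ∧ ¬ (γ ∈ A ∧ Fmem S γ A))).Nonempty
  · obtain ⟨μ, hμ, hmin⟩ : ∃ μ ∈ t.stem.filter
        (fun γ => (w < γ ∧ γ < δ) ∧ ¬ (γ ∈ A ∧ Fmem S γ A)),
        ∀ γ ∈ t.stem.filter (fun γ => (w < γ ∧ γ < δ) ∧ ¬ (γ ∈ A ∧ Fmem S γ A)), μ ≤ γ :=
      ⟨_, Finset.min'_mem _ hE, fun γ hγ => Finset.min'_le _ γ hγ⟩
    rw [Finset.mem_filter] at hμ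
    obtain ⟨hμt, ⟨hwμ, hμδ⟩, hμA⟩ := hμ
    have hA : ∀ γ ∈ t.stem, w < γ → γ < μ → γ ∈ A ∧ Fmem S γ A := by
      intro γ hγ h1 h2
      by_contra hcon
      exact absurd (hmin γ (Finset.mem_filter.mpr ⟨hγ, ⟨h1, h2.trans hμδ⟩, hcon⟩))
        (not_le.mpr h2)
    have hμq : μ ∈ q.large := by
      rcases htq.new μ hμt hwμ with h1 | h1
      · rw [hq.2] at h1
        exact absurd ⟨hwμ, hμδ⟩ (hg.none μ h1)
      · exact h1
    rw [hql] at hμq
    rcases hμq.2.1 with h1 | h1 | h1 | h1 | ⟨j, hj, h1⟩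
    · exact absurd h1 (not_le.mpr hwμ)
    · exact absurd h1 (not_le.mpr hμδ)
    · exact absurd h1 hμA
    · exact keyC_step hδ hw h h1 hty (hF μ h1) hμt hA
    · exact key_add hδ hw h (pt_of_mem hμt) hwμ hj h1 hty hF hA
  · refine key_add hδ hw h hδt hg.lt hi h.memT hty hF fun γ hγ h1 h2 => ?_
    by_contra hcon
    exact hE ⟨γ, Finset.mem_filter.mpr ⟨hγ, ⟨h1, h2⟩, hcon⟩⟩

end MR3098
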