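import Pool.Agent.Work.MP_3098b6_lc.Meas

/-!
MODULE KeyA (size M, about 80 lines): the data for the key claim.

For `ξ ∈ TSet p0 y w b` choose `ys ξ = y'` and `qs ξ` (the pure witness of `PF p0 ξ y' b`).  Let `A` be the
set of `η` such that for almost all `ξ` (for `S.U δ i`): `η ∈ (ys ξ).large`.  For each `η < δ` the set
`X η` of the `ξ` with `(η ∈ (ys ξ).large ↔ η ∈ A)` is in `S.U δ i` (ultrafilter), so by `diag` (put
`X η = univ`-like for other `η` is not needed, `diag` only asks for `η < δ`) the set of `ξ` with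
`∀ η < ξ, (η ∈ (ys ξ).large ↔ η ∈ A)` is in `S.U δ i`.  `T` = `TSet p0 y w b` intersected with this set and
`Iio δ`.
-/

open Set Filter

namespace MR3098

universe u

variable {κ : Ordinal.{u}} {S : CoherentSeq κ}

/-- The data in the proof of the key claim. -/
structure KeyData (p0 y : Cond S) (w δ i : Ordinal.{u}) (b : RO (Cond S)) (T A : Set Ordinal.{u})
    (ys qs : Ordinal.{u} → Cond S) : Prop where
  memT : T ∈ S.U δ i
  lt : ∀ ξ ∈ T, w < ξ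
  lt' : ∀ ξ ∈ T, ξ < δ
  pure : ∀ ξ ∈ T, IsPure p0 (qs ξ)
  force : ∀ ξ ∈ T, ∀ t, Lle ξ t (ys ξ) → Ule ξ t (qs ξ) → t ∈ b.carrier
  lle : ∀ ξ ∈ T, Lle w y (ys ξ)
  mem : ∀ ξ ∈ T, ξ ∈ (ys ξ).stem
  none : ∀ ξ ∈ T, ∀ γ ∈ (ys ξ).stem, ¬ (w < γ ∧ γ < ξ)
  agree : ∀ ξ ∈ T, ∀ η, w < η → η < ξ → (η ∈ (ys ξ).large ↔ η ∈ A)

theorem exists_keyData {p0 y : Cond S} {w δ i : Ordinal.{u}} {b : RO (Cond S)} (hδ : δ ≤ κ)
    (hi : i < S.o δ) (hT : TSet p0 y w b ∈ S.U δ i) :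
    ∃ T A ys qs, KeyData p0 y w δ i b T A ys qs := by
  classical
  have H : ∀ ξ : Ordinal.{u}, ∃ y' q' : Cond S, ξ ∈ TSet p0 y w b →
      (w < ξ ∧ Lle w y y' ∧ ξ ∈ y'.stem ∧ (∀ γ ∈ y'.stem, ¬ (w < γ ∧ γ < ξ)) ∧ IsPure p0 q' ∧
        ∀ t, Lle ξ t y' → Ule ξ t q' → t ∈ b.carrier) := by
    intro ξ
    by_cases hξ : ξ ∈ TSet p0 y w b
    · obtain ⟨h1, y', -, h3, h4, h5, q', h6, h7⟩ := hξ
      exact ⟨y', q', fun _ => ⟨h1, h3, h4, h5, h6, h7⟩⟩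
    · exact ⟨y, y, fun h => absurd h hξ⟩
  choose ys qs H using H
  have hE : ∀ η, {ξ | (η ∈ (ys ξ).large ↔
      ∀ᶠ ξ in (S.U δ i : Filter Ordinal.{u}), η ∈ (ys ξ).large)} ∈ S.U δ i := by
    intro η
    by_cases hη : ∀ᶠ ξ in (S.U δ i : Filter Ordinal.{u}), η ∈ (ys ξ).large
    · refine mem_of_superset hη fun ξ hξ => ?_
      exact ⟨fun _ => hη, fun _ => hξ⟩
    · have h2 : ∀ᶠ ξ in (S.U δ i : Filter Ordinal.{u}), ¬ η ∈ (ys ξ).large :=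
        Ultrafilter.eventually_not.mpr hη
      refine mem_of_superset h2 fun ξ hξ => ?_
      exact ⟨fun h => absurd h hξ, fun h => absurd h hη⟩
  have hN := S.normal δ hδ i hi
  have hD := hN.diag _ (fun η (_ : η < δ) => hE η)
  refine ⟨(TSet p0 y w b ∩ {ξ | ∀ η < ξ, ξ ∈ {ξ | (η ∈ (ys ξ).large ↔
      ∀ᶠ ξ in (S.U δ i : Filter Ordinal.{u}), η ∈ (ys ξ).large)}}) ∩ Iio δ,
    {η | ∀ᶠ ξ in (S.U δ i : Filter Ordinal.{u}), η ∈ (ys ξ).large}, ys, qs, ?_⟩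
  exact
    { memT := inter_mem (inter_mem hT hD) hN.mem
      lt := fun ξ hξ => (H ξ hξ.1.1).1
      lt' := fun ξ hξ => hξ.2
      pure := fun ξ hξ => (H ξ hξ.1.1).2.2.2.2.1
      force := fun ξ hξ => (H ξ hξ.1.1).2.2.2.2.2
      lle := fun ξ hξ => (H ξ hξ.1.1).2.1
      mem := fun ξ hξ => (H ξ hξ.1.1).2.2.1
      none := fun ξ hξ => (H ξ hξ.1.1).2.2.2.1
      agree := fun ξ hξ η _ h2 => hξ.1.2 η h2 }

end MR3098
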