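import Pool.Agent.Work.MP_3098b6_lc.KeyA
import Pool.Agent.Work.MP_3098b6_lc.KTwo

/-!
MODULE KeyB (size M, about 100 lines): the two measure computations for the key claim.

* `keyB_A`: for `ξ ∈ T`: `Fmem S ξ A` (because `(ys ξ).large` is in all measures on `ξ` and agrees with
  `A` on `(w, ξ)`: `fmem_congr`, `ξ < δ ≤ κ`).
* `keyB_keySet`: let `γ` be a point of `p0` and `β < S.o γ`.  If `γ ≤ w`: `Iio γ ⊆ KeySet`.  If `γ > δ`:
  `Ioi δ ⊆ KeySet`.  Otherwise `γ = δ` by the gap.  `A ∈ S.U δ j` for all `j < i` by `ktwo` (as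
  `Fmem S ξ A` for `ξ ∈ T`, `T ∈ S.U δ i`).  Case `β < i`: by `ktwo` at `β` almost all `ξ` for `S.U δ β`
  satisfy `Fmem S ξ A`, and `A ∈ S.U δ β`.  Case `β = i`: `T`.  Case `i < β`: `ktwo` at `β` for the
  complement of `T`: it is not in `S.U δ i`, so not almost all `ξ` satisfy `Fmem S ξ Tᶜ`, so almost all `ξ` do
  not satisfy it (ultrafilter), i.e. `T ∈ S.U ξ j` for some `j < S.o ξ`.
* `keyB_diag`: for a point `γ` of `p0` and `β < S.o γ` apply the normality (`diag`) of `S.U γ β` to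
  `X ξ = {η | ξ ∈ T → η ∈ (qs ξ).large}`; `(qs ξ).large ∈ S.U γ β` as `γ` is a point of `qs ξ`.
-/

open Set Filter

namespace MR3098

universe u

variable {κ : Ordinal.{u}} {S : CoherentSeq κ}

/-- The points which the pure condition in the key claim allows. -/
def KeySet (S : CoherentSeq κ) (w δ : Ordinal.{u}) (T A : Set Ordinal.{u}) : Set Ordinal.{u} :=
  {ξ | ξ ≤ w ∨ δ ≤ ξ ∨ (ξ ∈ A ∧ Fmem S ξ A) ∨ ξ ∈ T ∨ ∃ j < S.o ξ, T ∈ S.U ξ j}

theorem keyB_A {p0 y : Cond S} {w δ i : Ordinal.{u}} {b : RO (Cond S)} {T A : Set Ordinal.{u}}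
    {ys qs : Ordinal.{u} → Cond S} (hδ : δ ≤ κ) (h : KeyData p0 y w δ i b T A ys qs) :
    ∀ ξ ∈ T, Fmem S ξ A := by
  intro ξ hξ
  exact fmem_congr ((h.lt' ξ hξ).le.trans hδ) (h.lt ξ hξ) (pt_of_mem (h.mem ξ hξ)).fmem
    fun η h1 h2 h3 => (h.agree ξ hξ η h1 h2).mp h3

theorem keyB_keySet {p0 y : Cond S} {w δ i : Ordinal.{u}} {b : RO (Cond S)}
    {T A : Set Ordinal.{u}} {ys qs : Ordinal.{u} → Cond S} (hg : Gap p0 w δ) (hi : i < S.o δ)
    (h : KeyData p0 y w δ i b T A ys qs) : ∀ γ, Pt p0 γ → Fmem S γ (KeySet S w δ T A) := by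
  intro γ hγ
  have hδ : δ ≤ κ := hg.pt.le
  have hFA := keyB_A hδ h
  rcases le_or_gt γ w with h1 | h1
  · exact (fmem_Iio hγ.le).mono fun ξ (hξ : ξ < γ) => Or.inl (hξ.le.trans h1)
  rcases lt_trichotomy γ δ with h2 | h2 | h2
  · rcases hγ with h3 | h3
    · exact absurd ⟨h1, h2⟩ (hg.none γ h3)
    · exact absurd (h3 ▸ h2) (not_lt.mpr hδ)
  · subst h2
    have hev : ∀ᶠ β in (S.U γ i : Filter Ordinal.{u}), Fmem S β A :=
      mem_of_superset h.memT fun ξ hξ => hFA ξ hξ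
    have hA : ∀ j < i, A ∈ S.U γ j := (ktwo hδ hi A).mpr hev
    intro β hβ
    rcases lt_trichotomy β i with h3 | h3 | h3
    · have h4 := (ktwo hδ hβ A).mp fun j hj => hA j (hj.trans h3)
      exact mem_of_superset (inter_mem (hA β h3) h4) fun ξ hξ =>
        Or.inr (Or.inr (Or.inl ⟨hξ.1, hξ.2⟩))
    · subst h3
      exact mem_of_superset h.memT fun ξ hξ => Or.inr (Or.inr (Or.inr (Or.inl hξ)))
    · have h4 : ¬ ∀ᶠ ξ in (S.U γ β : Filter Ordinal.{u}), Fmem S ξ Tᶜ := by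
        intro hcon
        have h5 := (ktwo hδ hβ Tᶜ).mpr hcon i h3
        exact (Ultrafilter.compl_mem_iff_notMem.mp h5) h.memT
      have h5 : ∀ᶠ ξ in (S.U γ β : Filter Ordinal.{u}), ¬ Fmem S ξ Tᶜ :=
        Ultrafilter.eventually_not.mpr h4
      refine mem_of_superset h5 fun ξ hξ => Or.inr (Or.inr (Or.inr (Or.inr ?_)))
      by_contra hcon
      refine hξ fun j hj => Ultrafilter.compl_mem_iff_notMem.mpr fun hT => hcon ⟨j, hj, hT⟩
  · exact (fmem_Ioi hγ.le h2).mono fun ξ (hξ : δ < ξ) => Or.inr (Or.inl hξ.le)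

theorem keyB_diag {p0 y : Cond S} {w δ i : Ordinal.{u}} {b : RO (Cond S)}
    {T A : Set Ordinal.{u}} {ys qs : Ordinal.{u} → Cond S}
    (h : KeyData p0 y w δ i b T A ys qs) :
    ∀ γ, Pt p0 γ → Fmem S γ {η | ∀ ξ ∈ T, ξ < η → η ∈ (qs ξ).large} := by
  intro γ hγ β hβ
  have hD := (S.normal γ hγ.le β hβ).diag (fun ξ => {η | ξ ∈ T → η ∈ (qs ξ).large})
    (fun ξ _ => by
      by_cases hξ : ξ ∈ T
      · exact mem_of_superset (((h.pure ξ hξ).pt.mpr hγ).fmem β hβ) fun η hη _ => hη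
      · exact mem_of_superset univ_mem fun η _ h1 => absurd h1 hξ)
  exact mem_of_superset hD fun η hη ξ hξ hlt => hη ξ hlt hξ

end MR3098
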