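import Pool.Agent.Work.MP_3098b6_lc.KeyB

/-!
MODULE KeyC (size M, about 80 lines): one step in the key claim.

`c` is `restr t X` with `X = {η | w < η → η < ξ → η ∈ A}`.  `Fmem S γ X` for a point `γ` of `t`:
if `γ ≤ w`: `Iio γ ⊆ X`.  If `w < γ < ξ`: `γ ∈ t.stem`, so `Fmem S γ A` by `hA`, and `A ⊆ X`.
If `γ = ξ`: `Fmem S ξ A` by `keyB_A`.  If `γ > ξ`: `Ioi ξ ⊆ X`.
`c ∈ b` by `h.force ξ hξ c`: `Lle ξ c (ys ξ)`: `ξ` is in both stems.  A point `γ ≤ ξ` of `(ys ξ).stem` is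
`≤ w` (then it is in `y.stem` and in `t.stem`: `(h.lle ξ hξ).sub` goes from `(ys ξ).stem` to `y.stem`,
and `hty.sub` from `y.stem` to `t.stem`) or `= ξ`.  A point `γ ≤ ξ` of `c.stem = t.stem`: if `γ ≤ w` use
`(hty.trans (h.lle ξ hξ)).new`; if `w < γ < ξ` then `γ ∈ A`, so `γ ∈ (ys ξ).large` by `h.agree`; if `γ = ξ`
clear.  A point `η < ξ` of `c.large`: `η < w`: `(hty.trans (h.lle ξ hξ)).lar`; `η = w` impossible
(`w ∈ t.stem` as `w ∈ y.stem`); `w < η`: `η ∈ A`, `h.agree`.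
-/

open Set Filter

namespace MR3098

universe u

variable {κ : Ordinal.{u}} {S : CoherentSeq κ}

theorem keyC_step {p0 y : Cond S} {w δ i : Ordinal.{u}} {b : RO (Cond S)}
    {T A : Set Ordinal.{u}} {ys qs : Ordinal.{u} → Cond S} (hδ : δ ≤ κ) (hw : w ∈ y.stem)
    (h : KeyData p0 y w δ i b T A ys qs) {t : Cond S} {ξ : Ordinal.{u}} (hξ : ξ ∈ T)
    (hty : Lle w t y) (htq : Ule ξ t (qs ξ)) (hξt : ξ ∈ t.stem)
    (hA : ∀ γ ∈ t.stem, w < γ → γ < ξ → γ ∈ A ∧ Fmem S γ A) : ∃ c ≤ t, c ∈ b.carrier := by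
  have hyξ : Lle w t (ys ξ) := hty.trans (h.lle ξ hξ)
  have hwt : w ∈ t.stem := hty.sub w hw le_rfl
  have hFX : ∀ γ, Pt t γ → Fmem S γ {η | w < η → η < ξ → η ∈ A} := by
    intro γ hγ
    rcases le_or_gt γ w with h1 | h1
    · exact (fmem_Iio hγ.le).mono fun η (h2 : η < γ) h3 => absurd (h2.trans_le h1) h3.not_gt
    rcases lt_trichotomy γ ξ with h2 | h2 | h2
    · exact (hA γ (hγ.mem_of_lt (h2.trans (t.stem_lt ξ hξt))) h1 h2).2.mono fun η h3 _ _ => h3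
    · subst h2
      exact (keyB_A hδ h γ hξ).mono fun η h3 _ _ => h3
    · exact (fmem_Ioi hγ.le h2).mono fun η (h3 : ξ < η) _ h4 => absurd h4 h3.not_gt
  have hle : restr t {η | w < η → η < ξ → η ∈ A} hFX ≤ t := restr_le
  refine ⟨_, hle, h.force ξ hξ _ ?_ ((ule_of_le hle).trans htq)⟩
  refine ⟨pt_of_mem hξt, pt_of_mem (h.mem ξ hξ), fun γ hγ hz => ?_, fun γ hγ hz => ?_,
    fun η hη hz => ?_⟩
  · show γ ∈ t.stem
    rcases hz.lt_or_eq with h1 | h1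
    · rcases le_or_gt γ w with h2 | h2
      · exact hyξ.sub γ hγ h2
      · exact absurd ⟨h2, h1⟩ (h.none ξ hξ γ hγ)
    · rw [h1]; exact hξt
  · have hγ' : γ ∈ t.stem := hγ
    rcases hz.lt_or_eq with h1 | h1
    · rcases le_or_gt γ w with h2 | h2
      · exact hyξ.new γ hγ' h2
      · exact Or.inr ((h.agree ξ hξ γ h2 h1).mpr (hA γ hγ' h2 h1).1)
    · rw [h1]; exact Or.inl (h.mem ξ hξ)
  · have hη' : η ∈ t.large ∧ η ∈ {η | w < η → η < ξ → η ∈ A} := hη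
    rcases lt_trichotomy η w with h1 | h1 | h1
    · exact hyξ.lar η hη'.1 h1
    · subst h1
      exact absurd hwt (t.disj η hη'.1)
    · exact (h.agree ξ hξ η h1 hz).mpr (hη'.2 h1 hz)

end MR3098
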