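import Pool.Agent.Work.MP_3098b6_lc.Key

/-!
MODULE KeyD (size S, about 30 lines; this file: key_compl, see the LAST paragraph; Key is a separate module).

Take `KeyData` from `exists_keyData`.  Let `q` be the pure condition with large set
`p0.large ∩ (KeySet S w δ T A ∩ {η | ∀ ξ ∈ T, ξ < η → η ∈ (qs ξ).large})` (`IsPure.restr_ex`, `keyB_keySet`,
`keyB_diag`).  It witnesses `PF p0 w y b`: let `Lle w t y`, `Ule w t q`.  By `b.reg` it is enough to find, for
each `t' ≤ t`, some `c ≤ t'` with `c ∈ b`; again `Lle w t' y`, `Ule w t' q`; so write `t` for `t'`.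
Fact (F): if `ξ ∈ T`, `Lle w t y`, `Ule w t q` then `Ule ξ t (qs ξ)`: points of `p0.stem` above `ξ` are in
`t.stem`; a point of `t.stem` or `t.large` above `ξ` is in `p0.stem` or in `q.large`, so in `(qs ξ).large`.
Consider the finset of the `γ ∈ t.stem` with `w < γ < δ` and not (`γ ∈ A` and `Fmem S γ A`).
(1) If it is empty: let `a` be the largest point of `t.stem` below `δ` (`w` is one); `exists_add` for `t` at `δ`
(`δ` is a point of `t`), `T`, `a` gives `ξ ∈ T`, `a < ξ < δ`, `ξ ∈ t.large`; `c0 = addPt t ξ`; apply `keyC_step`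
to `c0` (its stem points in `(w, ξ)` are those of `t`).
(2) Otherwise let `μ` be its minimum.  `μ ∈ q.large` (`μ ∉ p0.stem` by the gap), so `μ ∈ KeySet`, so `μ ∈ T`
or `T ∈ S.U μ j` for some `j < S.o μ`.  If `μ ∈ T` apply `keyC_step` to `t`, `ξ = μ`.  If
`T ∈ S.U μ j`: let `a` be the largest point of `t.stem` below `μ`; `exists_add` for `t` at `μ` gives `ξ ∈ T`
with `a < ξ < μ`; `c0 = addPt t ξ`, `keyC_step` for `c0`.
(To treat (1) and (2) together: a lemma for a point `ν` of `t` with `w < ν ≤ δ`, `T ∈ S.U ν j`, `j < S.o ν` and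
all `γ ∈ t.stem`, `w < γ < ν`, satisfying `γ ∈ A`, `Fmem S γ A`.)

`key_compl`: let `γ` be a point of `p0`, `w < γ`.  If `Gap p0 w γ`: for `β < S.o γ`, `TSet` is not in `S.U γ β`
by `key`, so its complement is.  Otherwise there is `m ∈ p0.stem`, `w < m < γ`; then
`Ioi m ⊆ (TSet p0 y w b)ᶜ` because `m ∈ y'.stem` for all `y' ≤ p0`; use `fmem_Ioi`.
-/

open Set Filter

namespace MR3098

universe u

variable {κ : Ordinal.{u}} {S : CoherentSeq κ}

theorem key_compl {p0 y : Cond S} {w : Ordinal.{u}} {b : RO (Cond S)} (hy : y ≤ p0)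
    (hw : w ∈ y.stem) (hb : ¬ PF p0 w y b) :
    ∀ γ, Pt p0 γ → w < γ → Fmem S γ (TSet p0 y w b)ᶜ := by
  intro γ hγ hlt
  by_cases hg : Gap p0 w γ
  · intro β hβ
    exact Ultrafilter.compl_mem_iff_notMem.mpr fun hT => hb (key hy hw hg hβ hT)
  · have h1 : ∃ m ∈ p0.stem, w < m ∧ m < γ := by
      by_contra hcon
      exact hg ⟨hlt, hγ, fun m hm hmm => hcon ⟨m, hm, hmm⟩⟩
    obtain ⟨m, hm, h2, h3⟩ := h1
    refine (fmem_Ioi hγ.le h3).mono fun ξ (hξ : m < ξ) hT => ?_
    obtain ⟨-, y', hy', -, -, h5, -⟩ := hT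
    exact h5 m (hy'.1 hm) ⟨h2, hξ⟩

end MR3098
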