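import Pool.Agent.Work.MP_3098b6_lc.GoodA

/-!
MODULE LFiveLow (size S-M, about 70 lines; this file: lfive_low; LFive is a separate module): separation at almost all visible points pulls down.

Let `Y = YSet D p0 q1 x y z z'` and let `j` be minimal with `Y ∈ S.U δ j`.  Let
`Y1 = {γ ∈ Y | γ < δ ∧ Fmem S γ Yᶜ}`; it is in `S.U δ j` by `ktwo` for `Yᶜ`.
Choose `e : Ordinal → RO` with `e γ ∈ D` and `e γ = jv D p0 γ` below `q1` (`jv_mem`), and for `γ ∈ Y`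
conditions `x' γ`, `y' γ` and the witness `b γ ∈ D` of `SS D p0 γ γ (x' γ) (y' γ)`.

* `lfive_low`: for `γ` with `Fmem S γ Yᶜ`, `x' ≤ q1`, `γ ∈ x'.stem`, no stem points in `(z, γ)`, `New D p0 x' γ`:
  `x'' = restr x' {η | z < η → η < γ → η ∉ Y}` (points of `x'`: `≤ z`, `= γ`, or `> γ`).  If `Lle γ t x''`,
  `Ule γ t q1` then `t ≤ q1` (`le_of_low`), `New D p0 t γ` (`new_low`), so `t ∈ jv D p0 γ`.  If `g ∈ Y`,
  `z < g < γ`, then `g` is not in the stem of any `s ≤ t` (`g ∉ x''.stem`, `g ∉ x''.large`), so no `s ≤ t` is in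
  `jv D p0 g`.
* `c γ = RO.inf ({e γ, b γ} ∪ {(e g).neg | g ∈ Y1, g < γ}) ∈ D` and `bb = (RO.inf {(c γ).neg | γ ∈ Y1}).neg ∈ D`.
  For `γ ∈ Y1`: `PF p0 γ (x'' γ) bb`: `PF p0 γ (x'' γ) (c γ)` (pure witness: common extension of `q1` and the witness
  for `b γ`), and `c γ ≤ bb`.  And `PF p0 γ (y'' γ) bb.neg`: a `t` in `e γ`, in `(b γ).neg` and in all
  `(e g).neg`, `g ∈ Y1`, `g < γ`, is in `(c g).neg` for every `g ∈ Y1` (`g = γ`: because of `b γ`; `g < γ`: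
  because of `e g`; `g > γ`: because `c g ≤ (e γ).neg`), so in `RO.inf`, so in `bb.neg`.
* So `Y1 ⊆ TSet p0 x z bb` and `Y1 ⊆ TSet p0 y z' bb.neg`; `key` gives `PF p0 z x bb`, `PF p0 z' y bb.neg`.
-/

open Set Filter

namespace MR3098

universe u

variable {κ : Ordinal.{u}} {S : CoherentSeq κ} {D : Set (RO (Cond S))} {p0 q1 : Cond S}

theorem lfive_low {Y : Set Ordinal.{u}} {x' : Cond S} {z γ : Ordinal.{u}} (hγκ : γ ≤ κ)
    (hY : Fmem S γ Yᶜ) (hx : x' ≤ q1) (hz : Pt x' z) (hzγ : z < γ) (hγ : γ ∈ x'.stem)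
    (hno : ∀ δ ∈ x'.stem, ¬ (z < δ ∧ δ < γ)) (hn : New D p0 x' γ) :
    ∃ x'' ≤ x', Lle z x' x'' ∧ x''.stem = x'.stem ∧ ∀ t, Lle γ t x'' → Ule γ t q1 →
      t ≤ q1 ∧ t ∈ (jv D p0 γ).carrier ∧
        ∀ g ∈ Y, z < g → g < γ → t ∈ (jv D p0 g).neg.carrier := by
  have hF : ∀ δ, Pt x' δ → Fmem S δ {η | z < η → η < γ → η ∉ Y} := by
    intro δ hδ
    rcases le_or_gt δ z with h | h
    · exact (fmem_Iio hδ.le).mono fun ξ hξ h' _ => absurd (h'.trans hξ) (not_lt.mpr h)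
    · rcases lt_trichotomy δ γ with h2 | h2 | h2
      · exact absurd ⟨h, h2⟩ (hno δ (hδ.mem_of_lt (h2.trans_le hγκ)))
      · subst h2
        exact hY.mono fun ξ hξ _ _ => hξ
      · exact (fmem_Ioi hδ.le h2).mono fun ξ hξ _ h' => absurd h' (not_lt.mpr (le_of_lt hξ))
  have hle : restr x' {η | z < η → η < γ → η ∉ Y} hF ≤ x' := restr_le
  refine ⟨restr x' {η | z < η → η < γ → η ∉ Y} hF, hle, ?_, rfl, ?_⟩
  · refine ⟨hz, ?_, fun δ hδ _ => hδ, fun δ hδ _ => Or.inl hδ, fun ξ hξ h => ⟨hξ, fun h' => ?_⟩⟩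
    · exact hz
    · exact absurd h (not_lt.mpr h'.le)
  · intro t ht hu
    have ht' : Lle γ t x' := ht.trans (lle_of_le hle (Or.inl hγ))
    refine ⟨le_of_low hx ht' hu, fun s hs => ⟨s, le_rfl, new_mono (new_low hn ht') hs⟩, ?_⟩
    intro g hg hzg hgγ
    rw [mem_neg_iff]
    intro s hs hsj
    obtain ⟨r, hr, hrn⟩ := hsj s le_rfl
    have hgr : g ∈ r.stem := hrn.mem
    have hrt : r ≤ t := hr.trans hs
    have h1 : g ∈ (restr x' {η | z < η → η < γ → η ∉ Y} hF).stem ∨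
        g ∈ (restr x' {η | z < η → η < γ → η ∉ Y} hF).large := by
      rcases hrt.2.2 g hgr with h | h
      · exact ht.new g h hgγ.le
      · exact Or.inr (ht.lar g h hgγ)
    rcases h1 with h | h
    · exact hno g h ⟨hzg, hgγ⟩
    · exact h.2 hzg hgγ hg

end MR3098
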