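import Pool.Agent.Work.MP_3098b6_lc.LFour
import Pool.Agent.Work.MP_3098b6_lc.LFiveLow

/-!
MODULE LFive (size M, about 130 lines; this file: lfive; LFiveLow is a separate module): separation at almost all visible points pulls down.

Let `Y = YSet D p0 q1 x y z z'` and let `j` be minimal with `Y ∈ S.U δ j`.  Let
`Y1 = {γ ∈ Y | γ < δ ∧ Fmem S γ Yᶜ}`; it is in `S.U δ j` by `ktwo` for `Yᶜ`.
Choose `e : Ordinal → RO` with `e γ ∈ D` and `e γ = jv D p0 γ` below `q1` (`jv_mem`), and for `γ ∈ Y`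
conditions `x' γ`, `y' γ` and the witness `b γ ∈ D` of `SS D p0 γ γ (x' γ) (y' γ)`.

* `lfive_low`: for `γ` with `Fmem S γ Yᶜ`, `x' ≤ q1`, `γ ∈ x'.stem`, no stem points in `(z, γ)`, `New D p0 x' γ`:
  `x'' = restr x' {η | z < η → η < γ → η ∉ Y}` (points of `x'`: `≤ z`, `= γ`, or `> γ`).  If `Lle γ t x''`,
  `Ule γ t q1` then `t ≤ q1` (`le_of_low`), `New D p0 t γ` (`new_low`), so `t ∈ jv D p0 γ`.  If `g ∈ Y`,
  `z < g < γ`, then `g` is not in the stem of any `s ≤ t` (`g ∉ x''.stem`, `g ∉ x''.large`), so no `s ≤ t` is in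
  `jv D p0 g`.
* `c γ = RO.inf ({e γ, b γ} ∪ {(e g).neg | g ∈ Y1, g < γ}) ∈ D` and `bb = (RO.inf {(c γ).neg | γ ∈ Y1}).neg ∈ D`.
  For `γ ∈ Y1`: `PF p0 γ (x'' γ) bb`: `PF p0 γ (x'' γ) (c γ)` (pure witness: common extension of `q1` and the witness
  for `b γ`), and `c γ ≤ bb`.  And `PF p0 γ (y'' γ) bb.neg`: a `t` in `e γ`, in `(b γ).neg` and in all
  `(e g).neg`, `g ∈ Y1`, `g < γ`, is in `(c g).neg` for every `g ∈ Y1` (`g = γ`: because of `b γ`; `g < γ`: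
  because of `e g`; `g > γ`: because `c g ≤ (e γ).neg`), so in `RO.inf`, so in `bb.neg`.
* So `Y1 ⊆ TSet p0 x z bb` and `Y1 ⊆ TSet p0 y z' bb.neg`; `key` gives `PF p0 z x bb`, `PF p0 z' y bb.neg`.
-/

open Set Filter

namespace MR3098

universe u

variable {κ : Ordinal.{u}} {S : CoherentSeq κ} {D : Set (RO (Cond S))} {p0 q1 : Cond S}

private theorem lfive_side {Y : Set Ordinal.{u}} {x x' : Cond S} {z γ : Ordinal.{u}}
    {b : RO (Cond S)} (hq1 : IsPure p0 q1) (hγκ : γ ≤ κ)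
    (hY : Fmem S γ Yᶜ) (hx : x' ≤ q1) (hxx : Lle z x x') (hzγ : z < γ) (hγ : γ ∈ x'.stem)
    (hno : ∀ δ ∈ x'.stem, ¬ (z < δ ∧ δ < γ)) (hn : New D p0 x' γ) (hb : PF p0 γ x' b)
    {c : RO (Cond S)}
    (hc : ∀ t ≤ q1, t ∈ (jv D p0 γ).carrier → (∀ g ∈ Y, z < g → g < γ →
      t ∈ (jv D p0 g).neg.carrier) → t ∈ b.carrier → t ∈ c.carrier) :
    γ ∈ TSet p0 x z c := by
  obtain ⟨x'', hx'', hxx'', hst, H⟩ := lfive_low (D := D) (p0 := p0) hγκ hY hx hxx.ptx hzγ hγ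
    hno hn
  have hγ'' : γ ∈ x''.stem := by rw [hst]; exact hγ
  obtain ⟨qb, hqb, Hb⟩ := hb.mono (lle_of_le hx'' (pt_of_mem hγ))
  obtain ⟨t0, ht0, h1, h2⟩ := hq1.inf hqb
  refine ⟨hzγ, x'', hx''.trans (hx.trans hq1.1), hxx.trans hxx'', hγ'', ?_, t0, ht0, ?_⟩
  · rw [hst]
    exact hno
  · intro t htl htu
    obtain ⟨h3, h4, h5⟩ := H t htl (htu.trans (ule_of_le h1))
    exact hc t h3 h4 h5 (Hb t htl (htu.trans (ule_of_le h2)))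

theorem lfive (hD : IsCSub D) {m : Ordinal.{u}} (hb : IsBase p0 m) (h1 : GoodOne D p0 q1)
    {x y : Cond S} {z z' δ j : Ordinal.{u}} (hx : x ≤ p0) (hy : y ≤ p0) (hz : z ∈ x.stem)
    (hz' : z' ∈ y.stem) (hg : Gap p0 z δ) (hg' : Gap p0 z' δ) (hj : j < S.o δ)
    (hY : YSet D p0 q1 x y z z' ∈ S.U δ j) : SS D p0 z z' x y := by
  classical
  have hδκ : δ ≤ κ := hg.pt.le
  -- the least `j`
  obtain ⟨j0, hj0Y, hmin⟩ := WellFounded.has_min (wellFounded_lt (α := Ordinal.{u}))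
    {i | YSet D p0 q1 x y z z' ∈ S.U δ i} ⟨j, hY⟩
  have hj0 : j0 < S.o δ := lt_of_le_of_lt (not_lt.mp (hmin j hY)) hj
  have hcompl : ∀ i < j0, (YSet D p0 q1 x y z z')ᶜ ∈ S.U δ i := by
    intro i hi
    rw [Ultrafilter.compl_mem_iff_notMem]
    exact fun h => hmin i h hi
  have hY1 : {γ | γ ∈ YSet D p0 q1 x y z z' ∧ γ < δ ∧ Fmem S γ (YSet D p0 q1 x y z z')ᶜ} ∈
      S.U δ j0 := by
    have h2 := (ktwo hδκ hj0 (YSet D p0 q1 x y z z')ᶜ).1 hcompl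
    have h3 : Iio δ ∈ S.U δ j0 := (S.normal δ hδκ j0 hj0).mem
    exact Filter.mem_of_superset (Filter.inter_mem (Filter.inter_mem hj0Y h3) h2)
      fun γ hγ => ⟨hγ.1.1, hγ.1.2, hγ.2⟩
  set Y := YSet D p0 q1 x y z z' with hYdef
  set Y1 : Set Ordinal.{u} := {γ | γ ∈ Y ∧ γ < δ ∧ Fmem S γ Yᶜ} with hY1def
  have : Nonempty (RO (Cond S)) := ⟨RO.inf ∅⟩
  choose e heD he using jv_mem hD hb h1
  have hw : ∀ γ ∈ Y1, ∃ b ∈ D, ∃ x' ≤ q1, ∃ y' ≤ q1, Lle z x x' ∧ Lle z' y y' ∧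
      γ ∈ x'.stem ∧ γ ∈ y'.stem ∧ (∀ δ ∈ x'.stem, ¬ (z < δ ∧ δ < γ)) ∧
      (∀ δ ∈ y'.stem, ¬ (z' < δ ∧ δ < γ)) ∧ New D p0 x' γ ∧ New D p0 y' γ ∧
      PF p0 γ x' b ∧ PF p0 γ y' b.neg := by
    rintro γ ⟨⟨_, _, x', hx', y', hy', h3, h4, h5, h6, h7, h8, h9, h10, b, hbD, h11, h12⟩, _⟩
    exact ⟨b, hbD, x', hx', y', hy', h3, h4, h5, h6, h7, h8, h9, h10, h11, h12⟩
  choose! b hbD hw using hw
  let c : Ordinal.{u} → RO (Cond S) := fun γ =>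
    RO.inf {r | r = e γ ∨ r = b γ ∨ ∃ g ∈ Y1, g < γ ∧ r = (e g).neg}
  have hcmem : ∀ γ t, t ∈ (c γ).carrier ↔ t ∈ (e γ).carrier ∧ t ∈ (b γ).carrier ∧
      ∀ g ∈ Y1, g < γ → t ∈ (e g).neg.carrier := by
    intro γ t
    constructor
    · intro h
      exact ⟨h _ (Or.inl rfl), h _ (Or.inr (Or.inl rfl)),
        fun g hg1 hg2 => h _ (Or.inr (Or.inr ⟨g, hg1, hg2, rfl⟩))⟩
    · rintro ⟨h2, h3, h4⟩ r (hr | hr | ⟨g, hg1, hg2, hr⟩)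
      · rw [hr]; exact h2
      · rw [hr]; exact h3
      · rw [hr]; exact h4 g hg1 hg2
  have hcD : ∀ γ ∈ Y1, c γ ∈ D := by
    intro γ hγ
    refine hD.2 _ ?_
    rintro r (hr | hr | ⟨g, _, _, hr⟩)
    · rw [hr]; exact heD γ
    · rw [hr]; exact hbD γ hγ
    · rw [hr]; exact hD.1 _ (heD g)
  let bi : RO (Cond S) := RO.inf {r | ∃ γ ∈ Y1, r = (c γ).neg}
  have hbiD : bi ∈ D := by
    refine hD.2 _ ?_
    rintro r ⟨γ, hγ, hr⟩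
    rw [hr]
    exact hD.1 _ (hcD γ hγ)
  have hclaim1 : ∀ γ ∈ Y1, ∀ t ∈ (c γ).carrier, t ∈ bi.neg.carrier := by
    intro γ hγ t ht s hs hsb
    exact hsb _ ⟨γ, hγ, rfl⟩ s le_rfl ((c γ).down t ht s hs)
  have hneg : ∀ g t, t ≤ q1 → t ∈ (jv D p0 g).neg.carrier → t ∈ (e g).neg.carrier := by
    intro g t ht h s hs hse
    exact h s hs ((he g s (hs.trans ht)).2 hse)
  have hclaim2 : ∀ γ ∈ Y1, ∀ t ∈ (e γ).carrier, t ∈ (b γ).neg.carrier →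
      (∀ g ∈ Y1, g < γ → t ∈ (e g).neg.carrier) → t ∈ bi.neg.neg.carrier := by
    intro γ hγ t hte htb hlt
    rw [neg_neg']
    rintro r ⟨g, hgY, hr⟩
    rw [hr]
    intro s hs hsc
    obtain ⟨h3, h4, h5⟩ := (hcmem g s).1 hsc
    rcases lt_trichotomy g γ with h6 | h6 | h6
    · exact hlt g hgY h6 s hs h3
    · rw [h6] at h4
      exact htb s hs h4
    · exact h5 γ hγ h6 s le_rfl ((e γ).down t hte s hs)
  have hsubx : Y1 ⊆ TSet p0 x z bi.neg := by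
    intro γ hγ
    obtain ⟨x', hx', y', hy', h3, h4, h5, h6, h7, h8, h9, h10, h11, h12⟩ := hw γ hγ
    refine lfive_side h1.1 (hγ.2.1.le.trans hδκ) hγ.2.2 hx' h3 hγ.1.1 h5 h7 h9 h11 ?_
    intro t ht htj htn htb
    refine hclaim1 γ hγ t ((hcmem γ t).2 ⟨(he γ t ht).1 htj, htb, fun g hgY hgγ => ?_⟩)
    exact hneg g t ht (htn g hgY.1 hgY.1.1 hgγ)
  have hsuby : Y1 ⊆ TSet p0 y z' bi.neg.neg := by
    intro γ hγ
    obtain ⟨x', hx', y', hy', h3, h4, h5, h6, h7, h8, h9, h10, h11, h12⟩ := hw γ hγ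
    refine lfive_side h1.1 (hγ.2.1.le.trans hδκ) hγ.2.2 hy' h4 hγ.1.2.1 h6 h8 h10 h12 ?_
    intro t ht htj htn htb
    refine hclaim2 γ hγ t ((he γ t ht).1 htj) htb fun g hgY hgγ => ?_
    exact hneg g t ht (htn g hgY.1 hgY.1.2.1 hgγ)
  exact ⟨bi.neg, hD.1 _ hbiD, key hx hz hg hj0 (Filter.mem_of_superset hY1 hsubx),
    key hy hz' hg' hj0 (Filter.mem_of_superset hY1 hsuby)⟩

end MR3098
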