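import Pool.Agent.Work.MP_3098b6_lc.GoodC

/-!
MODULE LFourB (size M, about 60 lines; this file: lfour_B; LFourA and LFour are separate modules): the visible points are computed by `D`.

Every step of the form (we may extend) uses `ext_left` / `ext_right` (which keep `¬ Sep D p q`) with a set which is dense
below the condition; hereditary facts (`NoPt.mono`, `stat_mono`, `new_mono`, `PF.le`) persist.
`m ≤ ` all stem points by `base_le`; `m` is in all stems below `p0`.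

* `lfour_A` (`q` has `Stat D p0 q γ z'`).  Extend `p`: there is `a ∈ p.stem`, `a ≤ z'`, `NoPt p a z'`
  (`exists_trim` at `ρ = z'`).  No point `δ` of `p0.stem` has `a < δ ≤ γ`: if `δ ≤ z'` against `NoPt p a z'`,
  otherwise against `Stat.none`.  Extend `p` by `new_sep`: `SS D p0 γ a p p` with witness `b ∈ D`:
  `PF p0 γ p b`, `PF p0 a p b.neg`.  Extend `q` (`pp`): decided for `b` at `z'`.
  If `PF p0 z' q b`: `SS D p0 a z' p q` with `b.neg` (`neg_neg'`); `comp` with `ρ = z'` (`noPt_self`).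
  If `PF p0 z' q b.neg`: extend `q`: decided for `b` at `γ`.  `PF p0 γ q b` gives `SS D p0 γ z' q q`, against
  `Stat`.  So `PF p0 γ q b.neg`, `SS D p0 γ γ p q`, `comp` with `ρ = γ`.
* `lfour_B` (`q` in `(inClub S γ).neg`).  Extend `q`: `a' ∈ q.stem`, `a' ≤ γ`, `NoPt q a' γ` (`exists_trim` at
  `γ`); `a' ≠ γ` since `γ ∈ q.stem` would put `q` in `inClub S γ`.  Extend `p`: `a ∈ p.stem`, `a ≤ a'`, `NoPt p a a'`.
  No point of `p0.stem` in `(a, γ]`.  Extend `p` by `new_sep`: `b` with `PF p0 γ p b`, `PF p0 a p b.neg`.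
  Extend `q`: decided for `b` at `a'`.  `PF p0 a' q b`: `SS D p0 a a' p q` by `b.neg`, `comp` with `ρ = a'`.
  `PF p0 a' q b.neg`: `SS D p0 γ a' p q`, `comp` with `ρ = γ`.
* `lfour`: suppose not `Sep`.  Extend `p`: `New D p0 p γ`.  So `γ ∉ p0.stem`.  Extend `q`: `γ ∈ q.stem` or
  `q ∈ (inClub S γ).neg` (dense).  In the first case extend `q` again: for `t ≤ q`, `t ∉ jv D p0 γ`, so there is
  `s ≤ t` without extensions `New`, so `New D p0 s γ` fails, so there are `x' ≤ s`, `z'` with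
  `Stat D p0 x' γ z'`.
* `jv_mem`: `crit` and `lfour`.
-/

open Set Filter

namespace MR3098

universe u

variable {κ : Ordinal.{u}} {S : CoherentSeq κ} {D : Set (RO (Cond S))} {p0 q1 : Cond S}

theorem lfour_B (hD : IsCSub D) {m : Ordinal.{u}} (hb : IsBase p0 m) (h1 : GoodOne D p0 q1)
    {p q : Cond S} {γ : Ordinal.{u}} (hp : p ≤ q1) (hq : q ≤ q1) (hn : New D p0 p γ)
    (hs : q ∈ (inClub S γ).neg.carrier) : Sep D p q := by
  by_contra hns
  have hγκ : γ < κ := p.stem_lt γ hn.mem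
  have hp0 : p ≤ p0 := hp.trans h1.1.1
  have hq0 : q ≤ p0 := hq.trans h1.1.1
  have hmγ : m ≤ γ := (base_le hb hp0).1 γ hn.mem
  -- trim `q` at `γ`
  obtain ⟨q', hq', ⟨a', ha', ha'γ, hna'⟩, hns1⟩ := ext_right hD hns
    {q' | ∃ a' ∈ q'.stem, a' ≤ γ ∧ NoPt q' a' γ} (by
      intro t ht
      obtain ⟨y, hy, a', h2, h3, h4⟩ := exists_trim t hγκ ⟨m, (ht.trans hq0).1 hb.mem, hmγ⟩
      exact ⟨y, hy, a', h2, h3, h4⟩)
  have hγq : ∀ t ≤ q, γ ∉ t.stem := by
    intro t ht hγt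
    exact hs t ht fun s hs => ⟨s, le_rfl, hs.1 hγt⟩
  have ha'lt : a' < γ := by
    rcases ha'γ.lt_or_eq with h | h
    · exact h
    · exact absurd (h ▸ ha') (hγq q' hq')
  have ha'κ : a' < κ := ha'lt.trans hγκ
  have hma' : m ≤ a' := (base_le hb (hq'.trans hq0)).1 a' ha'
  -- trim `p` at `a'`
  obtain ⟨p1, hp1, ⟨a, ha, haa', hna⟩, hns2⟩ := ext_left hD hns1
    {p' | ∃ a ∈ p'.stem, a ≤ a' ∧ NoPt p' a a'} (by
      intro t ht
      obtain ⟨y, hy, a, h2, h3, h4⟩ := exists_trim t ha'κ ⟨m, (ht.trans hp0).1 hb.mem, hma'⟩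
      exact ⟨y, hy, a, h2, h3, h4⟩)
  have haγ : a < γ := haa'.trans_lt ha'lt
  have hno : ∀ δ ∈ p0.stem, ¬ (a < δ ∧ δ ≤ γ) := by
    intro δ hδ h
    rcases le_or_gt δ a' with h2 | h2
    · exact (hna δ h.1 h2).1 ((hp1.trans hp0).1 hδ)
    · exact (hna' δ h2 h.2).1 ((hq'.trans hq0).1 hδ)
  -- separate
  obtain ⟨p2, hp2, ⟨b, hbD, hb1, hb2⟩, hns3⟩ := ext_left hD hns2
    {p' | SS D p0 γ a p' p'} (new_sep (new_mono hn hp1) ha haγ hno)
  have ha2 : a ∈ p2.stem := hp2.1 ha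
  have hγ2 : γ ∈ p2.stem := hp2.1 (hp1.1 hn.mem)
  obtain ⟨q2, hq2, hdec, hns4⟩ := ext_right hD hns3
    {q' | PF p0 a' q' b ∨ PF p0 a' q' b.neg} (by
      intro t ht
      exact pp b ((ht.trans hq').trans hq0) (Or.inl (ht.1 ha')))
  have ha'2 : a' ∈ q2.stem := hq2.1 ha'
  have hp2q : p2 ≤ q1 := (hp2.trans hp1).trans hp
  have hq2q : q2 ≤ q1 := (hq2.trans hq').trans hq
  rcases hdec with hd | hd
  · exact hns4 (comp h1 hp2q hq2q ha2 ha'2 haa' le_rfl (hna.mono hp2) (noPt_self _ _)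
      ⟨b.neg, hD.1 b hbD, hb2, by rw [neg_neg']; exact hd⟩)
  · exact hns4 (comp h1 hp2q hq2q hγ2 ha'2 le_rfl ha'γ (noPt_self _ _) (hna'.mono hq2)
      ⟨b, hbD, hb1, hd⟩)

end MR3098
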