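import Pool.Agent.Work.MP_3098b6_lc.LFourA
import Pool.Agent.Work.MP_3098b6_lc.LFourB

/-!
MODULE LFour (size S-M, about 60 lines; this file: lfour, jv_mem; LFourA and LFourB are separate modules): the visible points are computed by `D`.

Every step of the form (we may extend) uses `ext_left` / `ext_right` (which keep `¬ Sep D p q`) with a set which is dense
below the condition; hereditary facts (`NoPt.mono`, `stat_mono`, `new_mono`, `PF.le`) persist.
`m ≤ ` all stem points by `base_le`; `m` is in all stems below `p0`.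

* `lfour_A` (`q` has `Stat D p0 q γ z'`).  Extend `p`: there is `a ∈ p.stem`, `a ≤ z'`, `NoPt p a z'`
  (`exists_trim` at `ρ = z'`).  No point `δ` of `p0.stem` has `a < δ ≤ γ`: if `δ ≤ z'` against `NoPt p a z'`,
  otherwise against `Stat.none`.  Extend `p` by `new_sep`: `SS D p0 γ a p p` with witness `b ∈ D`:
  `PF p0 γ p b`, `PF p0 a p b.neg`.  Extend `q` (`pp`): decided for `b` at `z'`.
  If `PF p0 z' q b`: `SS D p0 a z' p q` with `b.neg` (`neg_neg'`); `comp` with `ρ = z'` (`noPt_self`).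
  If `PF p0 z' q b.neg`: extend `q`: decided for `b` at `γ`.  `PF p0 γ q b` gives `SS D p0 γ z' q q`, against
  `Stat`.  So `PF p0 γ q b.neg`, `SS D p0 γ γ p q`, `comp` with `ρ = γ`.
* `lfour_B` (`q` in `(inClub S γ).neg`).  Extend `q`: `a' ∈ q.stem`, `a' ≤ γ`, `NoPt q a' γ` (`exists_trim` at
  `γ`); `a' ≠ γ` since `γ ∈ q.stem` would put `q` in `inClub S γ`.  Extend `p`: `a ∈ p.stem`, `a ≤ a'`, `NoPt p a a'`.
  No point of `p0.stem` in `(a, γ]`.  Extend `p` by `new_sep`: `b` with `PF p0 γ p b`, `PF p0 a p b.neg`.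
  Extend `q`: decided for `b` at `a'`.  `PF p0 a' q b`: `SS D p0 a a' p q` by `b.neg`, `comp` with `ρ = a'`.
  `PF p0 a' q b.neg`: `SS D p0 γ a' p q`, `comp` with `ρ = γ`.
* `lfour`: suppose not `Sep`.  Extend `p`: `New D p0 p γ`.  So `γ ∉ p0.stem`.  Extend `q`: `γ ∈ q.stem` or
  `q ∈ (inClub S γ).neg` (dense).  In the first case extend `q` again: for `t ≤ q`, `t ∉ jv D p0 γ`, so there is
  `s ≤ t` without extensions `New`, so `New D p0 s γ` fails, so there are `x' ≤ s`, `z'` with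
  `Stat D p0 x' γ z'`.
* `jv_mem`: `crit` and `lfour`.
-/

open Set Filter

namespace MR3098

universe u

variable {κ : Ordinal.{u}} {S : CoherentSeq κ} {D : Set (RO (Cond S))} {p0 q1 : Cond S}

theorem lfour (hD : IsCSub D) {m : Ordinal.{u}} (hb : IsBase p0 m) (h1 : GoodOne D p0 q1)
    {p q : Cond S} {γ : Ordinal.{u}} (hp : p ≤ q1) (hq : q ≤ q1)
    (hpj : p ∈ (jv D p0 γ).carrier) (hqj : q ∈ (jv D p0 γ).neg.carrier) : Sep D p q := by
  by_contra hns
  obtain ⟨p1, hp1, hn, hns1⟩ := ext_left hD hns {p' | New D p0 p' γ} hpj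
  obtain ⟨q1', hq1', hdec, hns2⟩ := ext_right hD hns1
    {q' | γ ∈ q'.stem ∨ q' ∈ (inClub S γ).neg.carrier} (by
      intro t _
      by_cases h : ∃ r ≤ t, γ ∈ r.stem
      · obtain ⟨r, hr, hγ⟩ := h
        exact ⟨r, hr, Or.inl hγ⟩
      · refine ⟨t, le_rfl, Or.inr ?_⟩
        intro s hs hsc
        obtain ⟨r, hr, hγ⟩ := hsc s le_rfl
        exact h ⟨r, hr.trans hs, hγ⟩)
  rcases hdec with hdec | hdec
  · obtain ⟨q2, hq2, ⟨z', hst⟩, hns3⟩ := ext_right hD hns2
      {q' | ∃ z', Stat D p0 q' γ z'} (by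
        intro t ht
        have htj : t ∉ (jv D p0 γ).carrier := hqj t (ht.trans hq1')
        have hex : ∃ s ≤ t, ∀ r ≤ s, ¬ New D p0 r γ := by
          by_contra hcon
          push Not at hcon
          exact htj hcon
        obtain ⟨s, hs, hsn⟩ := hex
        have hγs : γ ∈ s.stem := hs.1 (ht.1 hdec)
        by_contra hcon
        refine hsn s le_rfl ⟨hγs, hn.notMem, fun x' hx' z hz => ?_⟩
        exact hcon ⟨x', hx'.trans hs, z, hz⟩)
    exact hns3 (lfour_A hD hb h1 (hp1.trans hp) ((hq2.trans hq1').trans hq) hn hst)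
  · exact hns2 (lfour_B hD hb h1 (hp1.trans hp) (hq1'.trans hq) hn hdec)

theorem jv_mem (hD : IsCSub D) {m : Ordinal.{u}} (hb : IsBase p0 m) (h1 : GoodOne D p0 q1)
    (γ : Ordinal.{u}) : ∃ e ∈ D, ∀ p ≤ q1, (p ∈ (jv D p0 γ).carrier ↔ p ∈ e.carrier) :=
  crit hD (jv D p0 γ) q1 fun _ hp _ hq hpj hqj => lfour hD hb h1 hp hq hpj hqj

end MR3098
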