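import Pool.Agent.Work.MP_3098b6_lc.GoodC

/-!
MODULE LFourA (size M, about 60 lines; this file: lfour_A; LFourB and LFour are separate modules): the visible points are computed by `D`.

Every step (we may extend) uses `ext_left` / `ext_right` (which keep `¬ Sep D p q`) with a set which is dense
below the condition; hereditary facts (`NoPt.mono`, `stat_mono`, `new_mono`, `PF.le`) persist.
`m ≤ ` all stem points by `base_le`; `m` is in all stems below `p0`.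

* `lfour_A` (`q` has `Stat D p0 q γ z'`).  Extend `p`: there is `a ∈ p.stem`, `a ≤ z'`, `NoPt p a z'`
  (`exists_trim` at `ρ = z'`).  No point `δ` of `p0.stem` has `a < δ ≤ γ`: if `δ ≤ z'` against `NoPt p a z'`,
  otherwise against `Stat.none`.  Extend `p` by `new_sep`: `SS D p0 γ a p p` with witness `b ∈ D`:
  `PF p0 γ p b`, `PF p0 a p b.neg`.  Extend `q` (`pp`): decided for `b` at `z'`.
  If `PF p0 z' q b`: `SS D p0 a z' p q` with `b.neg` (`neg_neg'`); `comp` with `ρ = z'` (`noPt_self`).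
  If `PF p0 z' q b.neg`: extend `q`: decided for `b` at `γ`.  `PF p0 γ q b` gives `SS D p0 γ z' q q`, against
  `Stat`.  So `PF p0 γ q b.neg`, `SS D p0 γ γ p q`, `comp` with `ρ = γ`.
* `lfour_B` (`q` in `(inClub S γ).neg`).  Extend `q`: `a' ∈ q.stem`, `a' ≤ γ`, `NoPt q a' γ` (`exists_trim` at
  `γ`); `a' ≠ γ` since `γ ∈ q.stem` would put `q` in `inClub S γ`.  Extend `p`: `a ∈ p.stem`, `a ≤ a'`, `NoPt p a a'`.
  No point of `p0.stem` in `(a, γ]`.  Extend `p` by `new_sep`: `b` with `PF p0 γ p b`, `PF p0 a p b.neg`.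
  Extend `q`: decided for `b` at `a'`.  `PF p0 a' q b`: `SS D p0 a a' p q` by `b.neg`, `comp` with `ρ = a'`.
  `PF p0 a' q b.neg`: `SS D p0 γ a' p q`, `comp` with `ρ = γ`.
* `lfour`: suppose not `Sep`.  Extend `p`: `New D p0 p γ`.  So `γ ∉ p0.stem`.  Extend `q`: `γ ∈ q.stem` or
  `q ∈ (inClub S γ).neg` (dense).  In the first case extend `q` again: for `t ≤ q`, `t ∉ jv D p0 γ`, so there is
  `s ≤ t` without extensions `New`, so `New D p0 s γ` fails, so there are `x' ≤ s`, `z'` with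
  `Stat D p0 x' γ z'`.
* `jv_mem`: `crit` and `lfour`.
-/

open Set Filter

namespace MR3098

universe u

variable {κ : Ordinal.{u}} {S : CoherentSeq κ} {D : Set (RO (Cond S))} {p0 q1 : Cond S}

theorem lfour_A (hD : IsCSub D) {m : Ordinal.{u}} (hb : IsBase p0 m) (h1 : GoodOne D p0 q1)
    {p q : Cond S} {γ z' : Ordinal.{u}} (hp : p ≤ q1) (hq : q ≤ q1) (hn : New D p0 p γ)
    (hs : Stat D p0 q γ z') : Sep D p q := by
  by_contra hsep
  have hq1 : q1 ≤ p0 := h1.1.1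
  have hmz : m ≤ z' := (base_le hb (hq.trans hq1)).1 z' hs.memz
  have hmp : m ∈ p.stem := (hp.trans hq1).1 hb.mem
  obtain ⟨p1, hp1, ⟨a, ha, haz, hnp⟩, hsep1⟩ := ext_left hD hsep
    {y | ∃ a ∈ y.stem, a ≤ z' ∧ NoPt y a z'} (fun p' hp' => by
      obtain ⟨y, hy, a, ha, haz, hno⟩ :=
        exists_trim p' (q.stem_lt z' hs.memz) ⟨m, hp'.1 hmp, hmz⟩
      exact ⟨y, hy, a, ha, haz, hno⟩)
  have haγ : a < γ := haz.trans_lt hs.lt
  have hno : ∀ δ ∈ p0.stem, ¬ (a < δ ∧ δ ≤ γ) := by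
    rintro δ hδ ⟨h2, h3⟩
    rcases le_or_gt δ z' with h4 | h4
    · exact (hnp δ h2 h4).1 ((hp1.trans (hp.trans hq1)).1 hδ)
    · exact hs.none δ hδ ⟨h4, h3⟩
  obtain ⟨p2, hp2, ⟨b, hbD, hb1, hb2⟩, hsep2⟩ := ext_left hD hsep1 {y | SS D p0 γ a y y}
    (new_sep (new_mono hn hp1) ha haγ hno)
  have hp2' : p2 ≤ q1 := hp2.trans (hp1.trans hp)
  obtain ⟨q2, hq2, hdec, hsep3⟩ := ext_right hD hsep2
    {y | PF p0 z' y b ∨ PF p0 z' y b.neg}
    (fun q' hq' => pp b ((hq'.trans hq).trans hq1) (pt_of_mem (hq'.1 hs.memz)))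
  have hs2 := stat_mono hs hq2
  rcases hdec with hd | hd
  · refine hsep3 (comp h1 hp2' (hq2.trans hq) (hp2.1 ha) hs2.memz haz le_rfl (hnp.mono hp2)
      (noPt_self _ _) ⟨b.neg, hD.1 b hbD, hb2, ?_⟩)
    rw [neg_neg']
    exact hd
  · obtain ⟨q3, hq3, hdec3, hsep4⟩ := ext_right hD hsep3
      {y | PF p0 γ y b ∨ PF p0 γ y b.neg}
      (fun q' hq' => pp b (((hq'.trans hq2).trans hq).trans hq1) (pt_of_mem (hq'.1 hs2.memγ)))
    rcases hdec3 with hd3 | hd3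
    · exact (stat_mono hs2 hq3).ns q3 le_rfl ⟨b, hbD, hd3, hd.le (pt_of_mem hs2.memz) hq3⟩
    · exact hsep4 (comp h1 hp2' ((hq3.trans hq2).trans hq) ((hp2.trans hp1).1 hn.mem)
        (hq3.1 hs2.memγ) le_rfl le_rfl (noPt_self _ _) (noPt_self _ _) ⟨b, hbD, hb1, hd3⟩)

end MR3098
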