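import Pool.Agent.Work.MP_3098b6_lc.NoSS

/-!
Final assembly (done by helper82).
-/

open Set Filter

namespace MR3098

universe u w

variable {κ : Ordinal.{u}} {S : CoherentSeq κ}

theorem main_theorem (h0 : 0 < S.o κ) {I : Type w} (a : I → RO (Cond S)) (p : Cond S) :
    ∃ q ≤ p, ∃ c : Ordinal.{u} → RO (Cond S), (∀ γ, (c γ).carrier ⊆ (inClub S γ).carrier) ∧
      Computes q c a ∧ Computes q a c := by
  obtain ⟨p0, hp0, m, hb⟩ := exists_base h0 p
  have hD : IsCSub (Gen (range a)) := gen_isCSub _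
  obtain ⟨q1, h1⟩ := exists_goodOne (Gen (range a)) p0
  obtain ⟨q2, h21, h2⟩ := exists_goodTwo hD hb h1
  have hJ : IsCSub (Gen (range (jv (Gen (range a)) p0))) := gen_isCSub _
  have hjJ : ∀ γ, jv (Gen (range a)) p0 γ ∈ Gen (range (jv (Gen (range a)) p0)) :=
    fun γ => subset_gen _ ⟨γ, rfl⟩
  refine ⟨q2, (h21.trans h1.1.1).trans hp0, jv (Gen (range a)) p0, ?_, ?_, ?_⟩
  · intro γ t ht s hs
    obtain ⟨r, hr, hn⟩ := ht s hs
    exact ⟨r, hr, hn.mem⟩
  · intro i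
    refine crit hJ (a i) q2 ?_
    intro s hs t ht hsb htb
    by_contra hns
    exact noSS hD hb hJ hjJ h1 h21 h2 κ s hs t ht (pt_top s) (pt_top t) hns (Or.inl (pt_top p0))
      ⟨a i, subset_gen _ ⟨i, rfl⟩, pf_top.mpr hsb, pf_top.mpr htb⟩
  · intro γ
    obtain ⟨e, he, h⟩ := jv_mem hD hb h1 γ
    exact ⟨e, he, fun t ht => h t (ht.trans h21)⟩

end MR3098
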