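import Pool.Agent.Work.MP_3098b6_lc.Core

/-!
MODULE Meas (size S-M, about 90 lines): normal measures.

* `meas_const`: a regressive function is constant almost everywhere.  Otherwise for every `c < δ` the
  set of `ξ` with `f ξ ≠ c` is in `W` (for `c ≥ δ` put the whole set), so by `diag` the set of `η`
  with `f η ≠ ξ` for all `ξ < η` is in `W`; this contradicts `f η < η`.  (`c < δ` since `W`
  concentrates on `Iio δ`.)
* `meas_all`: `W` is complete for families indexed by the ordinals `≤ a`, `a < δ`.  Note `a + 1 < δ`: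
  `Ioi a ∩ Iio δ` is in `W`, hence nonempty, so `Order.succ a ≤ ξ < δ`.
* `meas_set_const`: for each `c ≤ a` the set of `ξ` with `c ∈ L ξ` or its complement is in `W`;
  collect these sets with `meas_all`.
* `meas_codes`: by contradiction: the complement is in `W`; for `ξ` in it choose bad
  `A, B, A', B', a, a'` (functions of `ξ`); `a, a'` are regressive, hence constant on a set of `W`
  (`meas_const`), then `A, B, A', B'` (subsets of `Iic a`) are constant by `meas_set_const`; then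
  `ξ` is in the fixed set `K A B A' B' a a'` for almost all `ξ`.  Contradiction.
-/

open Set Filter

namespace MR3098

universe u

variable {δ : Ordinal.{u}} {W : Ultrafilter Ordinal.{u}}

theorem meas_const (h : IsNormalMeasure δ W) (f : Ordinal.{u} → Ordinal.{u})
    (hf : ∀ᶠ ξ in (W : Filter Ordinal.{u}), f ξ < ξ) :
    ∃ c < δ, ∀ᶠ ξ in (W : Filter Ordinal.{u}), f ξ = c := by
  by_contra hcon
  have h1 : ∀ c < δ, {ξ | f ξ ≠ c} ∈ W := by
    intro c hc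
    by_contra h2
    apply hcon
    refine ⟨c, hc, ?_⟩
    have h3 := Ultrafilter.compl_mem_iff_notMem.mpr h2
    refine mem_of_superset h3 ?_
    intro ξ hξ
    simpa using hξ
  have h4 := h.diag (fun c => {ξ | f ξ ≠ c}) h1
  obtain ⟨η, h5, h6⟩ := W.nonempty_of_mem (inter_mem h4 hf)
  exact h5 (f η) h6 rfl

theorem meas_all (h : IsNormalMeasure δ W) {a : Ordinal.{u}} (ha : a < δ)
    (X : Ordinal.{u} → Set Ordinal.{u}) (hX : ∀ c ≤ a, X c ∈ W) : {η | ∀ c ≤ a, η ∈ X c} ∈ W := by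
  obtain ⟨ξ, h1, h2⟩ := W.nonempty_of_mem (inter_mem (h.tail a ha) h.mem)
  have h3 : Order.succ a < δ := (Order.succ_le_of_lt h1).trans_lt h2
  have h4 := h.complete (Order.succ a) h3 X (fun c hc => hX c (Order.lt_succ_iff.mp hc))
  refine mem_of_superset h4 ?_
  intro η hη c hc
  exact hη c (Order.lt_succ_iff.mpr hc)

theorem meas_set_const (h : IsNormalMeasure δ W) {a : Ordinal.{u}} (ha : a < δ)
    (L : Ordinal.{u} → Set Ordinal.{u}) :
    ∃ A ⊆ Iic a, ∀ᶠ ξ in (W : Filter Ordinal.{u}), L ξ ∩ Iic a = A := by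
  set A : Set Ordinal.{u} := {c | c ≤ a ∧ {ξ | c ∈ L ξ} ∈ W} with hA
  refine ⟨A, fun c hc => hc.1, ?_⟩
  have h1 : ∀ c ≤ a, {ξ | c ∈ L ξ ↔ c ∈ A} ∈ W := by
    intro c hc
    by_cases h2 : {ξ | c ∈ L ξ} ∈ W
    · refine mem_of_superset h2 ?_
      intro ξ hξ
      exact ⟨fun _ => ⟨hc, h2⟩, fun _ => hξ⟩
    · refine mem_of_superset (Ultrafilter.compl_mem_iff_notMem.mpr h2) ?_
      intro ξ hξ
      exact ⟨fun h3 => absurd h3 hξ, fun h3 => absurd h3.2 h2⟩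
  have h2 := meas_all h ha (fun c => {ξ | c ∈ L ξ ↔ c ∈ A}) h1
  refine mem_of_superset h2 ?_
  intro ξ hξ
  show L ξ ∩ Iic a = A
  ext c
  constructor
  · rintro ⟨h3, h4⟩
    exact (hξ c h4).mp h3
  · intro h3
    exact ⟨(hξ c h3.1).mpr h3, h3.1⟩

theorem meas_codes (h : IsNormalMeasure δ W)
    (K : Set Ordinal.{u} → Set Ordinal.{u} → Set Ordinal.{u} → Set Ordinal.{u} → Ordinal.{u} →
      Ordinal.{u} → Set Ordinal.{u})
    (hK : ∀ A B A' B' a a', a < δ → a' < δ → A ⊆ Iic a → B ⊆ Iic a → A' ⊆ Iic a' → B' ⊆ Iic a' →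
      K A B A' B' a a' ∈ W) :
    {ξ | ∀ A B A' B' a a', a < ξ → a' < ξ → A ⊆ Iic a → B ⊆ Iic a → A' ⊆ Iic a' → B' ⊆ Iic a' →
      ξ ∈ K A B A' B' a a'} ∈ W := by
  by_contra hcon
  have h1 := Ultrafilter.compl_mem_iff_notMem.mpr hcon
  have h2 : ∀ ξ : Ordinal.{u}, ∃ A B A' B' : Set Ordinal.{u}, ∃ a a' : Ordinal.{u},
      ξ ∈ {ξ | ∀ A B A' B' a a', a < ξ → a' < ξ → A ⊆ Iic a → B ⊆ Iic a → A' ⊆ Iic a' →
        B' ⊆ Iic a' → ξ ∈ K A B A' B' a a'}ᶜ → (a < ξ ∧ a' < ξ ∧ A ⊆ Iic a ∧ B ⊆ Iic a ∧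
        A' ⊆ Iic a' ∧ B' ⊆ Iic a' ∧ ξ ∉ K A B A' B' a a') := by
    intro ξ
    by_cases h3 : ξ ∈ {ξ | ∀ A B A' B' a a', a < ξ → a' < ξ → A ⊆ Iic a → B ⊆ Iic a → A' ⊆ Iic a' →
        B' ⊆ Iic a' → ξ ∈ K A B A' B' a a'}ᶜ
    · rw [mem_compl_iff, mem_ofPred_eq] at h3
      push Not at h3
      obtain ⟨A, B, A', B', a, a', h4⟩ := h3
      exact ⟨A, B, A', B', a, a', fun _ => h4⟩
    · exact ⟨∅, ∅, ∅, ∅, 0, 0, fun h4 => absurd h4 h3⟩
  choose A B A' B' a a' h3 using h2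
  obtain ⟨c, hc, h4⟩ := meas_const h a (mem_of_superset h1 fun ξ hξ => (h3 ξ hξ).1)
  obtain ⟨c', hc', h4'⟩ := meas_const h a' (mem_of_superset h1 fun ξ hξ => (h3 ξ hξ).2.1)
  obtain ⟨A0, hA0, h5⟩ := meas_set_const h hc A
  obtain ⟨B0, hB0, h6⟩ := meas_set_const h hc B
  obtain ⟨A1, hA1, h7⟩ := meas_set_const h hc' A'
  obtain ⟨B1, hB1, h8⟩ := meas_set_const h hc' B'
  have h9 := hK A0 B0 A1 B1 c c' hc hc' hA0 hB0 hA1 hB1
  have h10 : ∀ᶠ ξ in (W : Filter Ordinal.{u}), False := by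
    filter_upwards [h1, h4, h4', h5, h6, h7, h8, h9] with ξ g1 g4 g4' g5 g6 g7 g8 g9
    obtain ⟨k1, k2, k3, k4, k5, k6, k7⟩ := h3 ξ g1
    rw [g4] at k3 k4 k7
    rw [g4'] at k5 k6 k7
    rw [inter_eq_left.mpr k3] at g5
    rw [inter_eq_left.mpr k4] at g6
    rw [inter_eq_left.mpr k5] at g7
    rw [inter_eq_left.mpr k6] at g8
    rw [g5, g6, g7, g8] at k7
    exact k7 g9
  obtain ⟨ξ, hξ⟩ := h10.exists
  exact hξ

end MR3098
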