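import Pool.Agent.Work.MP_3098b6_lc.GoodB

/-!
MODULE NoSSa (size M, about 90 lines; this file: noSS_step; NoSS is a separate module): the main induction.

* `noSS_step`: `p, q ≤ q2`, `γ` a point of both, `m < γ`, `SS D p0 γ γ p q`.  Let `z` (`z'`) be the last point of
  `p.stem` (`q.stem`) below `γ` (`m` is one), `ρ = max z z' < γ`.  Extend `p` and `q` (`ext_left`, `ext_right` for
  `J`, `exists_trim` at `ρ`): `p1 ≤ p`, `a ∈ p1.stem`, `a ≤ ρ`, `NoPt p1 a ρ`, so `z ≤ a`; `q1' ≤ q`, `a'`,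
  `z' ≤ a'`.  Let `x = splice a p1 p ≤ p`, `y = splice a' q1' q ≤ q`.  Their last stem points below `γ` are `a`,
  `a'`; `γ` is a point of both, `SS D p0 γ γ x y` (`ss_mono`, `lle_of_le`).  If `γ` is a point of `p0`: `down` for
  `x` and for `y` gives `SS D p0 a a' x y`.  If `New` for both: `h2` (with `new_mono`).  The lower part of `x` at
  `a` is that of `p1` (`lle_splice`), so `SS D p0 a a' p1 q1'` by `ss_mono`.
* `noSS`: strong induction on `γ`.  `m ≤ γ` (`base_le`, or `γ = κ`).  If `γ = m`: the lower parts at `m` are the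
  same (`base_low`), so `PF p0 m p b` and `PF p0 m p b.neg`: `PF.not_both`.  If `m < γ`: `noSS_step`, then `desc`
  (for `p1, q1'`) gives `γ1 ≤ ρ < γ`, against the induction hypothesis.
-/

open Set Filter

namespace MR3098

universe u

variable {κ : Ordinal.{u}} {S : CoherentSeq κ} {D J : Set (RO (Cond S))} {p0 q1 q2 : Cond S}

/-- The last point of the stem below `γ`. -/
private theorem noSSa_last {p : Cond S} {γ m : Ordinal.{u}} (hm : m ∈ p.stem) (hmγ : m < γ) :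
    ∃ z ∈ p.stem, z < γ ∧ ∀ δ ∈ p.stem, ¬ (z < δ ∧ δ < γ) := by
  have hne : (p.stem.filter (fun δ => δ < γ)).Nonempty :=
    ⟨m, Finset.mem_filter.mpr ⟨hm, hmγ⟩⟩
  have hz := Finset.max'_mem _ hne
  rw [Finset.mem_filter] at hz
  refine ⟨_, hz.1, hz.2, fun δ hδ h => ?_⟩
  have hmem : δ ∈ p.stem.filter (fun δ => δ < γ) := Finset.mem_filter.mpr ⟨hδ, h.2⟩
  exact absurd ((p.stem.filter (fun δ => δ < γ)).le_max' δ hmem) (not_le.mpr h.1)

private theorem noSSa_splice {p p1 : Cond S} {γ a z : Ordinal.{u}} (hp1 : p1 ≤ p)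
    (ha : a ∈ p1.stem) (hza : z ≤ a)
    (hz : ∀ δ ∈ p.stem, ¬ (z < δ ∧ δ < γ)) (hpγ : Pt p γ) :
    ∃ x ≤ p, a ∈ x.stem ∧ (∀ δ ∈ x.stem, ¬ (a < δ ∧ δ < γ)) ∧ Lle γ x p ∧ Lle a p1 x := by
  have hpt : Pt p1 a := Or.inl ha
  -- the splice of `p1` and `p` is below `p`
  have hle : splice a p1 p hpt ≤ p := by
    rw [Cond.le_def]
    refine ⟨fun δ hδ => ?_, fun ξ hξ => ?_, fun δ hδ => ?_⟩
    · rcases le_or_gt δ a with h | h
      · exact mem_splice_stem.mpr (Or.inl ⟨hp1.1 hδ, h⟩)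
      · exact mem_splice_stem.mpr (Or.inr ⟨hδ, h⟩)
    · rcases hξ with h | h
      · exact hp1.2.1 h.1
      · exact h.1
    · rcases mem_splice_stem.mp hδ with h | h
      · exact hp1.2.2 δ h.1
      · exact Or.inl h.1
  refine ⟨splice a p1 p hpt, hle, mem_splice_stem.mpr (Or.inl ⟨ha, le_rfl⟩), ?_,
    lle_of_le hle hpγ, lle_splice⟩
  intro δ hδ h
  rcases mem_splice_stem.mp hδ with h' | h'
  · exact absurd h.1 (not_lt.mpr h'.2)
  · exact hz δ h'.1 ⟨hza.trans_lt h.1, h.2⟩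

theorem noSS_step {m : Ordinal.{u}} (hb : IsBase p0 m) (hJ : IsCSub J)
    (h2 : GoodTwo D p0 q2) {γ : Ordinal.{u}} {p q : Cond S}
    (hp : p ≤ q2) (hq : q ≤ q2) (hpγ : Pt p γ) (hqγ : Pt q γ) (hns : ¬ Sep J p q)
    (hv : Pt p0 γ ∨ (New D p0 p γ ∧ New D p0 q γ)) (hm : m < γ) (h : SS D p0 γ γ p q) :
    ∃ ρ < γ, ∃ p1 ≤ p, ∃ q1' ≤ q, ∃ a ∈ p1.stem, ∃ a' ∈ q1'.stem, a ≤ ρ ∧ a' ≤ ρ ∧
      NoPt p1 a ρ ∧ NoPt q1' a' ρ ∧ ¬ Sep J p1 q1' ∧ SS D p0 a a' p1 q1' := by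
  have hp0 : p ≤ p0 := hp.trans h2.1.1
  have hq0 : q ≤ p0 := hq.trans h2.1.1
  have hmp : m ∈ p.stem := hp0.1 hb.mem
  have hmq : m ∈ q.stem := hq0.1 hb.mem
  obtain ⟨z, hz, hzγ, hzn⟩ := noSSa_last hmp hm
  obtain ⟨z', hz', hzγ', hzn'⟩ := noSSa_last hmq hm
  have hρ : max z z' < γ := max_lt hzγ hzγ'
  have hρκ : max z z' < κ := hρ.trans_le hpγ.le
  -- trimming
  obtain ⟨p1, hp1, ⟨a, ha, haρ, hna⟩, hns1⟩ := ext_left hJ hns
    {p' | ∃ a ∈ p'.stem, a ≤ max z z' ∧ NoPt p' a (max z z')} (by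
      intro p' hp'
      obtain ⟨y, hy, a, ha, h1, h2⟩ := exists_trim p' hρκ
        ⟨z, hp'.1 hz, le_max_left _ _⟩
      exact ⟨y, hy, a, ha, h1, h2⟩)
  obtain ⟨q1', hq1', ⟨a', ha', haρ', hna'⟩, hns2⟩ := ext_right hJ hns1
    {p' | ∃ a ∈ p'.stem, a ≤ max z z' ∧ NoPt p' a (max z z')} (by
      intro p' hp'
      obtain ⟨y, hy, a, ha, h1, h2⟩ := exists_trim p' hρκ
        ⟨z', hp'.1 hz', le_max_right _ _⟩
      exact ⟨y, hy, a, ha, h1, h2⟩)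
  have hza : z ≤ a := hna.le_of_mem (hp1.1 hz) (le_max_left _ _)
  have hza' : z' ≤ a' := hna'.le_of_mem (hq1'.1 hz') (le_max_right _ _)
  have haγ : a < γ := haρ.trans_lt hρ
  have haγ' : a' < γ := haρ'.trans_lt hρ
  obtain ⟨x, hx, hax, hxn, hxγ, hxa⟩ := noSSa_splice hp1 ha hza hzn hpγ
  obtain ⟨y, hy, hay, hyn, hyγ, hya⟩ := noSSa_splice hq1' ha' hza' hzn' hqγ
  have hss : SS D p0 γ γ x y := ss_mono h hxγ hyγ
  have hss2 : SS D p0 a a' x y := by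
    rcases hv with hv | hv
    · obtain ⟨b, hbD, hb1, hb2⟩ := hss
      exact ⟨b, hbD, down (hx.trans hp0) hv haγ hax hxn hb1,
        down (hy.trans hq0) hv haγ' hay hyn hb2⟩
    · exact h2.2 x (hx.trans hp) y (hy.trans hq) γ a a' (new_mono hv.1 hx) (new_mono hv.2 hy)
        hss hax hay haγ haγ' hxn hyn
  exact ⟨max z z', hρ, p1, hp1, q1', hq1', a, ha, a', ha', haρ, haρ', hna, hna', hns2,
    ss_mono hss2 hxa hya⟩

end MR3098
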