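import Pool.Agent.Work.MP_3098b6_lc.Desc
import Pool.Agent.Work.MP_3098b6_lc.NoSSa

/-!
MODULE NoSS (size S, about 40 lines; this file: noSS; NoSSa is a separate module): the main induction.

* `noSS_step`: `p, q ≤ q2`, `γ` a point of both, `m < γ`, `SS D p0 γ γ p q`.  Let `z` (`z'`) be the last point of
  `p.stem` (`q.stem`) below `γ` (`m` is one), `ρ = max z z' < γ`.  Extend `p` and `q` (`ext_left`, `ext_right` for
  `J`, `exists_trim` at `ρ`): `p1 ≤ p`, `a ∈ p1.stem`, `a ≤ ρ`, `NoPt p1 a ρ`, so `z ≤ a`; `q1' ≤ q`, `a'`,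
  `z' ≤ a'`.  Let `x = splice a p1 p ≤ p`, `y = splice a' q1' q ≤ q`.  Their last stem points below `γ` are `a`,
  `a'`; `γ` is a point of both, `SS D p0 γ γ x y` (`ss_mono`, `lle_of_le`).  If `γ` is a point of `p0`: `down` for
  `x` and for `y` gives `SS D p0 a a' x y`.  If `New` for both: `h2` (with `new_mono`).  The lower part of `x` at
  `a` is that of `p1` (`lle_splice`), so `SS D p0 a a' p1 q1'` by `ss_mono`.
* `noSS`: strong induction on `γ`.  `m ≤ γ` (`base_le`, or `γ = κ`).  If `γ = m`: the lower parts at `m` are the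
  same (`base_low`), so `PF p0 m p b` and `PF p0 m p b.neg`: `PF.not_both`.  If `m < γ`: `noSS_step`, then `desc`
  (for `p1, q1'`) gives `γ1 ≤ ρ < γ`, against the induction hypothesis.
-/

open Set Filter

namespace MR3098

universe u

variable {κ : Ordinal.{u}} {S : CoherentSeq κ} {D J : Set (RO (Cond S))} {p0 q1 q2 : Cond S}

theorem noSS {m : Ordinal.{u}} (hD : IsCSub D) (hb : IsBase p0 m) (hJ : IsCSub J)
    (hjJ : ∀ γ, jv D p0 γ ∈ J) (h1 : GoodOne D p0 q1) (h21 : q2 ≤ q1) (h2 : GoodTwo D p0 q2)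
    (γ : Ordinal.{u}) : ∀ p ≤ q2, ∀ q ≤ q2, Pt p γ → Pt q γ → ¬ Sep J p q →
      (Pt p0 γ ∨ (New D p0 p γ ∧ New D p0 q γ)) → ¬ SS D p0 γ γ p q := by
  induction γ using WellFoundedLT.induction with
  | ind γ ih =>
    intro p hp q hq hpγ hqγ hns hv h
    have hp0 : p ≤ p0 := hp.trans h2.1.1
    have hq0 : q ≤ p0 := hq.trans h2.1.1
    have hm : m ≤ γ := by
      rcases hpγ with h | h
      · exact (base_le hb hp0).1 γ h
      · rw [h]
        exact (p0.stem_lt m hb.mem).le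
    rcases hm.eq_or_lt with hm | hm
    · subst hm
      obtain ⟨b, _, h3, h4⟩ := h
      exact PF.not_both hpγ h3 (h4.mono (base_low hb hp0 hq0))
    · obtain ⟨ρ, hρ, p1, hp1, q1', hq1', a, ha, a', ha', haρ, haρ', hna, hna', hns1, hss⟩ :=
        noSS_step hb hJ h2 hp hq hpγ hqγ hns hv hm h
      obtain ⟨p', hp', q', hq', g, hg, hns2, hgp, hgq, hv2, hss2⟩ :=
        desc hD hJ hjJ h1 ((hp1.trans hp).trans h21) ((hq1'.trans hq).trans h21) hns1 ha ha'
          haρ haρ' hna hna' hss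
      exact ih g (hg.trans_lt hρ) p' ((hp'.trans hp1).trans hp) q' ((hq'.trans hq1').trans hq)
        (Or.inl hgp) (Or.inl hgq) hns2 (hv2.imp Or.inl id) hss2

end MR3098
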