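import Pool.Agent.Work.MP_3098b6_lc.Meas

/-!
MODULE Unif (size M, about 90 lines): uniform choice over all lower parts.

The code of the lower part of `x` at `a ∈ x.stem` is the pair of the sets `(x.stem : Set _) ∩ Iic a`,
`x.large ∩ Iic a`.  If `x, x'` have the same code at `a` and `a` is in both stems, then `Lle a x x'` and
`Lle a x' x`.

Proof of `uniform`: for sets `A B A' B'` and ordinals `a a'`, let `K A B A' B' a a'` be the following
set: if there are `x, y ≤ p0` with `a ∈ x.stem`, `a' ∈ y.stem` and codes `(A, B)`, `(A', B')`, choose such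
`x, y` and let `K` be the set `X` which `hR` gives for them; otherwise `K = univ`.  Let `E` be the set of
`ξ` such that `ξ ∈ K A B A' B' a a'` for all `a, a' < ξ` and all `A, B ⊆ Iic a`, `A', B' ⊆ Iic a'`.
For a point `γ` of `p0` and `β < S.o γ`, `E ∈ S.U γ β` by `meas_codes` (normality of `S.U γ β` is
`S.normal γ hγ.le β hβ`).  Given `x, y, a, a'`, the `X` is `K` of their codes; `R` holds for the chosen
conditions with the same codes, so for `x, y` by `hcongr`.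
-/

open Set Filter

namespace MR3098

universe u

variable {κ : Ordinal.{u}} {S : CoherentSeq κ}

/-- The code of the lower part of `x` at `a` is `(A, B)`. -/
private def UCode (x : Cond S) (a : Ordinal.{u}) (A B : Set Ordinal.{u}) : Prop :=
  a ∈ x.stem ∧ (x.stem : Set Ordinal.{u}) ∩ Iic a = A ∧ x.large ∩ Iic a = B

private theorem lle_of_code {x x' : Cond S} {a : Ordinal.{u}} {A B : Set Ordinal.{u}}
    (h : UCode x a A B) (h' : UCode x' a A B) : Lle a x x' := by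
  obtain ⟨h1, h2, h3⟩ := h
  obtain ⟨h1', h2', h3'⟩ := h'
  refine ⟨Or.inl h1, Or.inl h1', fun γ hγ hz => ?_, fun γ hγ hz => ?_, fun ξ hξ hz => ?_⟩
  · have h4 : γ ∈ (x'.stem : Set Ordinal.{u}) ∩ Iic a := ⟨hγ, hz⟩
    rw [h2', ← h2] at h4
    exact h4.1
  · have h4 : γ ∈ (x.stem : Set Ordinal.{u}) ∩ Iic a := ⟨hγ, hz⟩
    rw [h2, ← h2'] at h4
    exact Or.inl h4.1
  · have h4 : ξ ∈ x.large ∩ Iic a := ⟨hξ, hz.le⟩
    rw [h3, ← h3'] at h4
    exact h4.1

theorem uniform (p0 : Cond S)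
    (R : Cond S → Ordinal.{u} → Cond S → Ordinal.{u} → Set Ordinal.{u} → Prop)
    (hcongr : ∀ x x' a y y' a' X, Lle a x x' → Lle a x' x → Lle a' y y' → Lle a' y' y →
      R x a y a' X → R x' a y' a' X)
    (hR : ∀ x ≤ p0, ∀ y ≤ p0, ∀ a ∈ x.stem, ∀ a' ∈ y.stem, ∃ X, R x a y a' X ∧
      ∀ γ, Pt p0 γ → a < γ → a' < γ → Fmem S γ X) :
    ∃ E : Set Ordinal.{u}, (∀ γ, Pt p0 γ → Fmem S γ E) ∧
      ∀ x ≤ p0, ∀ y ≤ p0, ∀ a ∈ x.stem, ∀ a' ∈ y.stem, ∃ X, R x a y a' X ∧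
        ∀ ξ ∈ E, a < ξ → a' < ξ → ξ ∈ X := by
  -- the choice of `K`
  have hK : ∀ (A B A' B' : Set Ordinal.{u}) (a a' : Ordinal.{u}), ∃ X : Set Ordinal.{u},
      (∀ γ, Pt p0 γ → a < γ → a' < γ → Fmem S γ X) ∧
      ∀ x ≤ p0, ∀ y ≤ p0, UCode x a A B → UCode y a' A' B' → R x a y a' X := by
    intro A B A' B' a a'
    by_cases h : ∃ x ≤ p0, ∃ y ≤ p0, UCode x a A B ∧ UCode y a' A' B'
    · obtain ⟨x, hx, y, hy, hxc, hyc⟩ := h
      obtain ⟨X, hX1, hX2⟩ := hR x hx y hy a hxc.1 a' hyc.1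
      refine ⟨X, hX2, fun x' hx' y' hy' hxc' hyc' => ?_⟩
      exact hcongr x x' a y y' a' X (lle_of_code hxc hxc') (lle_of_code hxc' hxc)
        (lle_of_code hyc hyc') (lle_of_code hyc' hyc) hX1
    · exact ⟨univ, fun γ _ _ _ β _ => univ_mem, fun x hx y hy h1 h2 =>
        absurd ⟨x, hx, y, hy, h1, h2⟩ h⟩
  choose K hK1 hK2 using hK
  refine ⟨{ξ | ∀ A B A' B' a a', a < ξ → a' < ξ → A ⊆ Iic a → B ⊆ Iic a → A' ⊆ Iic a' →
    B' ⊆ Iic a' → ξ ∈ K A B A' B' a a'}, fun γ hγ β hβ => ?_, fun x hx y hy a ha a' ha' => ?_⟩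
  · exact meas_codes (S.normal γ hγ.le β hβ) K fun A B A' B' a a' h1 h2 _ _ _ _ =>
      hK1 A B A' B' a a' γ hγ h1 h2 β hβ
  · refine ⟨K ((x.stem : Set Ordinal.{u}) ∩ Iic a) (x.large ∩ Iic a)
      ((y.stem : Set Ordinal.{u}) ∩ Iic a') (y.large ∩ Iic a') a a', ?_, ?_⟩
    · exact hK2 _ _ _ _ _ _ x hx y hy ⟨ha, rfl, rfl⟩ ⟨ha', rfl, rfl⟩
    · intro ξ hξ h1 h2
      exact hξ _ _ _ _ _ _ h1 h2 inter_subset_right inter_subset_right inter_subset_right
        inter_subset_right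

end MR3098
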