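import Pool.Agent.Work.MP_3098b6_lc.KeyD
import Pool.Agent.Work.MP_3098b6_lc.Unif

/-!
MODULE PPa (size M, about 70 lines; this file: pf_top, pp_pure; PPb and PPure are separate modules): lower parts decide every `b` (up to extension).

* `pf_top`: `PF p0 κ x b ↔ x ∈ b` : `Lle κ t x` and `Ule κ t q` mean `t ≤ x` (`le_of_lle_ule`; `Ule κ` is
  trivial because stems and large sets are below `κ`).
* `pp_pure`: by `uniform` with
  `R y w y' w' X := ¬ PF p0 w y b → ¬ PF p0 w y b.neg → ∀ ξ ∈ X, ξ ∉ TSet p0 y w b ∧ ξ ∉ TSet p0 y w b.neg`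
  (independent of `y', w'`).  `hcongr`: `PF` and `TSet` depend only on the lower part (`PF.mono`,
  `Lle.trans`).  `hR`: `X = (TSet p0 y w b)ᶜ ∩ (TSet p0 y w b.neg)ᶜ` with `key_compl`, or `univ` if decided.
  `uniform` gives `E`; `q` = pure condition with large set `p0.large ∩ E`; use it with `y' = y`, `w' = w`.
* `pp_descend`: show for all `w ∈ x.stem` with `z ≤ w < δ` that `x` is decided at `w`, by induction on the
  number of the points of `x.stem` in `(w, δ)`.  If there are none use `down`.  Otherwise let `v` be the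
  least one: decided at `v`, so `v ∈ TSet p0 x w b` or `v ∈ TSet p0 x w b.neg` (with `y' = x`), and `v ∈ q.large`;
  so `hq` says that `x` is decided at `w`.
* `pp`: induction on the number of points of `p0.stem` above `z`.  If `z = κ`: some `x' ≤ x` is in `b` or in
  `b.neg`, `pf_top`.  If `z < κ` (so `z ∈ x.stem`): take `Gap p0 z δ` (`exists_gap`).  `x1 = splice z x q ≤ p0`
  with the `q` of `pp_pure`.  By the induction hypothesis for `δ` (or the case `κ`) there is `x' ≤ x1` decided at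
  `δ`.  Points of `x'.stem` in `(z, δ)` are in `q.large`.  `pp_descend`: `x'` is decided at `z`.  The answer is
  `splice z x' x`, which is `≤ x` (`splice_le`, `Lle z x' x1`, `Lle z x1 x`), with `PF.mono splice_lle`.
-/

open Set Filter

namespace MR3098

universe u

variable {κ : Ordinal.{u}} {S : CoherentSeq κ}

theorem pf_top {p0 x : Cond S} {b : RO (Cond S)} : PF p0 κ x b ↔ x ∈ b.carrier := by
  constructor
  · rintro ⟨q, _, H⟩
    exact H x (Lle.refl (pt_top x))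
      ⟨fun γ hγ h => absurd (q.stem_lt γ hγ) (not_lt.mpr h.le),
        fun γ hγ h => absurd (x.stem_lt γ hγ) (not_lt.mpr h.le),
        fun γ hγ h => absurd (x.large_lt γ hγ) (not_lt.mpr h.le)⟩
  · intro hx
    refine ⟨p0, isPure_refl p0, fun t ht _ => b.down x hx t (le_of_lle_ule ht ?_)⟩
    exact ⟨fun γ hγ h => absurd (x.stem_lt γ hγ) (not_lt.mpr h.le),
      fun γ hγ h => absurd (t.stem_lt γ hγ) (not_lt.mpr h.le),
      fun γ hγ h => absurd (t.large_lt γ hγ) (not_lt.mpr h.le)⟩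

private theorem ppa_tset_mono {p0 x x' : Cond S} {a : Ordinal.{u}} {b : RO (Cond S)}
    (h : Lle a x x') : TSet p0 x' a b ⊆ TSet p0 x a b := by
  rintro ξ ⟨h1, y', hy', h2, h3, h4, h5⟩
  exact ⟨h1, y', hy', h.trans h2, h3, h4, h5⟩

theorem pp_pure (p0 : Cond S) (b : RO (Cond S)) : ∃ q, IsPure p0 q ∧
    ∀ y ≤ p0, ∀ w ∈ y.stem, ¬ PF p0 w y b → ¬ PF p0 w y b.neg →
      ∀ ξ ∈ q.large, w < ξ → ξ ∉ TSet p0 y w b ∧ ξ ∉ TSet p0 y w b.neg := by
  obtain ⟨E, hE, H⟩ := uniform p0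
    (fun x a _ _ X => ¬ PF p0 a x b → ¬ PF p0 a x b.neg →
      ∀ ξ ∈ X, ξ ∉ TSet p0 x a b ∧ ξ ∉ TSet p0 x a b.neg)
    (fun x x' a y y' a' X h1 h2 _ _ hR hb hb' ξ hξ => by
      obtain ⟨h3, h4⟩ := hR (fun h => hb (h.mono h2)) (fun h => hb' (h.mono h2)) ξ hξ
      exact ⟨fun h => h3 (ppa_tset_mono h1 h), fun h => h4 (ppa_tset_mono h1 h)⟩)
    (fun x hx y _ a ha a' _ => by
      by_cases hb : PF p0 a x b
      · exact ⟨univ, fun h => absurd hb h, fun γ _ _ _ β _ => Filter.univ_mem⟩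
      by_cases hb' : PF p0 a x b.neg
      · exact ⟨univ, fun _ h => absurd hb' h, fun γ _ _ _ β _ => Filter.univ_mem⟩
      exact ⟨(TSet p0 x a b)ᶜ ∩ (TSet p0 x a b.neg)ᶜ, fun _ _ ξ hξ => ⟨hξ.1, hξ.2⟩,
        fun γ hγ haγ _ => (key_compl hx ha hb γ hγ haγ).inter (key_compl hx ha hb' γ hγ haγ)⟩)
  obtain ⟨q, hq, -, hql⟩ := (isPure_refl p0).restr_ex hE
  refine ⟨q, hq, fun y hy w hw hb hb' ξ hξ hwξ => ?_⟩
  obtain ⟨X, hX, hXE⟩ := H y hy y hy w hw w hw
  rw [hql] at hξ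
  exact hX hb hb' ξ (hXE ξ hξ.2 hwξ hwξ)

end MR3098
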