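import Pool.Agent.Work.MP_3098b6_lc.Down

/-!
MODULE PPb (size M, about 60 lines; this file: pp_descend; PPa and PPure are separate modules): lower parts decide every `b` (up to extension).

* `pf_top`: `PF p0 κ x b ↔ x ∈ b` : `Lle κ t x` and `Ule κ t q` mean `t ≤ x` (`le_of_lle_ule`; `Ule κ` is
  trivial because stems and large sets are below `κ`).
* `pp_pure`: by `uniform` with
  `R y w y' w' X := ¬ PF p0 w y b → ¬ PF p0 w y b.neg → ∀ ξ ∈ X, ξ ∉ TSet p0 y w b ∧ ξ ∉ TSet p0 y w b.neg`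
  (independent of `y', w'`).  `hcongr`: `PF` and `TSet` depend only on the lower part (`PF.mono`,
  `Lle.trans`).  `hR`: `X = (TSet p0 y w b)ᶜ ∩ (TSet p0 y w b.neg)ᶜ` with `key_compl`, or `univ` if decided.
  `uniform` gives `E`; `q` = pure condition with large set `p0.large ∩ E`; use it with `y' = y`, `w' = w`.
* `pp_descend`: show for all `w ∈ x.stem` with `z ≤ w < δ` that `x` is decided at `w`, by induction on the
  number of the points of `x.stem` in `(w, δ)`.  If there are none use `down`.  Otherwise let `v` be the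
  least one: decided at `v`, so `v ∈ TSet p0 x w b` or `v ∈ TSet p0 x w b.neg` (with `y' = x`), and `v ∈ q.large`;
  so `hq` says that `x` is decided at `w`.
* `pp`: induction on the number of points of `p0.stem` above `z`.  If `z = κ`: some `x' ≤ x` is in `b` or in
  `b.neg`, `pf_top`.  If `z < κ` (so `z ∈ x.stem`): take `Gap p0 z δ` (`exists_gap`).  `x1 = splice z x q ≤ p0`
  with the `q` of `pp_pure`.  By the induction hypothesis for `δ` (or the case `κ`) there is `x' ≤ x1` decided at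
  `δ`.  Points of `x'.stem` in `(z, δ)` are in `q.large`.  `pp_descend`: `x'` is decided at `z`.  The answer is
  `splice z x' x`, which is `≤ x` (`splice_le`, `Lle z x' x1`, `Lle z x1 x`), with `PF.mono splice_lle`.
-/

open Set Filter

namespace MR3098

universe u

variable {κ : Ordinal.{u}} {S : CoherentSeq κ}

theorem pp_descend {p0 q x : Cond S} {b : RO (Cond S)} {z δ : Ordinal.{u}} (hx : x ≤ p0)
    (hq : ∀ y ≤ p0, ∀ w ∈ y.stem, ¬ PF p0 w y b → ¬ PF p0 w y b.neg →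
      ∀ ξ ∈ q.large, w < ξ → ξ ∉ TSet p0 y w b ∧ ξ ∉ TSet p0 y w b.neg)
    (hz : z ∈ x.stem) (hzδ : z < δ) (hδ : Pt p0 δ)
    (hpts : ∀ γ ∈ x.stem, z < γ → γ < δ → γ ∈ q.large)
    (h : PF p0 δ x b ∨ PF p0 δ x b.neg) : PF p0 z x b ∨ PF p0 z x b.neg := by
  classical
  by_contra hcon
  have hU : (x.stem.filter (fun w => z ≤ w ∧ w < δ ∧
      ¬ (PF p0 w x b ∨ PF p0 w x b.neg))).Nonempty :=
    ⟨z, Finset.mem_filter.mpr ⟨hz, le_rfl, hzδ, hcon⟩⟩
  obtain ⟨w, hwU, hmax⟩ : ∃ w ∈ x.stem.filter (fun w => z ≤ w ∧ w < δ ∧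
      ¬ (PF p0 w x b ∨ PF p0 w x b.neg)), ∀ γ ∈ x.stem.filter (fun w => z ≤ w ∧ w < δ ∧
      ¬ (PF p0 w x b ∨ PF p0 w x b.neg)), γ ≤ w :=
    ⟨_, Finset.max'_mem _ hU, fun γ hγ => Finset.le_max' _ γ hγ⟩
  obtain ⟨hwx, hzw, hwδ, hwn⟩ := Finset.mem_filter.mp hwU
  by_cases hV : (x.stem.filter (fun v => w < v ∧ v < δ)).Nonempty
  · obtain ⟨v, hvV, hmin⟩ : ∃ v ∈ x.stem.filter (fun v => w < v ∧ v < δ),
        ∀ γ ∈ x.stem.filter (fun v => w < v ∧ v < δ), v ≤ γ :=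
      ⟨_, Finset.min'_mem _ hV, fun γ hγ => Finset.min'_le _ γ hγ⟩
    obtain ⟨hvx, hwv, hvδ⟩ := Finset.mem_filter.mp hvV
    have hdec : PF p0 v x b ∨ PF p0 v x b.neg := by
      by_contra hc
      exact absurd (hmax v (Finset.mem_filter.mpr ⟨hvx, hzw.trans hwv.le, hvδ, hc⟩))
        (not_le.mpr hwv)
    have hno : ∀ γ ∈ x.stem, ¬ (w < γ ∧ γ < v) := fun γ hγ h' =>
      absurd (hmin γ (Finset.mem_filter.mpr ⟨hγ, h'.1, h'.2.trans hvδ⟩)) (not_le.mpr h'.2)
    have hvq := hpts v hvx (hzw.trans_lt hwv) hvδ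
    obtain ⟨h1, h2⟩ := hq x hx w hwx (fun h' => hwn (Or.inl h')) (fun h' => hwn (Or.inr h'))
      v hvq hwv
    rcases hdec with hd | hd
    · exact h1 ⟨hwv, x, hx, Lle.refl (pt_of_mem hwx), hvx, hno, hd⟩
    · exact h2 ⟨hwv, x, hx, Lle.refl (pt_of_mem hwx), hvx, hno, hd⟩
  · have hno : ∀ γ ∈ x.stem, ¬ (w < γ ∧ γ < δ) := fun γ hγ h' =>
      hV ⟨γ, Finset.mem_filter.mpr ⟨hγ, h'⟩⟩
    rcases h with h | h
    · exact hwn (Or.inl (down hx hδ hwδ hwx hno h))
    · exact hwn (Or.inr (down hx hδ hwδ hwx hno h))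

end MR3098
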