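import Pool.Agent.Work.MP_3098b6_lc.PPa
import Pool.Agent.Work.MP_3098b6_lc.PPb
import Pool.Agent.Work.MP_3098b6_lc.Basic

/-!
MODULE PPure (size S-M, about 60 lines; this file: pp; PPa and PPb are separate modules): lower parts decide every `b` (up to extension).

* `pf_top`: `PF p0 κ x b ↔ x ∈ b` : `Lle κ t x` and `Ule κ t q` mean `t ≤ x` (`le_of_lle_ule`; `Ule κ` is
  trivial because stems and large sets are below `κ`).
* `pp_pure`: by `uniform` with
  `R y w y' w' X := ¬ PF p0 w y b → ¬ PF p0 w y b.neg → ∀ ξ ∈ X, ξ ∉ TSet p0 y w b ∧ ξ ∉ TSet p0 y w b.neg`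
  (independent of `y', w'`).  `hcongr`: `PF` and `TSet` depend only on the lower part (`PF.mono`,
  `Lle.trans`).  `hR`: `X = (TSet p0 y w b)ᶜ ∩ (TSet p0 y w b.neg)ᶜ` with `key_compl`, or `univ` if decided.
  `uniform` gives `E`; `q` = pure condition with large set `p0.large ∩ E`; use it with `y' = y`, `w' = w`.
* `pp_descend`: show for all `w ∈ x.stem` with `z ≤ w < δ` that `x` is decided at `w`, by induction on the
  number of the points of `x.stem` in `(w, δ)`.  If there are none use `down`.  Otherwise let `v` be the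
  least one: decided at `v`, so `v ∈ TSet p0 x w b` or `v ∈ TSet p0 x w b.neg` (with `y' = x`), and `v ∈ q.large`;
  so `hq` says that `x` is decided at `w`.
* `pp`: induction on the number of points of `p0.stem` above `z`.  If `z = κ`: some `x' ≤ x` is in `b` or in
  `b.neg`, `pf_top`.  If `z < κ` (so `z ∈ x.stem`): take `Gap p0 z δ` (`exists_gap`).  `x1 = splice z x q ≤ p0`
  with the `q` of `pp_pure`.  By the induction hypothesis for `δ` (or the case `κ`) there is `x' ≤ x1` decided at
  `δ`.  Points of `x'.stem` in `(z, δ)` are in `q.large`.  `pp_descend`: `x'` is decided at `z`.  The answer is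
  `splice z x' x`, which is `≤ x` (`splice_le`, `Lle z x' x1`, `Lle z x1 x`), with `PF.mono splice_lle`.
-/

open Set Filter

namespace MR3098

universe u

variable {κ : Ordinal.{u}} {S : CoherentSeq κ}

private theorem pp_top {p0 : Cond S} {b : RO (Cond S)} (x : Cond S) :
    ∃ x' ≤ x, PF p0 κ x' b ∨ PF p0 κ x' b.neg := by
  by_cases h : ∃ x' ≤ x, x' ∈ b.carrier
  · obtain ⟨x', h1, h2⟩ := h
    exact ⟨x', h1, Or.inl (pf_top.mpr h2)⟩
  · exact ⟨x, le_rfl, Or.inr (pf_top.mpr fun q hq hqb => h ⟨q, hq, hqb⟩)⟩

theorem pp {p0 x : Cond S} {z : Ordinal.{u}} (b : RO (Cond S)) (hx : x ≤ p0) (hz : Pt x z) :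
    ∃ x' ≤ x, PF p0 z x' b ∨ PF p0 z x' b.neg := by
  classical
  have main : ∀ n : ℕ, ∀ (x : Cond S) (z : Ordinal.{u}), x ≤ p0 → Pt x z →
      (p0.stem.filter (fun γ => z < γ)).card < n →
      ∃ x' ≤ x, PF p0 z x' b ∨ PF p0 z x' b.neg := by
    intro n
    induction n with
    | zero => intro x z _ _ h; exact absurd h (Nat.not_lt_zero _)
    | succ n ih =>
      intro x z hx hz hn
      rcases hz with hzs | rfl
      · have hzκ : z < κ := x.stem_lt z hzs
        have hz : Pt x z := Or.inl hzs
        obtain ⟨δ, hg⟩ := exists_gap p0 hzκ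
        obtain ⟨q, hq, hqT⟩ := pp_pure p0 b
        have hx1 : splice z x q hz ≤ p0 := by
          rw [Cond.le_def]
          refine ⟨fun γ hγ => ?_, fun ξ hξ => ?_, fun γ hγ => ?_⟩
          · rcases le_or_gt γ z with h1 | h1
            · exact mem_splice_stem.mpr (Or.inl ⟨hx.1 hγ, h1⟩)
            · exact mem_splice_stem.mpr (Or.inr ⟨hq.1.1 hγ, h1⟩)
          · rcases hξ with h1 | h1
            · exact hx.2.1 h1.1
            · exact hq.1.2.1 h1.1
          · rcases mem_splice_stem.mp hγ with h1 | h1
            · exact hx.2.2 γ h1.1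
            · exact hq.1.2.2 γ h1.1
        obtain ⟨x', hx', hdec⟩ : ∃ x' ≤ splice z x q hz, PF p0 δ x' b ∨ PF p0 δ x' b.neg := by
          rcases hg.pt with h1 | h1
          · refine ih _ δ hx1 (Or.inl (hx1.1 h1)) ?_
            refine lt_of_lt_of_le (Finset.card_lt_card ?_) (Nat.lt_succ_iff.mp hn)
            refine ⟨fun γ hγ => ?_, fun hcon => ?_⟩
            · rw [Finset.mem_filter] at hγ ⊢
              exact ⟨hγ.1, hg.lt.trans hγ.2⟩
            · have := hcon (Finset.mem_filter.mpr ⟨h1, hg.lt⟩)
              rw [Finset.mem_filter] at this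
              exact lt_irrefl _ this.2
          · rw [h1]
            exact pp_top _
        have hzx' : z ∈ x'.stem := hx'.1 (mem_splice_stem.mpr (Or.inl ⟨hzs, le_rfl⟩))
        have hpts : ∀ γ ∈ x'.stem, z < γ → γ < δ → γ ∈ q.large := by
          intro γ hγ h1 h2
          rcases hx'.2.2 γ hγ with h3 | h3
          · rcases mem_splice_stem.mp h3 with h4 | h4
            · exact absurd h4.2 (not_le.mpr h1)
            · rw [hq.2] at h4
              exact absurd ⟨h1, h2⟩ (hg.none γ h4.1)
          · rcases mem_splice_large.mp h3 with h4 | h4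
            · exact absurd h4.2 (not_lt.mpr h1.le)
            · exact h4.1
        have hd := pp_descend (hx'.trans hx1) hqT hzx' hg.lt hg.pt hpts hdec
        have hlle : Lle z x' x := (lle_of_le hx' pt_splice).trans splice_lle
        refine ⟨splice z x' x (Or.inl hzx'), splice_le_right hlle, ?_⟩
        rcases hd with hd | hd
        · exact Or.inl (hd.mono splice_lle)
        · exact Or.inr (hd.mono splice_lle)
      · exact pp_top x
  exact main _ x z hx hz (Nat.lt_succ_self _)

end MR3098
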