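import Pool.Agent.Work.MP_3098b6_lc.Alg
import Pool.Agent.Work.MP_3098b6_lc.PPure

/-!
MODULE SSym (size S, about 80 lines): the relations `SS`, `Stat`, `New`.

* `ss_symm`: replace `b` by `b.neg` (`hD.1`, `neg_neg'`).
* `ss_mono`: `PF.mono`.
* `stat_mono`, `new_mono`: hereditary.
* `new_low`: `New` depends only on the lower part at `γ`: if `Lle γ t x`, `t ≤ p0`, then a `t' ≤ t` with
  `Stat D p0 t' γ z` would give `Stat D p0 x' γ z` for `x' = splice γ t' x ≤ x`: for `x'' ≤ x'` with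
  `SS D p0 γ z x'' x''` put `t'' = splice γ x'' t' ≤ t'` (`Lle γ x'' x'`, `Lle γ x' t'`), and
  `SS D p0 γ z t'' t''` by `ss_mono` (`Lle γ t'' x''`, and `Lle z t'' x''` by `Lle.restrict`, as `z ∈ x''.stem`).
* `new_sep`: for `p' ≤ p`, `Stat D p0 p' γ a` is false, but its first four clauses hold, so `ns` fails.
* `stat_trans`: suppose `x' ≤ x`, `SS D p0 u γ x' x'` with witness `b`.  `pp` at `z`: `x'' ≤ x'` with
  `PF p0 z x'' b` (then `SS D p0 z γ x'' x''`, against `h'`) or `PF p0 z x'' b.neg` (then `SS D p0 u z x'' x''`,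
  against `h`).
* `last_visible`: strong induction on `u` (for all `x`).  If `u ∈ p0.stem` or `New D p0 x u` take `γ = u`,
  `x' = x`.  Otherwise there are `x1 ≤ x`, `z` with `Stat D p0 x1 u z`; apply the induction hypothesis to `x1, z`
  and `stat_mono`, `stat_trans`.
-/

open Set Filter

namespace MR3098

universe u

variable {κ : Ordinal.{u}} {S : CoherentSeq κ} {D : Set (RO (Cond S))} {p0 : Cond S}

theorem ss_symm (hD : IsCSub D) {z z' : Ordinal.{u}} {x y : Cond S} (h : SS D p0 z z' x y) :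
    SS D p0 z' z y x := by
  obtain ⟨b, hb, h1, h2⟩ := h
  refine ⟨b.neg, hD.1 b hb, h2, ?_⟩
  rw [neg_neg']
  exact h1

theorem ss_mono {z z' : Ordinal.{u}} {x y x' y' : Cond S} (h : SS D p0 z z' x y)
    (hx : Lle z x' x) (hy : Lle z' y' y) : SS D p0 z z' x' y' := by
  obtain ⟨b, hb, h1, h2⟩ := h
  exact ⟨b, hb, h1.mono hx, h2.mono hy⟩

theorem stat_mono {x x' : Cond S} {γ z : Ordinal.{u}} (h : Stat D p0 x γ z) (hx : x' ≤ x) :
    Stat D p0 x' γ z :=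
  ⟨hx.1 h.memγ, hx.1 h.memz, h.lt, h.none, fun x'' hx'' => h.ns x'' (hx''.trans hx)⟩

theorem new_mono {x x' : Cond S} {γ : Ordinal.{u}} (h : New D p0 x γ) (hx : x' ≤ x) :
    New D p0 x' γ :=
  ⟨hx.1 h.mem, h.notMem, fun x'' hx'' => h.ns x'' (hx''.trans hx)⟩

theorem new_low {x t : Cond S} {γ : Ordinal.{u}} (h : New D p0 x γ) (ht : Lle γ t x) :
    New D p0 t γ := by
  have hγκ : γ < κ := x.stem_lt γ h.mem
  refine ⟨ht.pty.mem_of_lt hγκ, h.notMem, fun t' ht' z hst => ?_⟩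
  have hpt : Pt t' γ := ht.pty.mono ht'
  have hlow : Lle γ t' x := (lle_of_le ht' ht.pty).trans ht
  refine h.ns (splice γ t' x hpt) (splice_le_right hlow) z ?_
  have hz' : z ∈ (splice γ t' x hpt).stem :=
    mem_splice_stem.mpr (Or.inl ⟨hst.memz, hst.lt.le⟩)
  have hγ' : γ ∈ (splice γ t' x hpt).stem :=
    mem_splice_stem.mpr (Or.inl ⟨hst.memγ, le_rfl⟩)
  refine ⟨hγ', hz', hst.lt, hst.none, fun x'' hx'' hss => ?_⟩
  have hpt2 : Pt x'' γ := Or.inl (hx''.1 hγ')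
  have hlow2 : Lle γ x'' t' := (lle_of_le hx'' (Or.inl hγ')).trans splice_lle
  have hle : splice γ x'' t' hpt2 ≤ t' := splice_le_right hlow2
  refine hst.ns _ hle (ss_mono hss splice_lle ?_)
  exact splice_lle.restrict hst.lt.le (Or.inl (hx''.1 hz'))

theorem new_sep {p : Cond S} {γ a : Ordinal.{u}} (h : New D p0 p γ) (ha : a ∈ p.stem)
    (haγ : a < γ) (hno : ∀ δ ∈ p0.stem, ¬ (a < δ ∧ δ ≤ γ)) :
    ∀ p' ≤ p, ∃ p'' ≤ p', SS D p0 γ a p'' p'' := by
  intro p' hp'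
  by_contra hcon
  push Not at hcon
  exact h.ns p' hp' a ⟨hp'.1 h.mem, hp'.1 ha, haγ, hno, hcon⟩

theorem stat_trans {x : Cond S} {u' z γ : Ordinal.{u}} (hx : x ≤ p0) (h : Stat D p0 x u' z)
    (h' : Stat D p0 x z γ) : Stat D p0 x u' γ := by
  refine ⟨h.memγ, h'.memz, h'.lt.trans h.lt, ?_, fun x' hx' hss => ?_⟩
  · intro δ hδ h1
    rcases le_or_gt δ z with h2 | h2
    · exact h'.none δ hδ ⟨h1.1, h2⟩
    · exact h.none δ hδ ⟨h2, h1.2⟩
  · obtain ⟨b, hb, h1, h2⟩ := hss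
    obtain ⟨x'', hx'', hdec⟩ := pp b (hx'.trans hx) (Or.inl (hx'.1 h.memz))
    rcases hdec with hd | hd
    · exact h'.ns x'' (hx''.trans hx') ⟨b, hb, hd, h2.le (Or.inl (hx'.1 h'.memz)) hx''⟩
    · exact h.ns x'' (hx''.trans hx') ⟨b, hb, h1.le (Or.inl (hx'.1 h.memγ)) hx'', hd⟩

theorem last_visible {x : Cond S} {a : Ordinal.{u}} (hx : x ≤ p0) (ha : a ∈ x.stem) :
    ∃ x' ≤ x, ∃ γ ∈ x'.stem, γ ≤ a ∧ (∀ δ ∈ p0.stem, ¬ (γ < δ ∧ δ ≤ a)) ∧
      (γ ∈ p0.stem ∨ New D p0 x' γ) ∧ (γ = a ∨ Stat D p0 x' a γ) := by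
  induction a using WellFoundedLT.induction generalizing x with
  | ind a ih =>
    by_cases h : a ∈ p0.stem ∨ New D p0 x a
    · exact ⟨x, le_rfl, a, ha, le_rfl, fun δ _ hh => absurd hh.1 (not_lt.mpr hh.2), h, Or.inl rfl⟩
    · push Not at h
      obtain ⟨h1, h2⟩ := h
      have hex : ∃ x1 ≤ x, ∃ z, Stat D p0 x1 a z := by
        by_contra hcon
        push Not at hcon
        exact h2 ⟨ha, h1, hcon⟩
      obtain ⟨x1, hx1, z, hst⟩ := hex
      obtain ⟨x', hx', γ, hγ, h3, h4, h5, h6⟩ := ih z hst.lt (hx1.trans hx) hst.memz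
      have hst' : Stat D p0 x' a z := stat_mono hst hx'
      refine ⟨x', hx'.trans hx1, γ, hγ, h3.trans hst.lt.le, ?_, h5, Or.inr ?_⟩
      · intro δ hδ h7
        rcases le_or_gt δ z with h8 | h8
        · exact h4 δ hδ ⟨h7.1, h8⟩
        · exact hst.none δ hδ ⟨h8, h7.2⟩
      · rcases h6 with h6 | h6
        · subst h6
          exact hst'
        · exact stat_trans ((hx'.trans hx1).trans hx) hst' h6

end MR3098
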